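import Pool.Agent.BLL.Poly

/-!
# Invariant averages and van der Corput for polynomial maps into an abelian group carrying a
positive definite function
-/

set_option autoImplicit false
open Filter Topology

namespace Pool.Agent.BLL

noncomputable section

variable {σ G V : Type*}

/-- average of `a` over the finite family `π s`, `s ∈ S`. -/
def avg (S : Finset σ) (π : σ → G) (a : G → ℂ) : ℂ := (S.card : ℂ)⁻¹ * ∑ s ∈ S, a (π s)

theorem avg_add (S : Finset σ) (π : σ → G) (a b : G → ℂ) :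
    avg S π (fun h => a h + b h) = avg S π a + avg S π b := by
  unfold avg; rw [Finset.sum_add_distrib, mul_add]

theorem avg_sub (S : Finset σ) (π : σ → G) (a b : G → ℂ) :
    avg S π (fun h => a h - b h) = avg S π a - avg S π b := by
  unfold avg; rw [Finset.sum_sub_distrib, mul_sub]

theorem avg_mul (S : Finset σ) (π : σ → G) (c : ℂ) (a : G → ℂ) :
    avg S π (fun h => c * a h) = c * avg S π a := by
  unfold avg; rw [← Finset.mul_sum]; ring

theorem avg_sum {ι : Type*} (T : Finset ι) (S : Finset σ) (π : σ → G) (a : ι → G → ℂ) :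
    avg S π (fun h => ∑ i ∈ T, a i h) = ∑ i ∈ T, avg S π (a i) := by
  unfold avg; rw [Finset.sum_comm, Finset.mul_sum]

theorem avg_const {S : Finset σ} (hS : S.Nonempty) (π : σ → G) (c : ℂ) :
    avg S π (fun _ => c) = c := by
  unfold avg
  rw [Finset.sum_const, nsmul_eq_mul, ← mul_assoc, inv_mul_cancel₀, one_mul]
  exact_mod_cast hS.card_pos.ne'

theorem norm_avg_le (S : Finset σ) (π : σ → G) (a : G → ℂ) {C : ℝ} (hC : 0 ≤ C)
    (h : ∀ x, ‖a x‖ ≤ C) : ‖avg S π a‖ ≤ C := by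
  unfold avg
  rw [norm_mul, norm_inv, Complex.norm_natCast]
  rcases S.eq_empty_or_nonempty with rfl | hS
  · simpa using hC
  · have hpos : (0 : ℝ) < S.card := by exact_mod_cast hS.card_pos
    calc (S.card : ℝ)⁻¹ * ‖∑ s ∈ S, a (π s)‖ ≤ (S.card : ℝ)⁻¹ * (S.card * C) := by
          refine mul_le_mul_of_nonneg_left ?_ (inv_nonneg.2 hpos.le)
          refine (norm_sum_le _ _).trans ?_
          calc ∑ s ∈ S, ‖a (π s)‖ ≤ ∑ _s ∈ S, C := Finset.sum_le_sum fun s _ => h _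
            _ = S.card * C := by rw [Finset.sum_const, nsmul_eq_mul]
      _ = C := by field_simp

theorem avg_sq_le (S : Finset σ) (π : σ → G) (a b : G → ℂ) (h : ∀ x, ‖a x‖ ^ 2 ≤ (b x).re) :
    ‖avg S π a‖ ^ 2 ≤ (avg S π b).re := by
  unfold avg
  rcases S.eq_empty_or_nonempty with rfl | hS
  · simp
  · have hpos : (0 : ℝ) < S.card := by exact_mod_cast hS.card_pos
    have e1 : ((S.card : ℂ)⁻¹ * ∑ s ∈ S, b (π s)).re = (S.card : ℝ)⁻¹ * ∑ s ∈ S, (b (π s)).re := by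
      rw [show ((S.card : ℂ)⁻¹) = (((S.card : ℝ)⁻¹ : ℝ) : ℂ) by push_cast; rfl,
        Complex.re_ofReal_mul, Complex.re_sum]
    rw [e1, norm_mul, norm_inv, Complex.norm_natCast, mul_pow]
    have h1 : ‖∑ s ∈ S, a (π s)‖ ^ 2 ≤ S.card * ∑ s ∈ S, (b (π s)).re := by
      calc ‖∑ s ∈ S, a (π s)‖ ^ 2 ≤ (∑ s ∈ S, ‖a (π s)‖) ^ 2 := by
            gcongr; exact norm_sum_le _ _
        _ ≤ S.card * ∑ s ∈ S, ‖a (π s)‖ ^ 2 := sq_sum_le_card_mul_sum_sq
        _ ≤ S.card * ∑ s ∈ S, (b (π s)).re := by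
            gcongr with s _; exact h _
    calc ((S.card : ℝ)⁻¹) ^ 2 * ‖∑ s ∈ S, a (π s)‖ ^ 2
        ≤ ((S.card : ℝ)⁻¹) ^ 2 * (S.card * ∑ s ∈ S, (b (π s)).re) := by gcongr
      _ = (S.card : ℝ)⁻¹ * ∑ s ∈ S, (b (π s)).re := by field_simp

/-- Asymptotically invariant sequence of averages. -/
structure InvSeq [AddCommGroup G] (S : ℕ → Finset σ) (π : σ → G) : Prop where
  ne : ∀ᶠ H in atTop, (S H).Nonempty
  inv : ∀ v : G, ∃ δ : ℕ → ℝ, Tendsto δ atTop (𝓝 0) ∧ ∀ (H : ℕ) (a : G → ℂ) (C : ℝ),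
    (∀ h, ‖a h‖ ≤ C) → ‖avg (S H) π (fun h => a (h + v)) - avg (S H) π a‖ ≤ C * δ H

theorem InvSeq.tendsto [AddCommGroup G] {S : ℕ → Finset σ} {π : σ → G} (hS : InvSeq S π) (v : G)
    {a : G → ℂ} {C : ℝ} (ha : ∀ h, ‖a h‖ ≤ C) :
    Tendsto (fun H => avg (S H) π (fun h => a (h + v)) - avg (S H) π a) atTop (𝓝 0) := by
  obtain ⟨δ, hδ, h⟩ := hS.inv v
  refine squeeze_zero_norm (fun H => h H a C ha) ?_
  simpa using hδ.const_mul C

/-- A positive definite function on an abelian group, without atoms at elements of infinite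
order. -/
structure PD [AddCommGroup V] (I : V → ℂ) : Prop where
  one : I 0 = 1
  le : ∀ x, ‖I x‖ ≤ 1
  pd : ∀ (U : ℕ) (P : ℕ → V), ‖∑ i ∈ Finset.range U, I (P i)‖ ^ 2 ≤
    (∑ i ∈ Finset.range U, ∑ j ∈ Finset.range U, I (P i - P j)).re
  atom : ∀ w : V, ¬ IsOfFinAddOrder w → Tendsto (fun U : ℕ => ((U : ℝ) ^ 2)⁻¹ *
    (∑ i ∈ Finset.range U, ∑ j ∈ Finset.range U, I (i • w - j • w)).re) atTop (𝓝 0)

variable [AddCommGroup G] [AddCommGroup V]

theorem vdc {S : ℕ → Finset σ} {π : σ → G} (hS : InvSeq S π) {I : V → ℂ} (hI : PD I)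
    (P : G → V) (v : G) {U : ℕ} (hU : U ≠ 0) {ε : ℝ} (hε : 0 < ε) :
    ∀ᶠ H in atTop, ‖avg (S H) π (fun h => I (P h))‖ ^ 2 ≤
      ((U : ℝ) ^ 2)⁻¹ * (∑ i ∈ Finset.range U, ∑ j ∈ Finset.range U,
        (avg (S H) π (fun h => I (P (h + i • v) - P (h + j • v)))).re) + ε := by
  set a : G → ℂ := fun h => I (P h) with ha
  have hab : ∀ h, ‖a h‖ ≤ 1 := fun h => hI.le _
  set A : G → ℂ := fun h => (U : ℂ)⁻¹ * ∑ i ∈ Finset.range U, a (h + i • v) with hA
  have hUpos : (0 : ℝ) < U := by exact_mod_cast Nat.pos_of_ne_zero hU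
  have hUc : (U : ℂ) ≠ 0 := by exact_mod_cast hU
  have hAb : ∀ h, ‖A h‖ ≤ 1 := by
    intro h
    rw [hA]
    simp only [norm_mul, norm_inv, Complex.norm_natCast]
    calc (U : ℝ)⁻¹ * ‖∑ i ∈ Finset.range U, a (h + i • v)‖ ≤ (U : ℝ)⁻¹ * (U * 1) := by
          refine mul_le_mul_of_nonneg_left ?_ (inv_nonneg.2 hUpos.le)
          refine (norm_sum_le _ _).trans ?_
          calc _ ≤ ∑ _i ∈ Finset.range U, (1 : ℝ) := Finset.sum_le_sum fun s _ => hab _
            _ = _ := by rw [Finset.sum_const, nsmul_eq_mul, Finset.card_range]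
      _ = 1 := by field_simp
  -- the averaged function has nearly the same average
  have h1 : Tendsto (fun H => avg (S H) π A - avg (S H) π a) atTop (𝓝 0) := by
    have e : ∀ H, avg (S H) π A - avg (S H) π a
        = (U : ℂ)⁻¹ * ∑ i ∈ Finset.range U,
          (avg (S H) π (fun h => a (h + i • v)) - avg (S H) π a) := by
      intro H
      rw [hA, avg_mul, avg_sum, Finset.sum_sub_distrib, Finset.sum_const, Finset.card_range,
        nsmul_eq_mul, mul_sub, ← mul_assoc, inv_mul_cancel₀ hUc, one_mul]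
    simp only [e]
    have : Tendsto (fun H => ∑ i ∈ Finset.range U,
        (avg (S H) π (fun h => a (h + i • v)) - avg (S H) π a)) atTop (𝓝 (∑ _i ∈ Finset.range U, 0)) :=
      tendsto_finsetSum _ fun i _ => hS.tendsto (i • v) hab
    simpa using this.const_mul ((U : ℂ)⁻¹)
  have h2 : ∀ H, ‖avg (S H) π A‖ ^ 2 ≤ ((U : ℝ) ^ 2)⁻¹ * (∑ i ∈ Finset.range U,
      ∑ j ∈ Finset.range U, (avg (S H) π (fun h => I (P (h + i • v) - P (h + j • v)))).re) := by
    intro H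
    have := avg_sq_le (S H) π A (fun h => (((U : ℝ) ^ 2)⁻¹ : ℝ) * ∑ i ∈ Finset.range U,
      ∑ j ∈ Finset.range U, I (P (h + i • v) - P (h + j • v))) (fun h => by
        rw [Complex.re_ofReal_mul, hA]
        simp only [norm_mul, norm_inv, Complex.norm_natCast, mul_pow, inv_pow]
        exact mul_le_mul_of_nonneg_left (hI.pd U fun i => P (h + i • v)) (by positivity))
    refine this.trans (le_of_eq ?_)
    rw [avg_mul, Complex.re_ofReal_mul, avg_sum, Complex.re_sum]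
    congr 1
    refine Finset.sum_congr rfl fun i _ => ?_
    rw [avg_sum, Complex.re_sum]
  obtain ⟨η, hη, hη2⟩ : ∃ η : ℝ, 0 < η ∧ 2 * η + η ^ 2 ≤ ε := by
    refine ⟨min 1 (ε / 3), lt_min one_pos (by linarith), ?_⟩
    have h3 : min 1 (ε / 3) ≤ ε / 3 := min_le_right _ _
    have h4 : min 1 (ε / 3) ≤ 1 := min_le_left _ _
    have h5 : 0 < min 1 (ε / 3) := lt_min one_pos (by linarith)
    nlinarith
  have h3 := (Metric.tendsto_nhds.1 h1) η hη
  filter_upwards [h3] with H hH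
  rw [dist_zero_right] at hH
  have h4 : ‖avg (S H) π A‖ ≤ 1 := norm_avg_le _ _ _ zero_le_one hAb
  have h5 : ‖avg (S H) π a‖ ≤ ‖avg (S H) π A‖ + η := by
    have : avg (S H) π a = avg (S H) π A - (avg (S H) π A - avg (S H) π a) := by ring
    rw [this]
    refine (norm_sub_le _ _).trans ?_
    linarith
  have h6 : ‖avg (S H) π a‖ ^ 2 ≤ ‖avg (S H) π A‖ ^ 2 + ε := by
    have h7 : 0 ≤ ‖avg (S H) π a‖ := norm_nonneg _
    have h8 : 0 ≤ ‖avg (S H) π A‖ := norm_nonneg _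
    calc ‖avg (S H) π a‖ ^ 2 ≤ (‖avg (S H) π A‖ + η) ^ 2 := by gcongr
      _ = ‖avg (S H) π A‖ ^ 2 + (2 * ‖avg (S H) π A‖ * η + η ^ 2) := by ring
      _ ≤ ‖avg (S H) π A‖ ^ 2 + (2 * 1 * η + η ^ 2) := by gcongr
      _ ≤ _ := by linarith
  linarith [h2 H]

end

end Pool.Agent.BLL
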