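import Pool.Agent.BLL.CharsDef

/-!
# The group of characters; Cauchy–Schwarz for Fejér box averages
-/

set_option autoImplicit false
open Filter Topology MeasureTheory

namespace Pool.Agent.BLL

noncomputable section

variable {X : Type*} [MeasurableSpace X] {μ : Measure X} {T : X ≃ᵐ X} {Ξ : Type*} [AddCommGroup Ξ]

theorem integral_Tp (hT : MeasurePreserving T μ μ) (k : ℤ) {F : X → ℂ} (hF : Measurable F) :
    ∫ x, F (Tp T k x) ∂μ = ∫ x, F x ∂μ := by
  have h := mp_Tp hT k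
  conv_rhs => rw [← h.map_eq]
  rw [integral_map h.measurable.aemeasurable hF.aestronglyMeasurable]

theorem norm_int_sq_le [IsProbabilityMeasure μ] {g : X → ℂ} (hgb : BM g) :
    ‖∫ x, g x ∂μ‖ ^ 2 ≤ ∫ x, ‖g x‖ ^ 2 ∂μ := by
  have hgi : Integrable g μ := hgb.integrable
  have hni : Integrable (fun x => ‖g x‖) μ := hgi.norm
  have hsq : Integrable (fun x => ‖g x‖ ^ 2) μ := by
    obtain ⟨m, C, hC⟩ := hgb
    refine Integrable.of_bound ((m.norm.pow_const 2).aestronglyMeasurable) (C ^ 2)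
      (Eventually.of_forall fun x => ?_)
    rw [Real.norm_of_nonneg (by positivity)]
    exact pow_le_pow_left₀ (norm_nonneg _) (hC x) 2
  have h4 : ‖∫ x, g x ∂μ‖ ≤ ∫ x, ‖g x‖ ∂μ := norm_integral_le_integral_norm _
  set I1 := ∫ x, ‖g x‖ ∂μ with hI1
  have h5 : 0 ≤ ∫ x, (‖g x‖ - I1) ^ 2 ∂μ := integral_nonneg fun x => sq_nonneg _
  have h6 : ∫ x, (‖g x‖ - I1) ^ 2 ∂μ = (∫ x, ‖g x‖ ^ 2 ∂μ) - I1 ^ 2 := by
    have e : (fun x => (‖g x‖ - I1) ^ 2) = fun x => (‖g x‖ ^ 2 - (2 * I1) * ‖g x‖) + I1 ^ 2 := by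
      funext x; ring
    have hs2 : Integrable (fun x => ‖g x‖ ^ 2 - (2 * I1) * ‖g x‖) μ := hsq.sub (hni.const_mul _)
    rw [e, integral_add hs2 (integrable_const _), integral_sub hsq (hni.const_mul _),
      integral_const_mul, ← hI1]
    simp
    ring
  have h7 : 0 ≤ ‖∫ x, g x ∂μ‖ := norm_nonneg _
  nlinarith

namespace Chars

variable (c : Chars μ T Ξ)

/-- powers of the automorphism -/
def tau (k : ℤ) : AddMonoid.End Ξ := ((c.u ^ k : (AddMonoid.End Ξ)ˣ) : AddMonoid.End Ξ)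

theorem tau_zero (φ : Ξ) : c.tau 0 φ = φ := by simp [tau]

theorem tau_one (φ : Ξ) : c.tau 1 φ = (c.u : AddMonoid.End Ξ) φ := by simp [tau]

theorem tau_add (k l : ℤ) (φ : Ξ) : c.tau (k + l) φ = c.tau k (c.tau l φ) := by
  simp [tau, zpow_add]

theorem E_zero (x : X) : c.E 0 x = 1 := by
  have h := c.add 0 0 x
  rw [add_zero] at h
  have hn : c.E 0 x ≠ 0 := by
    intro h0
    have := c.norm 0 x
    rw [h0] at this; simp at this
  exact (mul_right_eq_self₀.1 h.symm).resolve_right hn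

theorem E_neg (φ : Ξ) (x : X) : c.E (-φ) x = (starRingEnd ℂ) (c.E φ x) := by
  have h := c.add φ (-φ) x
  rw [add_neg_cancel, c.E_zero] at h
  have hn := c.norm φ x
  have h2 : c.E φ x * (starRingEnd ℂ) (c.E φ x) = 1 := by
    rw [Complex.mul_conj, Complex.normSq_eq_norm_sq, hn]; simp
  have h0 : c.E φ x ≠ 0 := by
    intro h0; rw [h0] at hn; simp at hn
  exact mul_left_cancel₀ h0 (h.symm.trans h2.symm)

theorem E_sub (φ ψ : Ξ) (x : X) : c.E (φ - ψ) x = c.E φ x * (starRingEnd ℂ) (c.E ψ x) := by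
  rw [sub_eq_add_neg, c.add, c.E_neg]

theorem E_sum {ι : Type*} (s : Finset ι) (φ : ι → Ξ) (x : X) :
    c.E (∑ i ∈ s, φ i) x = ∏ i ∈ s, c.E (φ i) x := by
  classical
  induction s using Finset.induction_on with
  | empty => simpa using c.E_zero x
  | insert a s ha ih => rw [Finset.sum_insert ha, Finset.prod_insert ha, c.add, ih]

theorem E_Tp (k : ℤ) (φ : Ξ) (x : X) : c.E φ (Tp T k x) = c.E (c.tau k φ) x := by
  have h1 : ∀ φ x, c.E φ (Tp T 1 x) = c.E (c.tau 1 φ) x := by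
    intro φ x
    rw [Tp_one, c.E_T, c.tau_one]
  have h2 : ∀ φ x, c.E φ (Tp T (-1) x) = c.E (c.tau (-1) φ) x := by
    intro φ x
    have := h1 (c.tau (-1) φ) (Tp T (-1) x)
    rw [← Tp_add, ← c.tau_add] at this
    simp only [add_neg_cancel] at this
    rw [Tp_zero, c.tau_zero] at this
    exact this.symm
  induction k using Int.induction_on generalizing φ x with
  | zero => rw [Tp_zero, c.tau_zero]
  | succ k ih => rw [Tp_add, ih, h1, ← c.tau_add, add_comm]
  | pred k ih => rw [sub_eq_add_neg, Tp_add, ih, h2, ← c.tau_add, add_comm]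

theorem bm (φ : Ξ) : BM (c.E φ) := ⟨c.meas φ, 1, fun x => (c.norm φ x).le⟩

/-- the nilpotent part -/
def N : AddMonoid.End Ξ := (c.u : AddMonoid.End Ξ) - 1

theorem N_apply (φ : Ξ) : c.N φ = c.tau 1 φ - φ := by
  rw [tau_one]; rfl

theorem tau_fix {φ : Ξ} (h : c.N φ = 0) (k : ℤ) : c.tau k φ = φ := by
  have h1 : c.tau 1 φ = φ := by rw [N_apply] at h; exact sub_eq_zero.1 h
  have h2 : c.tau (-1) φ = φ := by
    have := c.tau_add (-1) 1 φ
    rw [h1] at this
    rw [← this]; simp [c.tau_zero]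
  induction k using Int.induction_on with
  | zero => exact c.tau_zero φ
  | succ k ih => rw [tau_add, h1, ih]
  | pred k ih => rw [sub_eq_add_neg, tau_add, h2, ih]

theorem tau_N_comm (k : ℤ) (φ : Ξ) : c.tau k (c.N φ) = c.N (c.tau k φ) := by
  rw [N_apply, N_apply, map_sub, ← tau_add, ← tau_add, add_comm]

theorem Npow_succ (n : ℕ) (φ : Ξ) : (c.N ^ (n + 1)) φ = c.N ((c.N ^ n) φ) := by
  rw [pow_succ']; rfl

theorem tau_Npow_comm (k : ℤ) (n : ℕ) (φ : Ξ) : c.tau k ((c.N ^ n) φ) = (c.N ^ n) (c.tau k φ) := by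
  induction n generalizing φ with
  | zero => simp
  | succ n ih =>
    rw [Npow_succ, tau_N_comm, ih, ← Npow_succ]

/-- the orbit map is polynomial -/
theorem isPoly_tau {d : ℕ} {φ : Ξ} (h : (c.N ^ (d + 1)) φ = 0) :
    IsPoly d (fun k : ℤ => c.tau k φ) := by
  induction d generalizing φ with
  | zero =>
    intro k
    simp only
    have h' : c.N φ = 0 := by simpa using h
    rw [c.tau_fix h', c.tau_fix h']
  | succ d ih =>
    intro v
    have e : dif v (fun k : ℤ => c.tau k φ) = fun k => c.tau k (c.tau v φ - φ) := by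
      funext k
      simp only [dif]
      rw [tau_add, map_sub]
    rw [e]
    refine ih ?_
    rw [map_sub, ← tau_Npow_comm]
    rw [Npow_succ] at h
    rw [c.tau_fix h, sub_self]

theorem exists_isPoly_tau : ∃ D : ℕ, ∀ φ : Ξ, IsPoly D (fun k : ℤ => c.tau k φ) := by
  obtain ⟨D, hD⟩ := c.nil
  refine ⟨D, fun φ => c.isPoly_tau ?_⟩
  rw [Npow_succ]
  have : c.N ^ D = 0 := hD
  rw [this]
  simp

/-- the integral of a character -/
def I (φ : Ξ) : ℂ := ∫ x, c.E φ x ∂μ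

theorem int_norm_sq_eq [IsProbabilityMeasure μ] (hT : MeasurePreserving T μ μ) {G : X → ℂ}
    (hG : BM G) (q : ℤ) (H : ℕ) :
    (((∫ x, ‖(H : ℂ)⁻¹ * ∑ t ∈ Finset.range H, G (Tp T (q * t) x)‖ ^ 2 ∂μ : ℝ)) : ℂ)
      = ((H : ℂ) ^ 2)⁻¹ * ∑ s ∈ Finset.range H, ∑ t ∈ Finset.range H,
        ∫ x, mD T (q * ((s : ℤ) - t)) G x ∂μ := by
  rw [← integral_complex_ofReal]
  have hpt : ∀ x, ((‖(H : ℂ)⁻¹ * ∑ t ∈ Finset.range H, G (Tp T (q * t) x)‖ ^ 2 : ℝ) : ℂ)
      = ((H : ℂ) ^ 2)⁻¹ * ∑ s ∈ Finset.range H, ∑ t ∈ Finset.range H,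
        G (Tp T (q * t) x) * (starRingEnd ℂ) (G (Tp T (q * s) x)) := by
    intro x
    rw [← Complex.normSq_eq_norm_sq, ← Complex.mul_conj, map_mul, map_sum, map_inv₀,
      Complex.conj_natCast, Finset.sum_comm, ← Finset.sum_mul_sum]
    ring
  simp only [hpt]
  rw [integral_const_mul, integral_finsetSum]
  · congr 1
    refine Finset.sum_congr rfl fun s _ => ?_
    rw [integral_finsetSum]
    · refine Finset.sum_congr rfl fun t _ => ?_
      have e : ∀ x, G (Tp T (q * t) x) * (starRingEnd ℂ) (G (Tp T (q * s) x))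
          = mD T (q * ((s : ℤ) - t)) G (Tp T (q * t) x) := by
        intro x
        rw [mD, ← Tp_add]
        congr 4
        ring
      simp only [e]
      exact integral_Tp hT _ (hG.mD hT _).1
    · intro t _
      exact ((hG.comp (mp_Tp hT _).measurable).mul (hG.comp (mp_Tp hT _).measurable).conj).integrable
  · intro s _
    exact (BM.sum _ fun t _ =>
      (hG.comp (mp_Tp hT _).measurable).mul (hG.comp (mp_Tp hT _).measurable).conj).integrable

theorem vdc_step [IsProbabilityMeasure μ] (hT : MeasurePreserving T μ μ) {G : X → ℂ}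
    (hG : BM G) (q : ℤ) {H : ℕ} (hH : H ≠ 0) :
    ‖∫ x, G x ∂μ‖ ^ 2 ≤ ((H : ℝ) ^ 2)⁻¹ * ∑ s ∈ Finset.range H, ∑ t ∈ Finset.range H,
        (∫ x, mD T (q * ((s : ℤ) - t)) G x ∂μ).re := by
  have h1 := int_norm_sq_eq hT hG q H
  have hHc : (H : ℂ) ≠ 0 := by exact_mod_cast hH
  set g : X → ℂ := fun x => (H : ℂ)⁻¹ * ∑ t ∈ Finset.range H, G (Tp T (q * t) x) with hg
  have hgb : BM g := (BM.const _).mul (BM.sum _ fun t _ => hG.comp (mp_Tp hT _).measurable)
  have h2 : ∫ x, G x ∂μ = ∫ x, g x ∂μ := by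
    rw [hg, integral_const_mul, integral_finsetSum]
    · have e : ∑ t ∈ Finset.range H, ∫ x, G (Tp T (q * t) x) ∂μ
          = ∑ _t ∈ Finset.range H, ∫ x, G x ∂μ :=
        Finset.sum_congr rfl (fun t _ => integral_Tp hT (q * t) hG.1)
      rw [e, Finset.sum_const,
        Finset.card_range, nsmul_eq_mul, ← mul_assoc, inv_mul_cancel₀ hHc, one_mul]
    · intro t _
      exact (hG.comp (mp_Tp hT _).measurable).integrable
  have h3 : ‖∫ x, g x ∂μ‖ ^ 2 ≤ ∫ x, ‖g x‖ ^ 2 ∂μ := norm_int_sq_le hgb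
  rw [h2]
  refine h3.trans (le_of_eq ?_)
  have h8 := congrArg Complex.re h1
  rw [Complex.ofReal_re] at h8
  rw [h8, show (((H : ℂ) ^ 2)⁻¹) = ((((H : ℝ) ^ 2)⁻¹ : ℝ) : ℂ) by push_cast; rfl,
    Complex.re_ofReal_mul, Complex.re_sum]
  simp only [Complex.re_sum]

theorem pdI [IsProbabilityMeasure μ] : PD c.I where
  one := by
    simp [I, c.E_zero]
  le := by
    intro φ
    refine (norm_integral_le_integral_norm _).trans ?_
    simp [c.norm]
  pd := by
    intro U P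
    have h1 : ∑ i ∈ Finset.range U, c.I (P i) = ∫ x, ∑ i ∈ Finset.range U, c.E (P i) x ∂μ := by
      rw [integral_finsetSum]
      · rfl
      · intro i _; exact (c.bm _).integrable
    have hbm : BM (fun x => ∑ i ∈ Finset.range U, c.E (P i) x) := BM.sum _ fun i _ => c.bm _
    have h2 : ∑ i ∈ Finset.range U, ∑ j ∈ Finset.range U, c.I (P i - P j)
        = ((∫ x, ‖∑ i ∈ Finset.range U, c.E (P i) x‖ ^ 2 ∂μ : ℝ) : ℂ) := by
      rw [← integral_complex_ofReal]
      have hpt : ∀ x, ((‖∑ i ∈ Finset.range U, c.E (P i) x‖ ^ 2 : ℝ) : ℂ)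
          = ∑ i ∈ Finset.range U, ∑ j ∈ Finset.range U, c.E (P i - P j) x := by
        intro x
        rw [← Complex.normSq_eq_norm_sq, ← Complex.mul_conj, map_sum, Finset.sum_mul_sum]
        simp only [c.E_sub]
      simp only [hpt]
      rw [integral_finsetSum]
      · refine Finset.sum_congr rfl fun i _ => ?_
        rw [integral_finsetSum]
        · rfl
        · intro j _; exact (c.bm _).integrable
      · intro i _
        exact (BM.sum _ fun j _ => c.bm _).integrable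
    rw [h2, h1, Complex.ofReal_re]
    exact norm_int_sq_le hbm
  atom := c.atom

theorem mD_E (h : ℤ) (F : X → ℂ) (φ : Ξ) (x : X) :
    mD T h (fun x => F x * c.E φ x) x = mD T h F x * c.E (φ - c.tau h φ) x := by
  simp only [mD, map_mul, c.E_Tp, c.E_sub]
  ring

theorem pow_mean {ι : Type*} (s : Finset ι) (y : ι → ℝ) (hy : ∀ i ∈ s, 0 ≤ y i) {K : ℝ}
    (hK : (s.card : ℝ) = K) (hK0 : 0 < K) (n : ℕ) :
    (K⁻¹ * ∑ i ∈ s, y i) ^ (n + 1) ≤ K⁻¹ * ∑ i ∈ s, y i ^ (n + 1) := by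
  have h1 := pow_sum_div_card_le_sum_pow (s := s) (f := y) (n := n) hy
  rw [hK] at h1
  rw [mul_pow]
  rw [div_le_iff₀ (by positivity)] at h1
  calc K⁻¹ ^ (n + 1) * (∑ i ∈ s, y i) ^ (n + 1)
      ≤ K⁻¹ ^ (n + 1) * ((∑ i ∈ s, y i ^ (n + 1)) * K ^ n) := by gcongr
    _ = K⁻¹ * ∑ i ∈ s, y i ^ (n + 1) := by
        rw [pow_succ, inv_pow]; field_simp

omit [AddCommGroup Ξ] in
theorem ww_zero (H : ℕ) (F : X → ℂ) : ww μ T H 0 F = ∫ x, F x ∂μ := by
  unfold ww avg
  rw [Finset.card_product, card_cube, pow_zero]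
  simp only [mul_one, Nat.cast_one, inv_one, one_mul, cor_zero, Finset.sum_const,
    Finset.card_product, card_cube, pow_zero, one_smul]

theorem ww_one_nonneg [IsProbabilityMeasure μ] (hT : MeasurePreserving T μ μ) {F : X → ℂ}
    (hF : BM F) (H : ℕ) : ∃ r : ℝ, 0 ≤ r ∧ ww μ T H 1 F = r := by
  refine ⟨∫ x, ‖(H : ℂ)⁻¹ * ∑ t ∈ Finset.range H, F (Tp T (1 * t) x)‖ ^ 2 ∂μ,
    integral_nonneg (fun x => sq_nonneg _), ?_⟩
  rw [int_norm_sq_eq hT hF 1 H, ww_succ]
  simp only [one_mul, ww_zero]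


theorem ww_nonneg [IsProbabilityMeasure μ] (hT : MeasurePreserving T μ μ) (d : ℕ) {F : X → ℂ}
    (hF : BM F) (H : ℕ) : 0 ≤ (ww μ T H (d + 1) F).re := by
  induction d generalizing F with
  | zero =>
    obtain ⟨r, hr, e⟩ := ww_one_nonneg hT hF H
    rw [e]; simpa using hr
  | succ d ih =>
    rw [ww_succ, show (((H : ℂ) ^ 2)⁻¹) = ((((H : ℝ) ^ 2)⁻¹ : ℝ) : ℂ) by push_cast; rfl,
      Complex.re_ofReal_mul, Complex.re_sum]
    refine mul_nonneg (by positivity) (Finset.sum_nonneg fun s _ => ?_)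
    rw [Complex.re_sum]
    exact Finset.sum_nonneg fun t _ => ih (hF.mD hT _)

end Chars

end

end Pool.Agent.BLL
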