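import Pool.Agent.BLL.Sys

/-!
# Systems with a group of characters on which the transformation acts unipotently
-/

set_option autoImplicit false
open Filter Topology MeasureTheory

namespace Pool.Agent.BLL

/-- A group `Ξ` of unimodular functions on `X`, permuted unipotently by `T`. -/
structure Chars {X : Type*} [MeasurableSpace X] (μ : Measure X) (T : X ≃ᵐ X) (Ξ : Type*)
    [AddCommGroup Ξ] where
  E : Ξ → X → ℂ
  meas : ∀ φ, Measurable (E φ)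
  norm : ∀ φ x, ‖E φ x‖ = 1
  add : ∀ φ ψ x, E (φ + ψ) x = E φ x * E ψ x
  u : (AddMonoid.End Ξ)ˣ
  E_T : ∀ φ x, E φ (T x) = E ((u : AddMonoid.End Ξ) φ) x
  nil : ∃ D : ℕ, ((u : AddMonoid.End Ξ) - 1) ^ D = 0
  tor : ∀ φ : Ξ, IsOfFinAddOrder φ → (u : AddMonoid.End Ξ) φ = φ
  atom : ∀ w : Ξ, ¬ IsOfFinAddOrder w → Tendsto (fun U : ℕ => ((U : ℝ) ^ 2)⁻¹ *
    (∑ i ∈ Finset.range U, ∑ j ∈ Finset.range U, ∫ x, E (i • w - j • w) x ∂μ).re) atTop (𝓝 0)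
  dense : ∀ (f : X → ℂ), BM f → ∀ R : Set Ξ,
    (∀ φ ∈ R, ∫ x, f x * (starRingEnd ℂ) (E φ x) ∂μ = 0) →
    ∀ ε > 0, ∃ g ∈ Submodule.span ℂ (E '' Rᶜ), ∫ x, ‖f x - g x‖ ∂μ < ε

end Pool.Agent.BLL
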