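import Pool.Agent.BLL.Sys

/-!
# Multilinear approximation

A closed linear condition on the correlation sequences `s ↦ ∫ ∏ k, f k (σ s k x)` which holds for
all generators `f k ∈ C k` holds for all bounded `f k` in the `L¹`-closure of the span of `C k`.
-/

set_option autoImplicit false
open Filter Topology MeasureTheory

namespace Pool.Agent.BLL

theorem density {X : Type*} [MeasurableSpace X] (μ : Measure X) [IsProbabilityMeasure μ]
    {G K : Type*} [Fintype K] (σ : G → K → X → X) (hσ : ∀ s k, MeasurePreserving (σ s k) μ μ)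
    (Z : (G → ℂ) → Prop) (hzero : Z (fun _ => 0))
    (hadd : ∀ a b, Z a → Z b → Z (fun s => a s + b s))
    (hmul : ∀ (c : ℂ) a, Z a → Z (fun s => c * a s))
    (hclos : ∀ a, (∀ ε > 0, ∃ b, Z b ∧ ∀ s, ‖a s - b s‖ ≤ ε) → Z a)
    (C : K → Set (X → ℂ)) (hC : ∀ k, ∀ g ∈ C k, BM g)
    (hbase : ∀ φ : K → X → ℂ, (∀ k, φ k ∈ C k) → Z (fun s => ∫ x, ∏ k, φ k (σ s k x) ∂μ))
    (f : K → X → ℂ) (hf : ∀ k, BM (f k))
    (happ : ∀ k, ∀ ε > 0, ∃ g ∈ Submodule.span ℂ (C k), ∫ x, ‖f k x - g x‖ ∂μ < ε) :
    Z (fun s => ∫ x, ∏ k, f k (σ s k x) ∂μ) := by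
  classical
  suffices H : ∀ S : Finset K, ∀ f : K → X → ℂ, (∀ k, k ∉ S → f k ∈ C k) →
      (∀ k ∈ S, BM (f k) ∧ ∀ ε > 0, ∃ g ∈ Submodule.span ℂ (C k), ∫ x, ‖f k x - g x‖ ∂μ < ε) →
      Z (fun s => ∫ x, ∏ k, f k (σ s k x) ∂μ) by
    exact H Finset.univ f (fun k hk => absurd (Finset.mem_univ k) hk)
      (fun k _ => ⟨hf k, happ k⟩)
  intro S
  induction S using Finset.induction_on with
  | empty =>
    intro f h1 _
    exact hbase f fun k => h1 k (Finset.notMem_empty k)
  | insert k0 S hk0 ih =>
    intro f h1 h2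
    have hBM : ∀ k, BM (f k) := by
      intro k
      by_cases hk : k ∈ insert k0 S
      · exact (h2 k hk).1
      · exact hC k _ (h1 k hk)
    -- the remaining factors
    let R : G → X → ℂ := fun s x => ∏ k ∈ Finset.univ.erase k0, f k (σ s k x)
    have hR : ∀ s, BM (R s) := fun s =>
      BM.prod _ fun k _ => (hBM k).comp (hσ s k).measurable
    obtain ⟨M, hM0, hM⟩ : ∃ M : ℝ, 0 ≤ M ∧ ∀ s x, ‖R s x‖ ≤ M := by
      choose B hB using fun k => (hBM k).2
      refine ⟨∏ k ∈ Finset.univ.erase k0, |B k|, Finset.prod_nonneg fun k _ => abs_nonneg _,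
        fun s x => ?_⟩
      change ‖∏ k ∈ Finset.univ.erase k0, f k (σ s k x)‖ ≤ _
      rw [norm_prod]
      exact Finset.prod_le_prod (fun k _ => norm_nonneg _)
        fun k _ => (hB k _).trans (le_abs_self _)
    have hprod : ∀ (g : X → ℂ) (s : G) (x : X),
        ∏ k, (Function.update f k0 g) k (σ s k x) = g (σ s k0 x) * R s x := by
      intro g s x
      rw [← Finset.mul_prod_erase Finset.univ _ (Finset.mem_univ k0), Function.update_self]
      congr 1
      refine Finset.prod_congr rfl fun k hk => ?_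
      rw [Function.update_of_ne (Finset.ne_of_mem_erase hk)]
    have hprod' : ∀ (s : G) (x : X),
        ∏ k, f k (σ s k x) = f k0 (σ s k0 x) * R s x := by
      intro s x
      rw [← Finset.mul_prod_erase Finset.univ _ (Finset.mem_univ k0)]
    have hint : ∀ (g : X → ℂ), BM g → ∀ s, Integrable (fun x => g (σ s k0 x) * R s x) μ :=
      fun g hg s => ((hg.comp (hσ s k0).measurable).mul (hR s)).integrable
    have hspan : ∀ g ∈ Submodule.span ℂ (C k0),
        BM g ∧ Z (fun s => ∫ x, g (σ s k0 x) * R s x ∂μ) := by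
      intro g hg
      induction hg using Submodule.span_induction with
      | mem g hg =>
        refine ⟨hC k0 g hg, ?_⟩
        have h3 := ih (Function.update f k0 g) ?_ ?_
        · simpa only [hprod] using h3
        · intro k hk
          by_cases hkk : k = k0
          · subst hkk; rw [Function.update_self]; exact hg
          · rw [Function.update_of_ne hkk]
            exact h1 k (by simp [hkk, hk])
        · intro k hk
          have hkk : k ≠ k0 := fun h => hk0 (h ▸ hk)
          rw [Function.update_of_ne hkk]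
          exact h2 k (Finset.mem_insert_of_mem hk)
      | zero =>
        refine ⟨BM.const 0, ?_⟩
        simpa using hzero
      | add a b _ _ ha hb =>
        refine ⟨ha.1.add hb.1, ?_⟩
        have h3 := hadd _ _ ha.2 hb.2
        have h4 : (fun s => ∫ x, (a + b) (σ s k0 x) * R s x ∂μ)
            = fun s => (∫ x, a (σ s k0 x) * R s x ∂μ) + ∫ x, b (σ s k0 x) * R s x ∂μ := by
          funext s
          rw [← integral_add (hint a ha.1 s) (hint b hb.1 s)]
          simp only [Pi.add_apply, add_mul]
        rw [h4]; exact h3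
      | smul c a _ ha =>
        refine ⟨(BM.const c).mul ha.1, ?_⟩
        have h3 := hmul c _ ha.2
        have h4 : (fun s => ∫ x, (c • a) (σ s k0 x) * R s x ∂μ)
            = fun s => c * ∫ x, a (σ s k0 x) * R s x ∂μ := by
          funext s
          rw [← integral_const_mul]
          simp only [Pi.smul_apply, smul_eq_mul, mul_assoc]
        rw [h4]; exact h3
    apply hclos
    intro ε hε
    obtain ⟨g, hg, hgε⟩ := (h2 k0 (Finset.mem_insert_self k0 S)).2 (ε / (M + 1)) (by positivity)
    obtain ⟨hgB, hgZ⟩ := hspan g hg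
    refine ⟨_, hgZ, fun s => ?_⟩
    have hd : BM (fun x => f k0 x - g x) := (hBM k0).sub hgB
    calc ‖(∫ x, ∏ k, f k (σ s k x) ∂μ) - ∫ x, g (σ s k0 x) * R s x ∂μ‖
        = ‖∫ x, (f k0 (σ s k0 x) - g (σ s k0 x)) * R s x ∂μ‖ := by
          simp only [hprod']
          rw [← integral_sub (hint _ (hBM k0) s) (hint g hgB s)]
          simp only [sub_mul]
      _ ≤ ∫ x, ‖f k0 (σ s k0 x) - g (σ s k0 x)‖ * M ∂μ := by
          refine norm_integral_le_of_norm_le ?_ (Eventually.of_forall fun x => ?_)
          · exact ((hd.comp (hσ s k0).measurable).integrable.norm).mul_const M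
          · rw [norm_mul]
            exact mul_le_mul_of_nonneg_left (hM s x) (norm_nonneg _)
      _ = (∫ x, ‖f k0 x - g x‖ ∂μ) * M := by
          rw [integral_mul_const]
          congr 1
          have h5 := (hσ s k0).map_eq
          conv_rhs => rw [← h5]
          rw [integral_map (hσ s k0).measurable.aemeasurable]
          exact (hd.1.norm).aestronglyMeasurable
      _ ≤ (ε / (M + 1)) * M := mul_le_mul_of_nonneg_right hgε.le hM0
      _ ≤ ε := by
          rw [div_mul_eq_mul_div, div_le_iff₀ (by positivity)]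
          nlinarith

end Pool.Agent.BLL
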