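import Pool.Agent.BLL.Avg

/-!
# Equidistribution of polynomial maps along invariant averages
-/

set_option autoImplicit false
open Filter Topology

namespace Pool.Agent.BLL

noncomputable section

variable {σ G V : Type*} [AddCommGroup G] [AddCommGroup V]

/-- `P` is constant modulo torsion -/
def CMT (P : G → V) : Prop := ∀ h h', IsOfFinAddOrder (P h - P h')

theorem isOfFin_sub {x y : V} (hx : IsOfFinAddOrder x) (hy : IsOfFinAddOrder y) :
    IsOfFinAddOrder (x - y) := by
  have : x - y ∈ AddCommGroup.torsion V := AddSubgroup.sub_mem _ hx hy
  exact this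

theorem isOfFin_add {x y : V} (hx : IsOfFinAddOrder x) (hy : IsOfFinAddOrder y) :
    IsOfFinAddOrder (x + y) := by
  have : x + y ∈ AddCommGroup.torsion V := AddSubgroup.add_mem _ hx hy
  exact this

theorem isOfFin_of_nsmul {x : V} {k : ℕ} (hk : k ≠ 0) (h : IsOfFinAddOrder (k • x)) :
    IsOfFinAddOrder x := by
  rw [isOfFinAddOrder_iff_nsmul_eq_zero] at h ⊢
  obtain ⟨n, hn, h⟩ := h
  refine ⟨n * k, Nat.mul_pos hn (Nat.pos_of_ne_zero hk), ?_⟩
  rw [mul_smul]; exact h

/-- purity -/
theorem CMT.of_nsmul {d : ℕ} {P : G → V} (hP : IsPoly d P) (v : G) {k : ℕ} (hk : k ≠ 0)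
    (h : CMT (fun x => P (x + k • v) - P x)) : CMT (fun x => P (x + v) - P x) := by
  set q : V →+ V ⧸ AddCommGroup.torsion V := QuotientAddGroup.mk' _ with hq
  have hq0 : ∀ x, q x = 0 ↔ IsOfFinAddOrder x := by
    intro x
    rw [hq, QuotientAddGroup.mk'_apply, QuotientAddGroup.eq_zero_iff]
    exact Iff.rfl
  have htf : ∀ w : V ⧸ AddCommGroup.torsion V, k • w = 0 → w = 0 := by
    intro w hw
    obtain ⟨x, rfl⟩ := QuotientAddGroup.mk'_surjective _ w
    rw [← map_nsmul] at hw
    exact (hq0 x).2 (isOfFin_of_nsmul hk ((hq0 _).1 hw))
  intro y z
  rw [← hq0]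
  -- the function R = dif (y - z) of (x ↦ q(P(x+v)) - q(P x))
  set F : G → V ⧸ AddCommGroup.torsion V := fun x => q (P x) with hF
  have hFp : IsPoly d F := hP.map q
  set R : G → V ⧸ AddCommGroup.torsion V := fun x => dif (y - z) (fun x => F (x + v) - F x) x with hR
  have hRp : IsPoly d R := by
    have h1 : IsPoly d (fun x => F (x + v) - F x) := (hFp.shift v).sub hFp
    exact (h1.shift (y - z)).sub h1
  have hsum : ∀ x, ∑ i ∈ Finset.range k, R (x + i • v) = 0 := by
    intro x
    have tel : ∀ x, ∑ i ∈ Finset.range k, (F (x + i • v + v) - F (x + i • v)) = F (x + k • v) - F x := by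
      intro x
      have := Finset.sum_range_sub (fun i => F (x + i • v)) k
      simp only [zero_smul, add_zero] at this
      rw [← this]
      refine Finset.sum_congr rfl fun i _ => ?_
      rw [add_smul, one_smul, add_assoc]
    have e1 : ∑ i ∈ Finset.range k, R (x + i • v)
        = (F (x + (y - z) + k • v) - F (x + (y - z))) - (F (x + k • v) - F x) := by
      rw [← tel, ← tel, ← Finset.sum_sub_distrib]
      refine Finset.sum_congr rfl fun i _ => ?_
      simp only [hR, dif]
      have c1 : x + i • v + (y - z) = x + (y - z) + i • v := by abel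
      rw [c1]
    rw [e1]
    have h3 := (hq0 _).2 (h (x + (y - z)) x)
    simp only [map_sub] at h3
    exact h3
  have h0 := hRp.eq_zero_of_sum htf v hsum z
  simp only [hR, dif, hF] at h0
  rw [show z + (y - z) = y by abel] at h0
  simp only [map_sub]
  exact h0

theorem IsPoly.difAt {d : ℕ} {P : G → V} (hP : IsPoly (d + 1) P) (v : G) :
    IsPoly d (fun h => P (h + v) - P h) := hP v

/-- A polynomial map killed by `E` is periodic. -/
theorem IsPoly.periodic {E : ℕ} {d : ℕ} {R : G → V} (hR : IsPoly d R) (hE : ∀ x, E • R x = 0)
    (v x : G) : R (x + E ^ d • v) = R x := by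
  induction d generalizing R x with
  | zero => rw [hR, hR x]
  | succ d ih =>
    set g : ℕ → V := fun i => R (x + i • v + v) - R (x + i • v) with hg
    have hper : ∀ i, g (i + E ^ d) = g i := by
      intro i
      have := ih (hR v) (fun y => by simp only [dif, smul_sub, hE, sub_zero]) (x + i • v)
      simp only [dif] at this
      simp only [hg, add_smul]
      rw [show x + (i • v + E ^ d • v) = x + i • v + E ^ d • v by abel]
      exact this
    have hsum : ∀ n, ∑ i ∈ Finset.range (n * E ^ d), g i = n • ∑ i ∈ Finset.range (E ^ d), g i := by
      intro n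
      induction n with
      | zero => simp
      | succ n ihn =>
        rw [add_mul, one_mul, Finset.sum_range_add, ihn, add_smul, one_smul]
        congr 1
        refine Finset.sum_congr rfl fun i _ => ?_
        clear ihn
        induction n with
        | zero => simp
        | succ n ihn => rw [← ihn, add_mul, one_mul, ← hper (n * E ^ d + i)]; congr 1; ring
    have tel : ∑ i ∈ Finset.range (E ^ (d + 1)), g i = R (x + E ^ (d + 1) • v) - R x := by
      have := Finset.sum_range_sub (fun i => R (x + i • v)) (E ^ (d + 1))
      simp only [zero_smul, add_zero] at this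
      rw [← this]
      refine Finset.sum_congr rfl fun i _ => ?_
      simp only [hg]
      rw [add_smul, one_smul, add_assoc]
    have h0 : ∑ i ∈ Finset.range (E ^ (d + 1)), g i = 0 := by
      rw [pow_succ, mul_comm, hsum, Finset.smul_sum]
      refine Finset.sum_eq_zero fun i _ => ?_
      simp only [hg, smul_sub, hE, sub_zero]
    rw [h0] at tel
    exact (sub_eq_zero.1 tel.symm)

/-- On a finitely generated group a torsion-valued polynomial map has finite exponent. -/
theorem IsPoly.exponent {gens : Finset G} (hgens : AddSubgroup.closure (gens : Set G) = ⊤)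
    {d : ℕ} {R : G → V} (hR : IsPoly d R) (hT : ∀ x, IsOfFinAddOrder (R x)) :
    ∃ E : ℕ, E ≠ 0 ∧ ∀ x, E • R x = 0 := by
  induction d generalizing R with
  | zero =>
    refine ⟨addOrderOf (R 0), (hT 0).addOrderOf_pos.ne', fun x => ?_⟩
    rw [hR x, addOrderOf_nsmul_eq_zero]
  | succ d ih =>
    have h1 : ∀ g : G, ∃ E : ℕ, E ≠ 0 ∧ ∀ x, E • dif g R x = 0 := fun g =>
      ih (hR g) (fun x => isOfFin_sub (hT _) (hT _))
    choose e he0 he using h1
    refine ⟨addOrderOf (R 0) * ∏ g ∈ gens, e g, mul_ne_zero (hT 0).addOrderOf_pos.ne'
      (Finset.prod_ne_zero_iff.2 fun g _ => he0 g), ?_⟩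
    set E := addOrderOf (R 0) * ∏ g ∈ gens, e g with hE
    have hper : ∀ g ∈ gens, ∀ x, E • R (x + g) = E • R x := by
      intro g hg x
      have : E • dif g R x = 0 := by
        obtain ⟨c, hc⟩ := Finset.dvd_prod_of_mem e hg
        rw [hE, hc, show addOrderOf (R 0) * (e g * c) = (addOrderOf (R 0) * c) * e g by ring,
          mul_smul, he, smul_zero]
      simp only [dif, smul_sub] at this
      exact sub_eq_zero.1 this
    have hall : ∀ y x, E • R (x + y) = E • R x := by
      intro y
      have hy : y ∈ AddSubgroup.closure (gens : Set G) := by rw [hgens]; trivial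
      induction hy using AddSubgroup.closure_induction with
      | mem g hg => exact hper g hg
      | zero => intro x; rw [add_zero]
      | add a b _ _ ha hb => intro x; rw [← add_assoc, hb, ha]
      | neg a _ ha => intro x; rw [← ha (x + -a)]; congr 2; abel
    intro x
    have := hall x 0
    rw [zero_add] at this
    rw [this, hE, mul_comm, mul_smul, addOrderOf_nsmul_eq_zero, smul_zero]

/-- **Equidistribution**: a polynomial map which is not constant modulo torsion has zero mean. -/
theorem tendsto_avg_zero {S : ℕ → Finset σ} {π : σ → G} (hS : InvSeq S π) {I : V → ℂ}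
    (hI : PD I) {gens : Finset G} (hgens : AddSubgroup.closure (gens : Set G) = ⊤) :
    ∀ (d : ℕ) (P : G → V), IsPoly d P → ¬ CMT P →
      Tendsto (fun H => avg (S H) π (fun h => I (P h))) atTop (𝓝 0) := by
  intro d
  induction d with
  | zero =>
    intro P hP hn
    exact absurd (fun h h' => by rw [hP h, hP h', sub_self]; exact IsOfFinAddOrder.zero) hn
  | succ d ih =>
    intro P hP hn
    -- it suffices to bound the upper limit of the squared norm
    have key : (∀ ε > 0, ∀ᶠ H in atTop, ‖avg (S H) π (fun h => I (P h))‖ ^ 2 ≤ ε) →
        Tendsto (fun H => avg (S H) π (fun h => I (P h))) atTop (𝓝 0) := by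
      intro h
      rw [Metric.tendsto_nhds]
      intro ε hε
      filter_upwards [h ((ε / 2) ^ 2) (by positivity)] with H hH
      rw [dist_zero_right]
      have := abs_le_of_sq_le_sq hH (by positivity : (0 : ℝ) ≤ ε / 2)
      have h2 : ‖avg (S H) π (fun h => I (P h))‖ ≤ ε / 2 := (le_abs_self _).trans this
      linarith
    by_cases hA : ∃ v, ¬ CMT (fun h => P (h + v) - P h)
    · obtain ⟨v, hv⟩ := hA
      -- off-diagonal terms tend to zero
      have hoff : ∀ i j : ℕ, i ≠ j → Tendsto (fun H => avg (S H) π
          (fun h => I (P (h + i • v) - P (h + j • v)))) atTop (𝓝 0) := by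
        intro i j hij
        refine ih (fun h => P (h + i • v) - P (h + j • v)) ?_ ?_
        · have h1 : IsPoly d (fun h => P (h + (i • v - j • v)) - P h) := hP (i • v - j • v)
          have h2 := h1.shift (j • v)
          convert h2 using 4
          abel
        · intro hc
          apply hv
          rcases Nat.lt_or_gt_of_ne hij with hlt | hlt
          · obtain ⟨k, rfl⟩ := Nat.exists_eq_add_of_lt hlt
            refine CMT.of_nsmul hP v (Nat.succ_ne_zero k) (fun x y => ?_)
            have := hc (x - i • v) (y - i • v)
            have e1 : ∀ x : G, x - i • v + (i + k + 1) • v = x + (k + 1) • v := by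
              intro x; rw [add_assoc i k 1, add_smul i (k+1)]; abel
            simp only [sub_add_cancel, e1] at this
            have h3 := this.neg
            rw [neg_sub, sub_sub_sub_comm, ← sub_sub_sub_comm] at h3
            have e2 : ∀ a b c d : V, (c - d) - (a - b) = (b - a) - (d - c) := by
              intro a b c d; abel
            rw [e2] at h3
            exact h3
          · obtain ⟨k, rfl⟩ := Nat.exists_eq_add_of_lt hlt
            refine CMT.of_nsmul hP v (Nat.succ_ne_zero k) (fun x y => ?_)
            have := hc (x - j • v) (y - j • v)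
            have e1 : ∀ x : G, x - j • v + (j + k + 1) • v = x + (k + 1) • v := by
              intro x; rw [add_assoc j k 1, add_smul j (k+1)]; abel
            simp only [sub_add_cancel, e1] at this
            exact this
      refine key fun ε hε => ?_
      obtain ⟨U, hU⟩ := exists_nat_gt (3 / ε)
      have hU0 : (0 : ℝ) < U := lt_trans (by positivity) hU
      have hU1 : U ≠ 0 := by rintro rfl; simp at hU0
      have hv1 := vdc hS hI P v hU1 (ε := ε / 3) (by positivity)
      have hlim : Tendsto (fun H => ((U : ℝ) ^ 2)⁻¹ * (∑ i ∈ Finset.range U,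
          ∑ j ∈ Finset.range U, (avg (S H) π (fun h => I (P (h + i • v) - P (h + j • v)))).re))
          atTop (𝓝 (((U : ℝ) ^ 2)⁻¹ * (∑ i ∈ Finset.range U, ∑ j ∈ Finset.range U,
            (if i = j then (1 : ℂ) else 0).re))) := by
        refine Tendsto.const_mul _ (tendsto_finsetSum _ fun i _ => tendsto_finsetSum _ fun j _ => ?_)
        refine (Complex.continuous_re.tendsto _).comp ?_
        split_ifs with hij
        · subst hij
          refine tendsto_const_nhds.congr' ?_
          filter_upwards [hS.ne] with H hH
          simp only [sub_self, hI.one]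
          exact (avg_const hH π 1).symm
        · exact hoff i j hij
      have hval : ((U : ℝ) ^ 2)⁻¹ * (∑ i ∈ Finset.range U, ∑ j ∈ Finset.range U,
            (if i = j then (1 : ℂ) else 0).re) = (U : ℝ)⁻¹ := by
        have : ∀ i ∈ Finset.range U, ∑ j ∈ Finset.range U, (if i = j then (1 : ℂ) else 0).re = 1 := by
          intro i hi
          rw [Finset.sum_eq_single i]
          · simp
          · intro j _ hj; simp [hj.symm]
          · intro h; exact absurd hi h
        rw [Finset.sum_congr rfl this, Finset.sum_const, Finset.card_range]
        simp only [nsmul_eq_mul, mul_one]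
        field_simp
      rw [hval] at hlim
      have h4 := hlim.eventually (gt_mem_nhds (show (U : ℝ)⁻¹ < ε / 3 by
        rw [inv_lt_comm₀ hU0 (by positivity)]
        rw [show (ε / 3)⁻¹ = 3 / ε by rw [inv_div]]; exact hU))
      filter_upwards [hv1, h4] with H h5 h6
      linarith
    · push Not at hA
      -- there is a direction with a non-torsion increment
      have hn' : ∃ h h', ¬ IsOfFinAddOrder (P h - P h') := by
        unfold CMT at hn; push Not at hn; exact hn
      obtain ⟨y, z, hyz⟩ := hn'
      set v := y - z with hvdef
      set w := P y - P z with hw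
      set R : G → V := fun x => (P (x + v) - P x) - w with hR
      have hRp : IsPoly d R := (hP v).sub (isPoly_const d w)
      have hRT : ∀ x, IsOfFinAddOrder (R x) := by
        intro x
        have := hA v x z
        simp only [hvdef, add_sub_cancel] at this
        exact this
      obtain ⟨E, hE0, hE⟩ := hRp.exponent hgens hRT
      have hper := fun x => hRp.periodic hE v x
      set M := E * E ^ d with hM
      have hM0 : M ≠ 0 := mul_ne_zero hE0 (pow_ne_zero _ hE0)
      have hstep : ∀ x, P (x + M • v) - P x = M • w := by
        intro x
        have tel : ∀ n : ℕ, P (x + n • v) - P x = ∑ i ∈ Finset.range n, (R (x + i • v) + w) := by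
          intro n
          have := Finset.sum_range_sub (fun i => P (x + i • v)) n
          simp only [zero_smul, add_zero] at this
          rw [← this]
          refine Finset.sum_congr rfl fun i _ => ?_
          simp only [hR]
          rw [sub_add_cancel, add_smul, one_smul, add_assoc]
        rw [tel M, Finset.sum_add_distrib, Finset.sum_const, Finset.card_range]
        have hsum : ∀ n, ∑ i ∈ Finset.range (n * E ^ d), R (x + i • v)
            = n • ∑ i ∈ Finset.range (E ^ d), R (x + i • v) := by
          intro n
          induction n with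
          | zero => simp
          | succ n ihn =>
            rw [add_mul, one_mul, Finset.sum_range_add, ihn, add_smul, one_smul]
            congr 1
            refine Finset.sum_congr rfl fun i _ => ?_
            clear ihn
            induction n with
            | zero => simp
            | succ n ihn =>
              rw [← ihn, ← hper (x + (n * E ^ d + i) • v)]
              congr 1
              rw [add_assoc, ← add_smul]
              congr 2
              ring
        rw [hM, hsum, Finset.smul_sum, Finset.sum_eq_zero (fun i _ => hE _), zero_add]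
      have hw' : ¬ IsOfFinAddOrder (M • w) := fun h => hyz (isOfFin_of_nsmul hM0 h)
      have hmul : ∀ (i : ℕ) x, P (x + i • (M • v)) = P x + i • (M • w) := by
        intro i x
        induction i with
        | zero => simp
        | succ i ihi =>
          rw [add_smul, one_smul, ← add_assoc, add_smul, one_smul, ← add_assoc, ← ihi,
            ← hstep (x + i • M • v)]
          abel
      refine key fun ε hε => ?_
      have hat := (hI.atom (M • w) hw').eventually (gt_mem_nhds (show (0 : ℝ) < ε / 3 by positivity))
      obtain ⟨U, hU, hU1⟩ := (hat.and (eventually_ge_atTop 1)).exists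
      have hv1 := vdc hS hI P (M • v) (show U ≠ 0 by omega) (ε := ε / 3) (by positivity)
      filter_upwards [hv1, hS.ne] with H h5 h6
      have e1 : ∀ i j : ℕ, avg (S H) π (fun h => I (P (h + i • (M • v)) - P (h + j • (M • v))))
          = I (i • (M • w) - j • (M • w)) := by
        intro i j
        have : (fun h => I (P (h + i • (M • v)) - P (h + j • (M • v))))
            = fun _ => I (i • (M • w) - j • (M • w)) := by
          funext h
          rw [hmul, hmul]
          congr 1
          abel
        rw [this, avg_const h6]
      simp only [e1] at h5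
      rw [Complex.re_sum] at hU
      simp only [Complex.re_sum] at hU
      linarith

end

end Pool.Agent.BLL
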