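import Pool.Agent.BLL.NDefs

/-!
# Measure estimate for the box average
-/

set_option autoImplicit false

open MeasureTheory Filter Topology

namespace Pool.Agent.BLL

namespace Box

theorem sgn_eq (ω : Fin 4 → Bool) : sgn ω = ∏ j, if ω j = true then (-1 : ℤ) else 1 := by
  simp [sgn, Finset.prod_ite]

/-- The equivalence `Bool^4 ≃ (Fin 4 → Bool)`. -/
def e4 : Bool × Bool × Bool × Bool ≃ (Fin 4 → Bool) where
  toFun p := ![p.1, p.2.1, p.2.2.1, p.2.2.2]
  invFun ω := (ω 0, ω 1, ω 2, ω 3)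
  left_inv p := rfl
  right_inv ω := by
    funext j
    fin_cases j <;> rfl

theorem sum16 (G : (Fin 4 → Bool) → ℝ) :
    ∑ ω, G ω = ∑ a : Bool, ∑ b : Bool, ∑ c : Bool, ∑ d : Bool, G ![a, b, c, d] := by
  rw [← Equiv.sum_comp e4, Fintype.sum_prod_type]
  refine Finset.sum_congr rfl fun a _ => ?_
  rw [Fintype.sum_prod_type]
  refine Finset.sum_congr rfl fun b _ => ?_
  rw [Fintype.sum_prod_type]
  rfl

theorem alt_low (h : Fin 4 → ℕ) (a b c : ℝ) :
    ∑ ω : Fin 4 → Bool, (sgn ω : ℝ) * (a * (dot ω h : ℝ) ^ 3 + b * (dot ω h : ℝ) ^ 2 +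
      c * (dot ω h : ℝ)) = 0 := by
  rw [sum16]
  simp only [Fintype.sum_bool, sgn_eq, dot, Fin.prod_univ_four, Fin.sum_univ_four]
  simp
  ring

theorem alt_four (h : Fin 4 → ℕ) :
    ∑ ω : Fin 4 → Bool, (sgn ω : ℝ) * (dot ω h : ℝ) ^ 4 =
      24 * ((h 0 : ℝ) * h 1 * h 2 * h 3) := by
  rw [sum16]
  simp only [Fintype.sum_bool, sgn_eq, dot, Fin.prod_univ_four, Fin.sum_univ_four]
  simp
  ring

theorem mact_one {V : Type*} [AddCommGroup V] (k : ℤ) (c : Fin 4 → V) :
    mact (M k) c 1 = k • c 0 + c 1 := by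
  simp [mact, M, Fin.sum_univ_four, Nat.choose]

theorem mact_two {V : Type*} [AddCommGroup V] (k : ℤ) (c : Fin 4 → V) :
    mact (M k) c 2 = (k ^ 2) • c 0 + (2 * k) • c 1 + c 2 := by
  simp [mact, M, Fin.sum_univ_four, Nat.choose]

theorem mact_three {V : Type*} [AddCommGroup V] (k : ℤ) (c : Fin 4 → V) :
    mact (M k) c 3 = (k ^ 3) • c 0 + (3 * k ^ 2) • c 1 + (3 * k) • c 2 + c 3 := by
  simp [mact, M, Fin.sum_univ_four, Nat.choose]

theorem abs_lift_le (x : Tor) : |lift x| ≤ 1 / 2 := by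
  have := lift_mem x
  rw [Set.mem_Ico] at this
  rw [abs_le]
  constructor <;> linarith [this.1, this.2]

theorem dot_nonneg (ω : Fin 4 → Bool) (h : Fin 4 → ℕ) : 0 ≤ dot ω h := by
  unfold dot
  exact Finset.sum_nonneg fun j _ => by split_ifs <;> positivity

theorem dot_le (ω : Fin 4 → Bool) (h : Fin 4 → ℕ) (H : ℕ) (hh : ∀ i, h i < H) :
    dot ω h ≤ 4 * H := by
  unfold dot
  calc (∑ j, if ω j = true then (h j : ℤ) else 0) ≤ ∑ _j : Fin 4, (H : ℤ) := by
        refine Finset.sum_le_sum fun j _ => ?_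
        split_ifs
        · exact_mod_cast (hh j).le
        · positivity
    _ = 4 * H := by simp

theorem J1_eq (k : ℤ) (d : Fin 4 → Tor) :
    (J k d 1 : ℝ) = k * lift (d 0) + lift (d 1) - lift (mact (M k) d 1) := by
  rw [J_eq, mact_one]
  simp

theorem J2_eq (k : ℤ) (d : Fin 4 → Tor) :
    (J k d 2 : ℝ) = k ^ 2 * lift (d 0) + 2 * k * lift (d 1) + lift (d 2) -
      lift (mact (M k) d 2) := by
  rw [J_eq, mact_two]
  simp

theorem J3_eq (k : ℤ) (d : Fin 4 → Tor) :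
    (J k d 3 : ℝ) = k ^ 3 * lift (d 0) + 3 * k ^ 2 * lift (d 1) + 3 * k * lift (d 2) +
      lift (d 3) - lift (mact (M k) d 3) := by
  rw [J_eq, mact_three]
  simp

theorem J1_mono (k : ℤ) (hk : 0 ≤ k) (d d' : Fin 4 → Tor) (h1 : d 1 = d' 1)
    (h0 : lift (d 0) ≤ lift (d' 0)) : J k d 1 ≤ J k d' 1 := by
  by_contra hc
  push Not at hc
  have h2 : (J k d' 1 : ℝ) + 1 ≤ J k d 1 := by exact_mod_cast hc
  rw [J1_eq, J1_eq, ← h1] at h2
  have hk' : (0 : ℝ) ≤ k := by exact_mod_cast hk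
  have h3 := mul_le_mul_of_nonneg_left h0 hk'
  have a1 := lift_mem (mact (M k) d 1)
  have a2 := lift_mem (mact (M k) d' 1)
  rw [Set.mem_Ico] at a1 a2
  linarith [a1.1, a1.2, a2.1, a2.2]

theorem J1_abs (k : ℤ) (hk : 0 ≤ k) (H : ℕ) (hkH : k ≤ 4 * H) (d : Fin 4 → Tor) :
    |J k d 1| ≤ 2 * (H : ℤ) + 1 := by
  have h1 := abs_le.1 (abs_lift_le (d 0))
  have h2 := abs_le.1 (abs_lift_le (d 1))
  have h3 := abs_le.1 (abs_lift_le (mact (M k) d 1))
  have hk' : (0 : ℝ) ≤ k := by exact_mod_cast hk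
  have hkH' : (k : ℝ) ≤ 4 * H := by exact_mod_cast hkH
  have e := J1_eq k d
  have u1 : (J k d 1 : ℝ) ≤ 2 * H + 1 := by
    rw [e]; nlinarith [h1.1, h1.2, h2.1, h2.2, h3.1, h3.2]
  have u2 : -(2 * (H : ℝ) + 1) ≤ J k d 1 := by
    rw [e]; nlinarith [h1.1, h1.2, h2.1, h2.2, h3.1, h3.2]
  rw [abs_le]
  constructor
  · exact_mod_cast u2
  · exact_mod_cast u1

theorem key (h : Fin 4 → ℕ) (H : ℕ) (hH : 1 ≤ H) (hh : ∀ i, h i < H) (d : Fin 4 → Tor)
    (hd : W0 h d = 0) :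
    |24 * ((h 0 : ℝ) * h 1 * h 2 * h 3) * lift (d 0) -
      ∑ ω : Fin 4 → Bool, (sgn ω : ℝ) * ((dot ω h : ℝ) ^ 3 * J (dot ω h) d 1)| ≤
      288 * (H : ℝ) ^ 2 := by
  have h1 : (W0 h d : ℝ) = 0 := by exact_mod_cast hd
  unfold W0 at h1
  push_cast at h1
  have e : 24 * ((h 0 : ℝ) * h 1 * h 2 * h 3) * lift (d 0) -
      ∑ ω : Fin 4 → Bool, (sgn ω : ℝ) * ((dot ω h : ℝ) ^ 3 * J (dot ω h) d 1) =
      ∑ ω : Fin 4 → Bool, (sgn ω : ℝ) * (2 * (dot ω h : ℝ) ^ 2 *
        lift (mact (M (dot ω h)) d 2) - (dot ω h : ℝ) * lift (mact (M (dot ω h)) d 3)) := by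
    have a1 := alt_four h
    have a2 := alt_low h (lift (d 1)) (-lift (d 2)) (-lift (d 3))
    have e1 : ∑ ω : Fin 4 → Bool, (sgn ω : ℝ) * ((dot ω h : ℝ) ^ 3 * J (dot ω h) d 1) =
        ∑ ω : Fin 4 → Bool, (sgn ω : ℝ) * (2 * (dot ω h : ℝ) ^ 2 * J (dot ω h) d 2 -
          (dot ω h : ℝ) * J (dot ω h) d 3) := by
      rw [← sub_eq_zero, ← Finset.sum_sub_distrib, ← h1]
      refine Finset.sum_congr rfl fun ω _ => ?_
      ring
    rw [e1, ← a1, Finset.sum_mul, ← Finset.sum_sub_distrib, ← sub_eq_zero,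
      ← Finset.sum_sub_distrib, ← neg_eq_zero, ← a2, ← Finset.sum_neg_distrib]
    refine Finset.sum_congr rfl fun ω _ => ?_
    rw [J2_eq, J3_eq]
    ring
  rw [e]
  have hHr : (1 : ℝ) ≤ H := by exact_mod_cast hH
  calc |∑ ω : Fin 4 → Bool, (sgn ω : ℝ) * (2 * (dot ω h : ℝ) ^ 2 *
        lift (mact (M (dot ω h)) d 2) - (dot ω h : ℝ) * lift (mact (M (dot ω h)) d 3))| ≤
      ∑ ω : Fin 4 → Bool, |(sgn ω : ℝ) * (2 * (dot ω h : ℝ) ^ 2 *
        lift (mact (M (dot ω h)) d 2) - (dot ω h : ℝ) * lift (mact (M (dot ω h)) d 3))| :=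
        Finset.abs_sum_le_sum_abs _ _
    _ ≤ ∑ _ω : Fin 4 → Bool, 18 * (H : ℝ) ^ 2 := by
        refine Finset.sum_le_sum fun ω _ => ?_
        rw [abs_mul]
        have hs : |(sgn ω : ℝ)| = 1 := by
          simp [sgn]
        rw [hs, one_mul]
        have k0 : (0 : ℝ) ≤ dot ω h := by exact_mod_cast dot_nonneg ω h
        have k1 : (dot ω h : ℝ) ≤ 4 * H := by exact_mod_cast dot_le ω h H hh
        have l2 := abs_le.1 (abs_lift_le (mact (M (dot ω h)) d 2))
        have l3 := abs_le.1 (abs_lift_le (mact (M (dot ω h)) d 3))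
        set k : ℝ := (dot ω h : ℝ) with hk
        set r2 := lift (mact (M (dot ω h)) d 2)
        set r3 := lift (mact (M (dot ω h)) d 3)
        have k2 : k ^ 2 ≤ 16 * (H : ℝ) ^ 2 := by nlinarith
        have b2 : |2 * k ^ 2 * r2| ≤ k ^ 2 := by
          rw [abs_le]; constructor <;> nlinarith [sq_nonneg k, l2.1, l2.2]
        have b3 : |k * r3| ≤ k / 2 := by
          rw [abs_le]; constructor <;> nlinarith [l3.1, l3.2]
        calc |2 * k ^ 2 * r2 - k * r3| ≤ |2 * k ^ 2 * r2| + |k * r3| := abs_sub _ _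
          _ ≤ k ^ 2 + k / 2 := add_le_add b2 b3
          _ ≤ 18 * (H : ℝ) ^ 2 := by nlinarith
    _ = 288 * (H : ℝ) ^ 2 := by
        simp
        ring

theorem norm_sub_le (x y : Tor) : ‖x - y‖ ≤ |lift x - lift y| := by
  have h : ((lift x - lift y : ℝ) : Tor) = x - y := by
    rw [AddCircle.coe_sub, coe_lift, coe_lift]
  rw [← h, UnitAddCircle.norm_eq]
  have := round_le (lift x - lift y) 0
  simpa using this

theorem vol_of_diam (T : Set Tor) (L : ℝ) (hT : ∀ x ∈ T, ∀ y ∈ T, |lift x - lift y| ≤ L) :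
    volume T ≤ ENNReal.ofReal (2 * L) := by
  rcases T.eq_empty_or_nonempty with h | ⟨x0, hx0⟩
  · simp [h]
  · have h1 : T ⊆ Metric.closedBall x0 L := by
      intro x hx
      rw [Metric.mem_closedBall, dist_eq_norm]
      exact (norm_sub_le x x0).trans (hT x hx x0 hx0)
    calc volume T ≤ volume (Metric.closedBall x0 L) := measure_mono h1
      _ = ENNReal.ofReal (min 1 (2 * L)) := AddCircle.volume_closedBall (1 : ℝ) L
      _ ≤ ENNReal.ofReal (2 * L) := ENNReal.ofReal_le_ofReal (min_le_right _ _)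

theorem slice (h : Fin 4 → ℕ) (H : ℕ) (hH : 1 ≤ H) (hh : ∀ i, h i < H) (h0 : ∀ i, 0 < h i)
    (y : Fin 3 → Tor) :
    volume {x : Tor | W0 h (Fin.cons x y) = 0} ≤
      ENNReal.ofReal (4656 * (H : ℝ) ^ 3 / ((h 0 : ℝ) * h 1 * h 2 * h 3)) := by
  set P : ℝ := (h 0 : ℝ) * h 1 * h 2 * h 3 with hP
  have hP0 : 0 < P := by
    have := h0 0
    have := h0 1
    have := h0 2
    have := h0 3
    positivity
  have hHr : (1 : ℝ) ≤ H := by exact_mod_cast hH
  set N : ℤ := 16 * (2 * (H : ℤ) + 1) with hN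
  set S : Tor → ℤ := fun x => ∑ ω : Fin 4 → Bool, J (dot ω h) (Fin.cons x y) 1 with hS
  have hSb : ∀ x, S x ∈ Finset.Icc (-N) N := by
    intro x
    rw [Finset.mem_Icc, ← abs_le]
    calc |S x| ≤ ∑ ω : Fin 4 → Bool, |J (dot ω h) (Fin.cons x y) 1| :=
          Finset.abs_sum_le_sum_abs _ _
      _ ≤ ∑ _ω : Fin 4 → Bool, (2 * (H : ℤ) + 1) :=
          Finset.sum_le_sum fun ω _ => J1_abs _ (dot_nonneg ω h) H (dot_le ω h H hh) _
      _ = N := by simp [hN]
  have hcov : {x : Tor | W0 h (Fin.cons x y) = 0} ⊆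
      ⋃ s ∈ Finset.Icc (-N) N, {x : Tor | W0 h (Fin.cons x y) = 0 ∧ S x = s} := by
    intro x hx
    rw [Set.mem_iUnion₂]
    exact ⟨S x, hSb x, hx, rfl⟩
  have hmono : ∀ s : ℤ, ∀ x ∈ {x : Tor | W0 h (Fin.cons x y) = 0 ∧ S x = s},
      ∀ x' ∈ {x : Tor | W0 h (Fin.cons x y) = 0 ∧ S x = s}, lift x ≤ lift x' →
      |lift x - lift x'| ≤ 24 * (H : ℝ) ^ 2 / P := by
    intro s x hx x' hx' hle
    have hJ : ∀ ω : Fin 4 → Bool, J (dot ω h) (Fin.cons x y) 1 = J (dot ω h) (Fin.cons x' y) 1 := by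
      have h1 : ∀ ω ∈ (Finset.univ : Finset (Fin 4 → Bool)),
          J (dot ω h) (Fin.cons x y) 1 ≤ J (dot ω h) (Fin.cons x' y) 1 := by
        intro ω _
        exact J1_mono _ (dot_nonneg ω h) _ _ rfl hle
      have h2 := (Finset.sum_eq_sum_iff_of_le h1).1 (hx.2.trans hx'.2.symm)
      exact fun ω => h2 ω (Finset.mem_univ ω)
    have k1 := key h H hH hh (Fin.cons x y) hx.1
    have k2 := key h H hH hh (Fin.cons x' y) hx'.1
    simp only [hJ, Fin.cons_zero] at k1 k2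
    rw [← hP] at k1 k2
    set Z := ∑ ω : Fin 4 → Bool, (sgn ω : ℝ) * ((dot ω h : ℝ) ^ 3 *
      J (dot ω h) (Fin.cons x' y) 1)
    rw [abs_le] at k1 k2
    rw [le_div_iff₀ hP0]
    have e0 : |lift x - lift x'| * P = |(lift x - lift x') * P| := by
      rw [abs_mul, abs_of_pos hP0]
    rw [e0, abs_le]
    constructor <;> nlinarith [k1.1, k1.2, k2.1, k2.2]
  have hdiam : ∀ s : ℤ, volume {x : Tor | W0 h (Fin.cons x y) = 0 ∧ S x = s} ≤
      ENNReal.ofReal (2 * (24 * (H : ℝ) ^ 2 / P)) := by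
    intro s
    apply vol_of_diam
    intro x hx x' hx'
    rcases le_total (lift x) (lift x') with hl | hl
    · exact hmono s x hx x' hx' hl
    · rw [abs_sub_comm]
      exact hmono s x' hx' x hx hl
  calc volume {x : Tor | W0 h (Fin.cons x y) = 0}
      ≤ volume (⋃ s ∈ Finset.Icc (-N) N, {x : Tor | W0 h (Fin.cons x y) = 0 ∧ S x = s}) :=
        measure_mono hcov
    _ ≤ ∑ s ∈ Finset.Icc (-N) N, volume {x : Tor | W0 h (Fin.cons x y) = 0 ∧ S x = s} :=
        measure_biUnion_finset_le _ _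
    _ ≤ ∑ _s ∈ Finset.Icc (-N) N, ENNReal.ofReal (2 * (24 * (H : ℝ) ^ 2 / P)) :=
        Finset.sum_le_sum fun s _ => hdiam s
    _ = ((2 * N + 1).toNat : ENNReal) * ENNReal.ofReal (2 * (24 * (H : ℝ) ^ 2 / P)) := by
        rw [Finset.sum_const, Int.card_Icc, nsmul_eq_mul]
        congr 2
        congr 1
        ring
    _ = ENNReal.ofReal (((2 * N + 1).toNat : ℝ) * (2 * (24 * (H : ℝ) ^ 2 / P))) := by
        rw [ENNReal.ofReal_mul (p := ((2 * N + 1).toNat : ℝ)) (Nat.cast_nonneg _),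
          ENNReal.ofReal_natCast]
    _ ≤ ENNReal.ofReal (4656 * (H : ℝ) ^ 3 / P) := by
        apply ENNReal.ofReal_le_ofReal
        have e : ((2 * N + 1).toNat : ℝ) = 64 * H + 33 := by
          have h1 : ((2 * N + 1).toNat : ℤ) = 64 * H + 33 := by
            rw [Int.toNat_of_nonneg (by rw [hN]; positivity), hN]
            ring
          exact_mod_cast h1
        rw [e]
        have e2 : (64 * (H : ℝ) + 33) * (2 * (24 * (H : ℝ) ^ 2 / P)) =
            ((64 * (H : ℝ) + 33) * 48 * (H : ℝ) ^ 2) / P := by ring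
        rw [e2]
        apply div_le_div_of_nonneg_right _ hP0.le
        nlinarith [sq_nonneg (H : ℝ)]

theorem measurable_J (k : ℤ) (b : Fin 4) : Measurable (fun d : Fin 4 → Tor => J k d b) := by
  unfold J
  apply Int.measurable_floor.comp
  apply Measurable.add_const
  apply Measurable.sub
  · unfold mact
    refine Finset.measurable_sum _ fun j _ => ?_
    have : Measurable (fun d : Fin 4 → Tor => lift (d j)) :=
      measurable_lift.comp (measurable_pi_apply j)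
    simpa using this.const_mul _
  · apply measurable_lift.comp
    unfold mact
    refine Continuous.measurable ?_
    fun_prop

theorem measurable_W0 (h : Fin 4 → ℕ) : Measurable (fun d : Fin 4 → Tor => W0 h d) := by
  unfold W0
  refine Finset.measurable_sum _ fun ω _ => ?_
  have h1 := measurable_J (dot ω h) 1
  have h2 := measurable_J (dot ω h) 2
  have h3 := measurable_J (dot ω h) 3
  exact (((h1.const_mul _).sub (h2.const_mul _)).add (h3.const_mul _)).const_mul _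

theorem measurableSet_W0 (h : Fin 4 → ℕ) : MeasurableSet {d : Fin 4 → Tor | W0 h d = 0} :=
  measurable_W0 h (measurableSet_singleton 0)

theorem vol_le (h : Fin 4 → ℕ) (H : ℕ) (hH : 1 ≤ H) (hh : ∀ i, h i < H) (h0 : ∀ i, 0 < h i) :
    volume {d : Fin 4 → Tor | W0 h d = 0} ≤
      ENNReal.ofReal (4656 * (H : ℝ) ^ 3 / ((h 0 : ℝ) * h 1 * h 2 * h 3)) := by
  have hm := MeasureTheory.volume_preserving_piFinSuccAbove (fun _ : Fin 4 => Tor) 0
  have hs := measurableSet_W0 h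
  set e := MeasurableEquiv.piFinSuccAbove (fun _ : Fin 4 => Tor) 0
  have h1 : volume {d : Fin 4 → Tor | W0 h d = 0} =
      volume (e.symm ⁻¹' {d : Fin 4 → Tor | W0 h d = 0}) := by
    rw [← hm.symm.measure_preimage_equiv]
  rw [h1]
  rw [Measure.volume_eq_prod, Measure.prod_apply_symm (e.symm.measurable hs)]
  calc ∫⁻ y, volume ((fun x => (x, y)) ⁻¹' (e.symm ⁻¹' {d : Fin 4 → Tor | W0 h d = 0}))
      ≤ ∫⁻ _y : (Fin 3 → Tor), ENNReal.ofReal (4656 * (H : ℝ) ^ 3 / ((h 0 : ℝ) * h 1 * h 2 * h 3)) := by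
        refine lintegral_mono fun y => ?_
        refine le_trans (le_of_eq ?_) (slice h H hH hh h0 y)
        congr 1
    _ = _ := by
        have hv : (volume : Measure (Fin 3 → Tor)) Set.univ = 1 := by
          rw [volume_pi, Measure.pi_univ]
          simp
        rw [lintegral_const, hv, mul_one]

/-- uniform bound of the measure in terms of a product -/
theorem vol_le' (h : Fin 4 → ℕ) (H : ℕ) (hH : 1 ≤ H) (hh : ∀ i, h i < H) :
    (volume {d : Fin 4 → Tor | W0 h d = 0}).toReal ≤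
      74496 * (H : ℝ) ^ 3 * ∏ i, (1 / ((h i : ℝ) + 1)) := by
  have hHr : (1 : ℝ) ≤ H := by exact_mod_cast hH
  by_cases h0 : ∀ i, 0 < h i
  · have h1 := vol_le h H hH hh h0
    have hP : (0 : ℝ) < (h 0 : ℝ) * h 1 * h 2 * h 3 := by
      have := h0 0
      have := h0 1
      have := h0 2
      have := h0 3
      positivity
    have h2 := ENNReal.toReal_mono ENNReal.ofReal_ne_top h1
    rw [ENNReal.toReal_ofReal (by positivity)] at h2
    refine h2.trans ?_
    rw [Fin.prod_univ_four]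
    have hb : ∀ i, 1 / (h i : ℝ) ≤ 2 * (1 / ((h i : ℝ) + 1)) := by
      intro i
      have : (1 : ℝ) ≤ h i := by exact_mod_cast h0 i
      rw [mul_one_div, div_le_div_iff₀ (by linarith) (by linarith)]
      linarith
    have hn : ∀ i, 0 ≤ 1 / (h i : ℝ) := fun i => by positivity
    have hn' : ∀ i, 0 ≤ 2 * (1 / ((h i : ℝ) + 1)) := fun i => by positivity
    have e1 : 4656 * (H : ℝ) ^ 3 / ((h 0 : ℝ) * h 1 * h 2 * h 3) =
        4656 * (H : ℝ) ^ 3 * (1 / (h 0 : ℝ) * (1 / (h 1 : ℝ)) * (1 / (h 2 : ℝ)) *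
          (1 / (h 3 : ℝ))) := by
      field_simp
    rw [e1]
    calc 4656 * (H : ℝ) ^ 3 * (1 / (h 0 : ℝ) * (1 / (h 1 : ℝ)) * (1 / (h 2 : ℝ)) *
          (1 / (h 3 : ℝ))) ≤ 4656 * (H : ℝ) ^ 3 * ((2 * (1 / ((h 0 : ℝ) + 1))) *
          (2 * (1 / ((h 1 : ℝ) + 1))) * (2 * (1 / ((h 2 : ℝ) + 1))) *
          (2 * (1 / ((h 3 : ℝ) + 1)))) := by
          apply mul_le_mul_of_nonneg_left _ (by positivity)
          have a1 := mul_le_mul (hb 0) (hb 1) (hn 1) (hn' 0)
          have a2 := mul_le_mul a1 (hb 2) (hn 2) (mul_nonneg (hn' 0) (hn' 1))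
          exact mul_le_mul a2 (hb 3) (hn 3) (mul_nonneg (mul_nonneg (hn' 0) (hn' 1)) (hn' 2))
      _ = _ := by ring
  · push Not at h0
    obtain ⟨j, hj⟩ := h0
    have hj0 : h j = 0 := by omega
    have h1 : (volume {d : Fin 4 → Tor | W0 h d = 0}).toReal ≤ 1 := by
      have hv : (volume : Measure (Fin 4 → Tor)) Set.univ = 1 := by
        rw [volume_pi, Measure.pi_univ]
        simp
      have h2 : volume {d : Fin 4 → Tor | W0 h d = 0} ≤ 1 := by
        rw [← hv]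
        exact measure_mono (Set.subset_univ _)
      have := ENNReal.toReal_mono ENNReal.one_ne_top h2
      simpa using this
    refine h1.trans ?_
    have h3 : (∏ i, (1 / ((h i : ℝ) + 1))) ≥ 1 / (H : ℝ) ^ 3 := by
      have e : ∏ i, (1 / ((h i : ℝ) + 1)) = ∏ i ∈ Finset.univ.erase j, (1 / ((h i : ℝ) + 1)) := by
        rw [← Finset.mul_prod_erase _ _ (Finset.mem_univ j), hj0]
        simp
      rw [e]
      have hc : (Finset.univ.erase j : Finset (Fin 4)).card = 3 := by simp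
      calc ∏ i ∈ Finset.univ.erase j, (1 / ((h i : ℝ) + 1)) ≥
          ∏ _i ∈ Finset.univ.erase j, (1 / (H : ℝ)) := by
            apply Finset.prod_le_prod
            · intro i _
              positivity
            · intro i _
              apply one_div_le_one_div_of_le (by positivity)
              exact_mod_cast hh i
        _ = 1 / (H : ℝ) ^ 3 := by
            rw [Finset.prod_const, hc, one_div_pow]
    calc (1 : ℝ) ≤ 74496 * (H : ℝ) ^ 3 * (1 / (H : ℝ) ^ 3) := by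
          have : (H : ℝ) ^ 3 ≠ 0 := by positivity
          field_simp
          norm_num
      _ ≤ _ := mul_le_mul_of_nonneg_left h3 (by positivity)

theorem sum_bound (H : ℕ) (hH : 1 ≤ H) :
    (1 / (H : ℝ) ^ 4) * ∑ h ∈ Fintype.piFinset (fun _ : Fin 4 => Finset.range H),
      (volume {d : Fin 4 → Tor | W0 h d = 0}).toReal ≤
    74496 * ((1 + Real.log H) ^ 4 / H) := by
  have hHr : (1 : ℝ) ≤ H := by exact_mod_cast hH
  have h1 : ∑ h ∈ Fintype.piFinset (fun _ : Fin 4 => Finset.range H),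
      (volume {d : Fin 4 → Tor | W0 h d = 0}).toReal ≤
      ∑ h ∈ Fintype.piFinset (fun _ : Fin 4 => Finset.range H),
        74496 * (H : ℝ) ^ 3 * ∏ i, (1 / ((h i : ℝ) + 1)) := by
    refine Finset.sum_le_sum fun h hm => ?_
    rw [Fintype.mem_piFinset] at hm
    exact vol_le' h H hH fun i => Finset.mem_range.1 (hm i)
  rw [← Finset.mul_sum] at h1
  have h2 : ∑ h ∈ Fintype.piFinset (fun _ : Fin 4 => Finset.range H),
      ∏ i, (1 / ((h i : ℝ) + 1)) = (∑ k ∈ Finset.range H, (1 / ((k : ℝ) + 1))) ^ 4 := by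
    have := Finset.prod_univ_sum (fun _ : Fin 4 => Finset.range H)
      (fun (_ : Fin 4) (k : ℕ) => (1 / ((k : ℝ) + 1)))
    rw [← this]
    simp
  have h3 : ∑ k ∈ Finset.range H, (1 / ((k : ℝ) + 1)) ≤ 1 + Real.log H := by
    have := harmonic_le_one_add_log H
    unfold harmonic at this
    push_cast at this
    simpa using this
  have h4 : 0 ≤ ∑ k ∈ Finset.range H, (1 / ((k : ℝ) + 1)) :=
    Finset.sum_nonneg fun k _ => by positivity
  rw [h2] at h1
  calc (1 / (H : ℝ) ^ 4) * ∑ h ∈ Fintype.piFinset (fun _ : Fin 4 => Finset.range H),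
      (volume {d : Fin 4 → Tor | W0 h d = 0}).toReal ≤
      (1 / (H : ℝ) ^ 4) * (74496 * (H : ℝ) ^ 3 *
        (∑ k ∈ Finset.range H, (1 / ((k : ℝ) + 1))) ^ 4) :=
        mul_le_mul_of_nonneg_left h1 (by positivity)
    _ ≤ (1 / (H : ℝ) ^ 4) * (74496 * (H : ℝ) ^ 3 * (1 + Real.log H) ^ 4) := by
        apply mul_le_mul_of_nonneg_left _ (by positivity)
        apply mul_le_mul_of_nonneg_left _ (by positivity)
        exact pow_le_pow_left₀ h4 h3 4
    _ = 74496 * ((1 + Real.log H) ^ 4 / H) := by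
        field_simp

end Box

theorem box_small : Tendsto (fun H : ℕ => (1 / (H : ℝ) ^ 4) *
    ∑ h ∈ Fintype.piFinset (fun _ : Fin 4 => Finset.range H),
      (volume {d : Fin 4 → Tor | W0 h d = 0}).toReal) atTop (𝓝 0) := by
  have h1 : Tendsto (fun x : ℝ => (1 + Real.log x) ^ 4 / x) atTop (𝓝 0) := by
    have h2 : Tendsto (fun y : ℝ => Real.exp 1 * (y ^ 4 * Real.exp (-y))) atTop (𝓝 0) := by
      simpa using (Real.tendsto_pow_mul_exp_neg_atTop_nhds_zero 4).const_mul (Real.exp 1)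
    have h3 : Tendsto (fun x : ℝ => 1 + Real.log x) atTop atTop :=
      tendsto_atTop_add_const_left _ _ Real.tendsto_log_atTop
    have h4 := h2.comp h3
    refine h4.congr' ?_
    filter_upwards [eventually_gt_atTop (0 : ℝ)] with x hx
    have e : Real.exp (-(1 + Real.log x)) = Real.exp (-1) * x⁻¹ := by
      rw [neg_add, Real.exp_add, Real.exp_neg (Real.log x), Real.exp_log hx]
    simp only [Function.comp]
    rw [e]
    have e2 : Real.exp 1 * Real.exp (-1) = 1 := by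
      rw [← Real.exp_add]; simp
    calc Real.exp 1 * ((1 + Real.log x) ^ 4 * (Real.exp (-1) * x⁻¹)) =
        (Real.exp 1 * Real.exp (-1)) * ((1 + Real.log x) ^ 4 * x⁻¹) := by ring
      _ = (1 + Real.log x) ^ 4 / x := by rw [e2, one_mul, div_eq_mul_inv]
  have h5 : Tendsto (fun H : ℕ => 74496 * ((1 + Real.log (H : ℝ)) ^ 4 / (H : ℝ))) atTop (𝓝 0) := by
    simpa using (h1.comp tendsto_natCast_atTop_atTop).const_mul 74496
  refine squeeze_zero' ?_ ?_ h5
  · filter_upwards with H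
    exact mul_nonneg (by positivity) (Finset.sum_nonneg fun h _ => ENNReal.toReal_nonneg)
  · filter_upwards [eventually_ge_atTop 1] with H hH
    exact Box.sum_bound H hH

end Pool.Agent.BLL
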