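import Mathlib

/-!
# The nilsystem: definitions

`lift : 𝕋 → ℝ` is the centred lift to `[-1/2, 1/2)`; `M k` is the integer matrix
`(binom a j) k^(a-j)`; it acts on `𝕋^4`.  `J k d` is the integer vector
`M k (lift d) - lift (M k d)`.
-/

set_option autoImplicit false

open MeasureTheory Filter Topology

namespace Pool.Agent.BLL

noncomputable section

/-- The circle. -/
abbrev Tor : Type := UnitAddCircle

/-- centred lift of a point of the circle to `[-1/2, 1/2)`. -/
def lift (x : Tor) : ℝ := (AddCircle.equivIco (1 : ℝ) (-1/2 : ℝ) x : ℝ)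

theorem lift_mem (x : Tor) : lift x ∈ Set.Ico (-1/2 : ℝ) (1/2) := by
  have := (AddCircle.equivIco (1 : ℝ) (-1/2 : ℝ) x).2
  rw [Set.mem_Ico] at this ⊢
  exact ⟨this.1, by have := this.2; unfold lift; linarith⟩

theorem coe_lift (x : Tor) : ((lift x : ℝ) : Tor) = x :=
  (AddCircle.equivIco (1 : ℝ) (-1/2 : ℝ)).symm_apply_apply x

theorem measurable_lift : Measurable lift :=
  measurable_subtype_coe.comp (AddCircle.measurableEquivIco (1 : ℝ) (-1/2 : ℝ)).measurable

theorem lift_coe_sub (x : ℝ) : ∃ n : ℤ, x - lift (x : Tor) = n := by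
  have h : ((x - lift (x : Tor) : ℝ) : Tor) = 0 := by
    rw [AddCircle.coe_sub, coe_lift, sub_self]
  obtain ⟨n, hn⟩ := (AddCircle.coe_eq_zero_iff (1 : ℝ)).1 h
  exact ⟨n, by rw [← hn]; simp⟩

/-- The unipotent integer matrices. -/
def M (k : ℤ) : Matrix (Fin 4) (Fin 4) ℤ :=
  fun a j => (Nat.choose a j : ℤ) * k ^ ((a : ℕ) - (j : ℕ))

/-- action of an integer matrix on a power of an additive group -/
def mact {V : Type*} [AddCommGroup V] (A : Matrix (Fin 4) (Fin 4) ℤ) (c : Fin 4 → V) : Fin 4 → V :=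
  fun a => ∑ j, A a j • c j

/-- the integer vector `M k (lift d) - lift (M k d)` -/
def J (k : ℤ) (d : Fin 4 → Tor) (b : Fin 4) : ℤ :=
  ⌊mact (M k) (fun l => lift (d l)) b - lift (mact (M k) d b) + 1/2⌋

theorem J_eq (k : ℤ) (d : Fin 4 → Tor) (b : Fin 4) :
    (J k d b : ℝ) = mact (M k) (fun l => lift (d l)) b - lift (mact (M k) d b) := by
  have h : ((mact (M k) (fun l => lift (d l)) b : ℝ) : Tor) = mact (M k) d b := by
    unfold mact
    have := map_sum (QuotientAddGroup.mk' (AddSubgroup.zmultiples (1 : ℝ)))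
      (fun j => M k b j • lift (d j)) Finset.univ
    refine this.trans ?_
    refine Finset.sum_congr rfl fun j _ => ?_
    rw [map_zsmul]
    congr 1
    exact coe_lift (d j)
  obtain ⟨n, hn⟩ := lift_coe_sub (mact (M k) (fun l => lift (d l)) b)
  rw [h] at hn
  have h2 : J k d b = n := by
    unfold J
    rw [hn, Int.floor_eq_iff]
    constructor <;> push_cast <;> linarith
  rw [h2, hn]

/-- The point `ω · h`. -/
def dot (ω : Fin 4 → Bool) (h : Fin 4 → ℕ) : ℤ := ∑ j, if ω j = true then (h j : ℤ) else 0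

/-- sign `(-1)^{|ω|}` -/
def sgn (ω : Fin 4 → Bool) : ℤ := (-1) ^ (Finset.univ.filter (fun j => ω j = true)).card

/-- The coefficient of `c_0` in the phase of the box. -/
def W0 (h : Fin 4 → ℕ) (d : Fin 4 → Tor) : ℤ :=
  ∑ ω : Fin 4 → Bool, sgn ω * ((dot ω h) ^ 3 * J (dot ω h) d 1
    - 2 * (dot ω h) ^ 2 * J (dot ω h) d 2 + (dot ω h) * J (dot ω h) d 3)

end

end Pool.Agent.BLL
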