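import Pool.Agent.BLL.PolyDefs
import Pool.Agent.BLL.NDefs

/-!
# Statements of the two halves of the counterexample (as definitions of propositions)
-/

set_option autoImplicit false
open MeasureTheory Filter Topology Polynomial

namespace Pool.Agent.BLL

noncomputable section

/-- The family `n, 2n, 3n, 4n, n+2n²-2n³, n-2n²-2n³, -2n³`. -/
def P (i : Fin 7) : Polynomial ℤ :=
  ![X, 2 * X, 3 * X, 4 * X, X + 2 * X ^ 2 - 2 * X ^ 3, X - 2 * X ^ 2 - 2 * X ^ 3, -2 * X ^ 3] i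

theorem P_eval (i : Fin 7) (n : ℤ) : (P i).eval n = pv i.succ n := by
  fin_cases i <;> simp [P, pv]

/-- The box average of order `4` of `f` over `[0,H)^4`. -/
def box {X : Type*} [MeasurableSpace X] (μ : Measure X) (T : X ≃ᵐ X) (f : X → ℂ) (H : ℕ) : ℂ :=
  (1 / (H : ℂ) ^ (3 + 1)) *
    ∑ h ∈ Fintype.piFinset (fun _ : Fin (3 + 1) => Finset.range H),
      ∫ x, ∏ ε : Fin (3 + 1) → Bool,
        (⇑(starRingEnd ℂ))^[(Finset.univ.filter (fun j => ε j = true)).card]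
          (f (((T.toEquiv : Equiv.Perm X) ^
            (∑ j, if ε j = true then (h j : ℤ) else 0)) x)) ∂μ

/-- `L²` norm squared of the polynomial average. -/
def pavg {X : Type*} [MeasurableSpace X] (μ : Measure X) (T : X ≃ᵐ X) (f : Fin 7 → X → ℂ)
    (N : ℕ) : ℝ :=
  ∫ x, ‖(1 / (N : ℂ)) * ∑ n ∈ Finset.Icc 1 N,
    ∏ i, f i (((T.toEquiv : Equiv.Perm X) ^ ((P i).eval (n : ℤ))) x)‖ ^ 2 ∂μ

/-- The order `3` Host–Kra factor is characteristic in all Weyl systems. -/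
def WPart : Prop :=
  ∀ (m : ℕ) (A : Matrix (Fin m) (Fin m) ℤ) (b : Fin m → UnitAddCircle)
    (T : (Fin m → UnitAddCircle) ≃ᵐ (Fin m → UnitAddCircle)),
    (A - 1) ^ m = 0 → (∀ x, T x = fun i => (∑ j, A i j • x j) + b i) →
    ∀ f : Fin 7 → (Fin m → UnitAddCircle) → ℂ, (∀ i, Measurable (f i)) →
      (∀ i, ∃ C : ℝ, ∀ x, ‖f i x‖ ≤ C) →
      (∃ i, Tendsto (box volume T (f i)) atTop (𝓝 0)) →
      Tendsto (pavg volume T f) atTop (𝓝 0)

/-- There is a system in which it is not. -/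
def NPart : Prop :=
  ∃ (X : Type) (_ : MeasurableSpace X) (_ : StandardBorelSpace X) (μ : Measure X)
    (_ : IsProbabilityMeasure μ) (T : X ≃ᵐ X) (_ : MeasurePreserving T μ μ)
    (f : Fin 7 → X → ℂ), (∀ i, Measurable (f i)) ∧ (∀ i, ∃ C : ℝ, ∀ x, ‖f i x‖ ≤ C) ∧
      (∃ i, Tendsto (box μ T (f i)) atTop (𝓝 0)) ∧
      ¬ Tendsto (pavg μ T f) atTop (𝓝 0)

end

end Pool.Agent.BLL
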