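import Pool.Agent.BLL.NDefs
import Pool.Agent.BLL.Stmts

/-!
# The nilsystem: the second half of the counterexample
-/

set_option autoImplicit false

open MeasureTheory Filter Topology

namespace Pool.Agent.BLL

noncomputable section

/-! ### Instances -/

abbrev V4 : Type := Fin 4 → Tor
abbrev E4 : Type := Fin 4 → V4
abbrev F4 : Type := V4 × E4
abbrev Xs : Type := V4 × F4

instance instSBV4 : StandardBorelSpace V4 := inferInstance
instance instSBE4 : StandardBorelSpace E4 := StandardBorelSpace.pi_countable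
instance instSBXs : StandardBorelSpace Xs := inferInstance
instance instMS : MeasurableSMul₂ ℤ Tor := inferInstanceAs (MeasurableSMul₂ ℤ UnitAddCircle)
instance instCS : ContinuousConstSMul ℤ Tor := inferInstanceAs (ContinuousConstSMul ℤ UnitAddCircle)
instance instBV4 : BorelSpace V4 := inferInstance
instance instBE4 : BorelSpace E4 := Pi.borelSpace
instance instBF4 : BorelSpace F4 := Prod.borelSpace

theorem meas_smul {α : Type*} [MeasurableSpace α] (f : α → ℤ) (g : α → Tor) (hf : Measurable f)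
    (hg : Measurable g) : Measurable (fun x => f x • g x) := by fun_prop

theorem cont_smul {α : Type*} [TopologicalSpace α] (f : ℤ) (g : α → Tor)
    (hg : Continuous g) : Continuous (fun x => f • g x) := by fun_prop

instance instHV4 : (volume : Measure V4).IsAddHaarMeasure := inferInstance
instance instHE4 : (volume : Measure E4).IsAddHaarMeasure := Measure.pi.isAddHaarMeasure _
instance instHF4 : (volume : Measure F4).IsAddHaarMeasure := Measure.prod.instIsAddHaarMeasure _ _
instance instPTor : IsProbabilityMeasure (volume : Measure Tor) := ⟨UnitAddCircle.measure_univ⟩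
instance instPV4 : IsProbabilityMeasure (volume : Measure V4) := Measure.pi.instIsProbabilityMeasure _
instance instPE4 : IsProbabilityMeasure (volume : Measure E4) := Measure.pi.instIsProbabilityMeasure _
instance instPF4 : IsProbabilityMeasure (volume : Measure F4) := Measure.prod.instIsProbabilityMeasure _ _
instance instPXs : IsProbabilityMeasure (volume : Measure Xs) := Measure.prod.instIsProbabilityMeasure _ _

/-! ### Algebra of the matrices -/

theorem M_add (k l : ℤ) : M (k + l) = M l * M k := by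
  ext a j
  simp only [M, Matrix.mul_apply, Fin.sum_univ_four]
  fin_cases a <;> fin_cases j <;> simp [Nat.choose] <;> ring

theorem M_zero : M 0 = 1 := by
  ext a j
  fin_cases a <;> fin_cases j <;> simp [M, Nat.choose]

section mact
variable {V : Type*} [AddCommGroup V]

theorem mact_mul (A B : Matrix (Fin 4) (Fin 4) ℤ) (c : Fin 4 → V) :
    mact (A * B) c = mact A (mact B c) := by
  funext a
  simp only [mact, Matrix.mul_apply, Finset.sum_smul, Finset.smul_sum, mul_smul]
  exact Finset.sum_comm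

theorem mact_one8 (c : Fin 4 → V) : mact 1 c = c := by
  funext a
  simp [mact, Matrix.one_apply]

theorem mact_add (A : Matrix (Fin 4) (Fin 4) ℤ) (c c' : Fin 4 → V) :
    mact A (c + c') = mact A c + mact A c' := by
  funext a
  simp [mact, smul_add, Finset.sum_add_distrib]

end mact

theorem J_zero (d : V4) (b : Fin 4) : J 0 d b = 0 := by
  have := J_eq 0 d b
  rw [M_zero, mact_one8, mact_one8] at this
  simpa using this

theorem J_add (k l : ℤ) (d : V4) (b : Fin 4) :
    J (k + l) d b = ∑ j, M l b j * J k d j + J l (mact (M k) d) b := by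
  have h : ((J (k + l) d b : ℤ) : ℝ) =
      ((∑ j, M l b j * J k d j + J l (mact (M k) d) b : ℤ) : ℝ) := by
    push_cast
    rw [J_eq, J_eq, M_add, mact_mul, mact_mul]
    simp only [J_eq]
    simp only [mact, mul_sub, Finset.sum_sub_distrib, zsmul_eq_mul]
    ring
  exact_mod_cast h

/-- The tensor square of the action. -/
def mact2 (A : Matrix (Fin 4) (Fin 4) ℤ) (e : E4) : E4 := mact A (fun j => mact A (e j))

theorem mact2_apply (A : Matrix (Fin 4) (Fin 4) ℤ) (e : E4) (a b : Fin 4) :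
    mact2 A e a b = ∑ j, ∑ l, (A a j * A b l) • e j l := by
  simp only [mact2, mact, Finset.sum_apply, Pi.smul_apply, Finset.smul_sum, mul_smul]

theorem mact_swap (A B : Matrix (Fin 4) (Fin 4) ℤ) (e : E4) :
    mact A (fun j => mact B (e j)) = fun j => mact B (mact A e j) := by
  funext a b
  simp only [mact, Finset.sum_apply, Pi.smul_apply, Finset.smul_sum]
  rw [Finset.sum_comm]
  refine Finset.sum_congr rfl fun x _ => Finset.sum_congr rfl fun y _ => ?_
  rw [smul_comm]

theorem mact2_mul (A B : Matrix (Fin 4) (Fin 4) ℤ) (e : E4) :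
    mact2 (A * B) e = mact2 A (mact2 B e) := by
  simp only [mact2, mact_mul]
  congr 1
  rw [mact_swap B A]
  

theorem mact2_one (e : E4) : mact2 1 e = e := by
  simp only [mact2, mact_one8]

theorem mact2_add (A : Matrix (Fin 4) (Fin 4) ℤ) (e e' : E4) :
    mact2 A (e + e') = mact2 A e + mact2 A e' := by
  simp only [mact2]
  rw [← mact_add]
  congr 1
  funext j
  simp only [Pi.add_apply, mact_add]

/-- the tensor product of `c` with an integer vector -/
def tens (u : Fin 4 → ℤ) (c : V4) : E4 := fun a b => u b • c a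

theorem mact2_tens (A : Matrix (Fin 4) (Fin 4) ℤ) (u : Fin 4 → ℤ) (c : V4) :
    mact2 A (tens u c) = tens (fun b => ∑ j, A b j * u j) (mact A c) := by
  funext a b
  rw [mact2_apply]
  simp only [tens, mact, Finset.smul_sum, Finset.sum_smul]
  refine Finset.sum_congr rfl fun x _ => Finset.sum_congr rfl fun y _ => ?_
  rw [← mul_smul, ← mul_smul]
  congr 1
  ring

/-- The action on the last two coordinates, for a fixed vector `d`. -/
def fact (k : ℤ) (d : V4) (y : F4) : F4 :=
  (mact (M k) y.1, mact2 (M k) y.2 - tens (J k d) (mact (M k) y.1))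

/-- The action of `k`. -/
def act (k : ℤ) (x : Xs) : Xs := (mact (M k) x.1, fact k x.1 x.2)

theorem act_zero (x : Xs) : act 0 x = x := by
  obtain ⟨d, c, e⟩ := x
  simp only [act, fact, M_zero, mact_one8, mact2_one]
  refine Prod.ext rfl (Prod.ext rfl ?_)
  funext a b
  simp [tens, J_zero]

theorem act_add (k l : ℤ) (x : Xs) : act (k + l) x = act l (act k x) := by
  obtain ⟨d, c, e⟩ := x
  refine Prod.ext (by simp only [act, fact, M_add, mact_mul]) (Prod.ext (by simp only [act, fact, M_add, mact_mul]) ?_)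
  simp only [act, fact]
  have h : ∀ (A : Matrix (Fin 4) (Fin 4) ℤ) (e e' : E4),
      mact2 A (e - e') = mact2 A e - mact2 A e' := by
    intro A e e'
    rw [eq_sub_iff_add_eq, ← mact2_add, sub_add_cancel]
  rw [h, mact2_tens, M_add, mact2_mul, mact_mul]
  funext a b
  simp only [Pi.sub_apply, tens, J_add, add_smul]
  abel

/-! ### Measurability -/

theorem continuous_mact (A : Matrix (Fin 4) (Fin 4) ℤ) : Continuous (fun c : V4 => mact A c) := by
  unfold mact
  fun_prop

theorem continuous_mact2 (A : Matrix (Fin 4) (Fin 4) ℤ) : Continuous (fun e : E4 => mact2 A e) := by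
  have : (fun e : E4 => mact2 A e) = fun e a b => ∑ j, ∑ l, (A a j * A b l) • e j l := by
    funext e a b
    exact mact2_apply A e a b
  rw [this]
  fun_prop

theorem measurable_J8 (k : ℤ) (b : Fin 4) : Measurable (fun d : V4 => J k d b) := by
  unfold J
  refine Int.measurable_floor.comp ?_
  refine Measurable.add_const (Measurable.sub ?_ ?_) _
  · unfold mact
    refine Finset.measurable_sum _ fun j _ => ?_
    have h : Measurable (fun d : V4 => lift (d j)) := measurable_lift.comp (measurable_pi_apply j)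
    exact h.const_smul (M k b j)
  · exact measurable_lift.comp ((measurable_pi_apply b).comp (continuous_mact (M k)).measurable)

theorem measurable_fact (k : ℤ) : Measurable (fun x : Xs => fact k x.1 x.2) := by
  have h1 : Measurable (fun x : Xs => mact (M k) x.2.1) :=
    (continuous_mact (M k)).measurable.comp (measurable_fst.comp measurable_snd)
  have h2 : Measurable (fun x : Xs => mact2 (M k) x.2.2) :=
    (continuous_mact2 (M k)).measurable.comp (measurable_snd.comp measurable_snd)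
  refine Measurable.prodMk h1 (h2.sub ?_)
  refine measurable_pi_lambda _ fun a => measurable_pi_lambda _ fun b => ?_
  exact meas_smul _ _ ((measurable_J8 k b).comp measurable_fst) ((measurable_pi_apply a).comp h1)

theorem measurable_act (k : ℤ) : Measurable (act k) := by
  refine Measurable.prodMk ?_ (measurable_fact k)
  exact (continuous_mact (M k)).measurable.comp measurable_fst

theorem act_neg_act (k : ℤ) (x : Xs) : act (-k) (act k x) = x := by
  rw [← act_add, add_neg_cancel, act_zero]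

theorem act_act_neg (k : ℤ) (x : Xs) : act k (act (-k) x) = x := by
  rw [← act_add, neg_add_cancel, act_zero]

/-- The transformation. -/
def Tm : Xs ≃ᵐ Xs where
  toFun := act 1
  invFun := act (-1)
  left_inv := act_neg_act 1
  right_inv := act_act_neg 1
  measurable_toFun := measurable_act 1
  measurable_invFun := measurable_act (-1)

theorem Tm_pow (k : ℤ) (x : Xs) : ((Tm.toEquiv : Equiv.Perm Xs) ^ k) x = act k x := by
  induction k using Int.induction_on generalizing x with
  | zero => simp [act_zero]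
  | succ k ih =>
    rw [zpow_add_one, Equiv.Perm.mul_apply, ih, add_comm, act_add]
    rfl
  | pred k ih =>
    rw [zpow_sub_one, Equiv.Perm.mul_apply, ih, sub_eq_add_neg, add_comm, act_add]
    rfl

/-! ### Measure preservation -/

theorem mact_neg_mact (k : ℤ) {V : Type*} [AddCommGroup V] (c : Fin 4 → V) :
    mact (M k) (mact (M (-k)) c) = c := by
  rw [← mact_mul, ← M_add, neg_add_cancel, M_zero, mact_one8]

theorem mp_mact (k : ℤ) : MeasurePreserving (fun c : V4 => mact (M k) c) volume volume := by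
  let f : V4 →+ V4 :=
    { toFun := fun c => mact (M k) c
      map_zero' := by funext a; simp [mact]
      map_add' := mact_add (M k) }
  have hs : Function.Surjective f := fun c => ⟨mact (M (-k)) c, mact_neg_mact k c⟩
  exact AddMonoidHom.measurePreserving (f := f) (continuous_mact (M k)) hs rfl

theorem mp_fact (k : ℤ) (d : V4) : MeasurePreserving (fact k d) volume volume := by
  let f : F4 →+ F4 :=
    { toFun := fact k d
      map_zero' := by
        refine Prod.ext ?_ ?_
        · funext a; simp [fact, mact]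
        · funext a b; simp [fact, mact, mact2, tens]
      map_add' := fun y z => by
        refine Prod.ext ?_ ?_
        · exact mact_add _ _ _
        · simp only [fact, Prod.snd_add, Prod.fst_add, mact_add, mact2_add]
          funext a b
          simp only [Pi.add_apply, Pi.sub_apply, tens, smul_add]
          abel }
  have hs : Function.Surjective f := by
    intro y
    refine ⟨(act (-k) (mact (M k) d, y)).2, ?_⟩
    have h1 : (act (-k) (mact (M k) d, y)).1 = d := by
      have := act_neg_act k (d, y)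
      change mact (M (-k)) (mact (M k) d) = d
      exact congrArg Prod.fst this
    have h2 := act_act_neg k (mact (M k) d, y)
    have h3 := congrArg Prod.snd h2
    change fact k (act (-k) (mact (M k) d, y)).1 (act (-k) (mact (M k) d, y)).2 = y at h3
    rw [h1] at h3
    exact h3
  have hc : Continuous f := by
    change Continuous (fun y : F4 => fact k d y)
    unfold fact
    refine Continuous.prodMk ((continuous_mact _).comp continuous_fst) ?_
    refine ((continuous_mact2 _).comp continuous_snd).sub ?_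
    refine continuous_pi fun a => continuous_pi fun b => ?_
    exact cont_smul _ _ ((continuous_apply a).comp ((continuous_mact _).comp continuous_fst))
  exact AddMonoidHom.measurePreserving (f := f) hc hs rfl

theorem mp_act (k : ℤ) : MeasurePreserving (act k) volume volume :=
  (mp_mact k).skew_product (g := fact k) (measurable_fact k)
    (Filter.Eventually.of_forall fun d => (mp_fact k d).map_eq)

/-! ### Observables -/

/-- Weights of the quartic part. -/
def wt8 (i : Fin 8) : ℤ := ![1, -4, 6, -4, 1, 0, 0, 0] i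

/-- Weights of the bilinear part. -/
def gt (i : Fin 8) : ℤ := ![12, -12, 0, 0, 0, 6, 6, -12] i

/-- The phase. -/
def ph (w g : ℤ) (e : E4) : Tor := w • e 3 1 - (2 * w) • e 2 2 + w • e 1 3 + g • e 1 1

theorem ph_mact2 (w g : ℤ) (A : Matrix (Fin 4) (Fin 4) ℤ) (e : E4) :
    ph w g (mact2 A e) = ∑ j, ∑ l,
      (w * (A 3 j * A 1 l - 2 * (A 2 j * A 2 l) + A 1 j * A 3 l) + g * (A 1 j * A 1 l)) • e j l := by
  simp only [ph, mact2_apply, Finset.smul_sum, ← Finset.sum_sub_distrib, ← Finset.sum_add_distrib]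
  refine Finset.sum_congr rfl fun j _ => Finset.sum_congr rfl fun l _ => ?_
  module

theorem ph_tens (w g : ℤ) (A : Matrix (Fin 4) (Fin 4) ℤ) (u : Fin 4 → ℤ) (c : V4) :
    ph w g (tens u (mact A c)) = ∑ j,
      (w * (A 3 j * u 1 - 2 * (A 2 j * u 2) + A 1 j * u 3) + g * (A 1 j * u 1)) • c j := by
  simp only [ph, tens, mact, Finset.smul_sum, ← Finset.sum_sub_distrib, ← Finset.sum_add_distrib]
  refine Finset.sum_congr rfl fun j _ => ?_
  module

theorem ph_sub (w g : ℤ) (e e' : E4) : ph w g (e - e') = ph w g e - ph w g e' := by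
  simp only [ph, Pi.sub_apply]
  module

/-- The Bohr set. -/
def Bs : Set V4 := {d | |lift (d 1)| < 1/20 ∧ |lift (d 2)| < 1/20 ∧ |lift (d 3)| < 1/20}

/-- The relation in two variables. -/
theorem R_zero (n : ℤ) (j l : Fin 4) :
    ∑ i : Fin 8, (wt8 i * (M (pv i n) 3 j * M (pv i n) 1 l - 2 * (M (pv i n) 2 j * M (pv i n) 2 l)
      + M (pv i n) 1 j * M (pv i n) 3 l) + gt i * (M (pv i n) 1 j * M (pv i n) 1 l)) = 0 := by
  fin_cases j <;> fin_cases l <;>
  simp [Fin.sum_univ_eight, wt8, gt, pv, M, Nat.choose] <;> ring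

theorem int_small {z : ℤ} {x : ℝ} (h : (z : ℝ) = x) (hx : |x| < 1) : z = 0 := by
  have : |(z : ℝ)| < 1 := by rw [h]; exact hx
  have h2 : |z| < 1 := by exact_mod_cast this
  exact Int.abs_lt_one_iff.1 h2

theorem lam_zero (n : ℤ) (d : V4) (hd : ∀ i, mact (M (pv i n)) d ∈ Bs) :
    (J (pv 0 n) d 1 - 2 * J (pv 1 n) d 1 + J (pv 2 n) d 1 = 0) ∧
    (J (pv 1 n) d 1 - 2 * J (pv 2 n) d 1 + J (pv 3 n) d 1 = 0) ∧
    (J (pv 2 n) d 1 - 2 * J (pv 3 n) d 1 + J (pv 4 n) d 1 = 0) ∧
    (J (pv 5 n) d 1 + J (pv 6 n) d 1 - 2 * J (pv 7 n) d 1 - 2 * J (pv 1 n) d 1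
      + 2 * J (pv 0 n) d 1 = 0) ∧
    (2 * (J (pv 0 n) d 2 - 2 * J (pv 1 n) d 2 + J (pv 2 n) d 2)
      - (J (pv 5 n) d 1 - J (pv 6 n) d 1) = 0) ∧
    (2 * (J (pv 1 n) d 2 - 2 * J (pv 2 n) d 2 + J (pv 3 n) d 2)
      - (J (pv 5 n) d 1 - J (pv 6 n) d 1) = 0) ∧
    (2 * (J (pv 2 n) d 2 - 2 * J (pv 3 n) d 2 + J (pv 4 n) d 2)
      - (J (pv 5 n) d 1 - J (pv 6 n) d 1) = 0) ∧
    (J (pv 3 n) d 3 - 3 * J (pv 2 n) d 3 + 3 * J (pv 1 n) d 3 - J (pv 0 n) d 3
      - 3 * (J (pv 0 n) d 1 - J (pv 7 n) d 1) = 0) ∧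
    (J (pv 4 n) d 3 - 3 * J (pv 3 n) d 3 + 3 * J (pv 2 n) d 3 - J (pv 1 n) d 3
      - 3 * (J (pv 0 n) d 1 - J (pv 7 n) d 1) = 0) := by
  have hJ : ∀ i b, (J (pv i n) d b : ℝ) = mact (M (pv i n)) (fun l => lift (d l)) b
    - lift (mact (M (pv i n)) d b) := fun i b => J_eq _ _ _
  have h1 : ∀ i, |lift (mact (M (pv i n)) d 1)| < 1/20 := fun i => (hd i).1
  have h2 : ∀ i, |lift (mact (M (pv i n)) d 2)| < 1/20 := fun i => (hd i).2.1
  have h3 : ∀ i, |lift (mact (M (pv i n)) d 3)| < 1/20 := fun i => (hd i).2.2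
  have hb1 : ∀ k : ℤ, mact (M k) (fun l => lift (d l)) 1 = k * lift (d 0) + lift (d 1) := by
    intro k; simp [mact, Fin.sum_univ_four, M, Nat.choose]
  have hb2 : ∀ k : ℤ, mact (M k) (fun l => lift (d l)) 2
      = k ^ 2 * lift (d 0) + 2 * k * lift (d 1) + lift (d 2) := by
    intro k; simp [mact, Fin.sum_univ_four, M, Nat.choose]
  have hb3 : ∀ k : ℤ, mact (M k) (fun l => lift (d l)) 3
      = k ^ 3 * lift (d 0) + 3 * k ^ 2 * lift (d 1) + 3 * k * lift (d 2) + lift (d 3) := by
    intro k; simp [mact, Fin.sum_univ_four, M, Nat.choose]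
  have a1 := fun i => abs_lt.1 (h1 i)
  have a2 := fun i => abs_lt.1 (h2 i)
  have a3 := fun i => abs_lt.1 (h3 i)
  have p0 : (pv 0 n : ℝ) = 0 := by simp [pv]
  have p1 : (pv 1 n : ℝ) = n := by simp [pv]
  have p2 : (pv 2 n : ℝ) = 2 * n := by simp [pv]
  have p3 : (pv 3 n : ℝ) = 3 * n := by simp [pv]
  have p4 : (pv 4 n : ℝ) = 4 * n := by simp [pv]
  have p5 : (pv 5 n : ℝ) = n + 2 * n ^ 2 - 2 * n ^ 3 := by simp [pv]
  have p6 : (pv 6 n : ℝ) = n - 2 * n ^ 2 - 2 * n ^ 3 := by simp [pv]
  have p7 : (pv 7 n : ℝ) = - 2 * n ^ 3 := by simp [pv]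
  refine ⟨?_, ?_, ?_, ?_, ?_, ?_, ?_, ?_, ?_⟩
  · refine int_small (x := -(lift (mact (M (pv 0 n)) d 1) - 2 * lift (mact (M (pv 1 n)) d 1)
      + lift (mact (M (pv 2 n)) d 1))) ?_ ?_
    · push_cast [hJ, hb1, p0, p1, p2]; ring
    · have := a1 0; have := a1 1; have := a1 2
      rw [abs_lt]; constructor <;> linarith [(a1 0).1, (a1 0).2, (a1 1).1, (a1 1).2, (a1 2).1, (a1 2).2]
  · refine int_small (x := -(lift (mact (M (pv 1 n)) d 1) - 2 * lift (mact (M (pv 2 n)) d 1)
      + lift (mact (M (pv 3 n)) d 1))) ?_ ?_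
    · push_cast [hJ, hb1, p1, p2, p3]; ring
    · rw [abs_lt]; constructor <;> linarith [(a1 1).1, (a1 1).2, (a1 2).1, (a1 2).2, (a1 3).1, (a1 3).2]
  · refine int_small (x := -(lift (mact (M (pv 2 n)) d 1) - 2 * lift (mact (M (pv 3 n)) d 1)
      + lift (mact (M (pv 4 n)) d 1))) ?_ ?_
    · push_cast [hJ, hb1, p2, p3, p4]; ring
    · rw [abs_lt]; constructor <;> linarith [(a1 4).1, (a1 4).2, (a1 2).1, (a1 2).2, (a1 3).1, (a1 3).2]
  · refine int_small (x := -(lift (mact (M (pv 5 n)) d 1) + lift (mact (M (pv 6 n)) d 1)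
      - 2 * lift (mact (M (pv 7 n)) d 1) - 2 * lift (mact (M (pv 1 n)) d 1)
      + 2 * lift (mact (M (pv 0 n)) d 1))) ?_ ?_
    · push_cast [hJ, hb1, p0, p1, p5, p6, p7]; ring
    · rw [abs_lt]; constructor <;> linarith [(a1 0).1, (a1 0).2, (a1 1).1, (a1 1).2, (a1 5).1,
        (a1 5).2, (a1 6).1, (a1 6).2, (a1 7).1, (a1 7).2]
  · refine int_small (x := -(2 * (lift (mact (M (pv 0 n)) d 2) - 2 * lift (mact (M (pv 1 n)) d 2)
      + lift (mact (M (pv 2 n)) d 2)) - (lift (mact (M (pv 5 n)) d 1)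
      - lift (mact (M (pv 6 n)) d 1)))) ?_ ?_
    · push_cast [hJ, hb1, hb2, p0, p1, p2, p5, p6]; ring
    · rw [abs_lt]; constructor <;> linarith [(a2 0).1, (a2 0).2, (a2 1).1, (a2 1).2, (a2 2).1,
        (a2 2).2, (a1 5).1, (a1 5).2, (a1 6).1, (a1 6).2]
  · refine int_small (x := -(2 * (lift (mact (M (pv 1 n)) d 2) - 2 * lift (mact (M (pv 2 n)) d 2)
      + lift (mact (M (pv 3 n)) d 2)) - (lift (mact (M (pv 5 n)) d 1)
      - lift (mact (M (pv 6 n)) d 1)))) ?_ ?_
    · push_cast [hJ, hb1, hb2, p1, p2, p3, p5, p6]; ring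
    · rw [abs_lt]; constructor <;> linarith [(a2 3).1, (a2 3).2, (a2 1).1, (a2 1).2, (a2 2).1,
        (a2 2).2, (a1 5).1, (a1 5).2, (a1 6).1, (a1 6).2]
  · refine int_small (x := -(2 * (lift (mact (M (pv 2 n)) d 2) - 2 * lift (mact (M (pv 3 n)) d 2)
      + lift (mact (M (pv 4 n)) d 2)) - (lift (mact (M (pv 5 n)) d 1)
      - lift (mact (M (pv 6 n)) d 1)))) ?_ ?_
    · push_cast [hJ, hb1, hb2, p2, p3, p4, p5, p6]; ring
    · rw [abs_lt]; constructor <;> linarith [(a2 3).1, (a2 3).2, (a2 4).1, (a2 4).2, (a2 2).1,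
        (a2 2).2, (a1 5).1, (a1 5).2, (a1 6).1, (a1 6).2]
  · refine int_small (x := -(lift (mact (M (pv 3 n)) d 3) - 3 * lift (mact (M (pv 2 n)) d 3)
      + 3 * lift (mact (M (pv 1 n)) d 3) - lift (mact (M (pv 0 n)) d 3)
      - 3 * (lift (mact (M (pv 0 n)) d 1) - lift (mact (M (pv 7 n)) d 1)))) ?_ ?_
    · push_cast [hJ, hb1, hb3, p0, p1, p2, p3, p7]; ring
    · rw [abs_lt]; constructor <;> linarith [(a3 3).1, (a3 3).2, (a3 2).1, (a3 2).2, (a3 1).1,
        (a3 1).2, (a3 0).1, (a3 0).2, (a1 0).1, (a1 0).2, (a1 7).1, (a1 7).2]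
  · refine int_small (x := -(lift (mact (M (pv 4 n)) d 3) - 3 * lift (mact (M (pv 3 n)) d 3)
      + 3 * lift (mact (M (pv 2 n)) d 3) - lift (mact (M (pv 1 n)) d 3)
      - 3 * (lift (mact (M (pv 0 n)) d 1) - lift (mact (M (pv 7 n)) d 1)))) ?_ ?_
    · push_cast [hJ, hb1, hb3, p0, p1, p2, p3, p4, p7]; ring
    · rw [abs_lt]; constructor <;> linarith [(a3 3).1, (a3 3).2, (a3 2).1, (a3 2).2, (a3 1).1,
        (a3 1).2, (a3 4).1, (a3 4).2, (a1 0).1, (a1 0).2, (a1 7).1, (a1 7).2]

theorem W_zero (n : ℤ) (d : V4) (hd : ∀ i, mact (M (pv i n)) d ∈ Bs) (j : Fin 4) :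
    ∑ i : Fin 8, (wt8 i * (M (pv i n) 3 j * J (pv i n) d 1 - 2 * (M (pv i n) 2 j * J (pv i n) d 2)
      + M (pv i n) 1 j * J (pv i n) d 3) + gt i * (M (pv i n) 1 j * J (pv i n) d 1)) = 0 := by
  obtain ⟨l0, l1, l2, l3, l4, l5, l6, l8, l9⟩ := lam_zero n d hd
  generalize hx : (fun i b => J (pv i n) d b) = x
  have hx' : ∀ i b, J (pv i n) d b = x i b := fun i b => by rw [← hx]
  simp only [hx'] at l0 l1 l2 l3 l4 l5 l6 l8 l9 ⊢
  fin_cases j
  · simp [Fin.sum_univ_eight, wt8, gt, pv, M, Nat.choose]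
    linear_combination (24 * n ^ 3) * l0 + (20 * n ^ 3) * l1 + (64 * n ^ 3) * l2
      + (6 * n - 12 * n ^ 3) * l3 + (4 * n ^ 2) * l5 - (16 * n ^ 2) * l6 + (4 * n) * l9
  · simp [Fin.sum_univ_eight, wt8, gt, pv, M, Nat.choose]
    linear_combination (- 12 * n ^ 2) * l1 + (48 * n ^ 2) * l2
      + 6 * l3 + (8 * n) * l5 - (8 * n) * l6 - l8 + l9
  · simp [Fin.sum_univ_eight, wt8, gt, pv, M, Nat.choose]
    linear_combination (- 12 * n) * l1 + (12 * n) * l2 - l4 + 2 * l5 - l6
  · simp [Fin.sum_univ_eight, wt8, gt, pv, M, Nat.choose]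
    linear_combination l0 - 2 * l1 + l2

theorem phase_zero (n : ℤ) (d : V4) (y : F4) (hd : ∀ i, mact (M (pv i n)) d ∈ Bs) :
    ∑ i : Fin 8, ph (wt8 i) (gt i) (fact (pv i n) d y).2 = 0 := by
  obtain ⟨c, e⟩ := y
  simp only [fact, ph_sub, ph_mact2, ph_tens, Finset.sum_sub_distrib]
  have h1 : ∑ i : Fin 8, ∑ j, ∑ l, (wt8 i * (M (pv i n) 3 j * M (pv i n) 1 l
      - 2 * (M (pv i n) 2 j * M (pv i n) 2 l)
      + M (pv i n) 1 j * M (pv i n) 3 l) + gt i * (M (pv i n) 1 j * M (pv i n) 1 l)) • e j l = 0 := by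
    rw [Finset.sum_comm]
    refine Finset.sum_eq_zero fun j _ => ?_
    rw [Finset.sum_comm]
    refine Finset.sum_eq_zero fun l _ => ?_
    rw [← Finset.sum_smul, R_zero, zero_smul]
  have h2 : ∑ i : Fin 8, ∑ j, (wt8 i * (M (pv i n) 3 j * J (pv i n) d 1
      - 2 * (M (pv i n) 2 j * J (pv i n) d 2)
      + M (pv i n) 1 j * J (pv i n) d 3) + gt i * (M (pv i n) 1 j * J (pv i n) d 1)) • c j = 0 := by
    rw [Finset.sum_comm]
    refine Finset.sum_eq_zero fun j _ => ?_
    rw [← Finset.sum_smul, W_zero n d hd, zero_smul]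
  rw [h1, h2, sub_zero]

/-! ### Characters and observables -/

/-- The character `e(t)`. -/
def ch (t : Tor) : ℂ := (AddCircle.toCircle t : ℂ)

theorem ch_add (s t : Tor) : ch (s + t) = ch s * ch t := by
  unfold ch; rw [AddCircle.toCircle_add, Circle.coe_mul]

theorem ch_zero : ch 0 = 1 := by
  unfold ch; rw [AddCircle.toCircle_zero, Circle.coe_one]

theorem ch_neg (t : Tor) : ch (-t) = starRingEnd ℂ (ch t) := by
  unfold ch; rw [AddCircle.toCircle_neg, Circle.coe_inv_eq_conj]

theorem norm_ch (t : Tor) : ‖ch t‖ = 1 := by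
  unfold ch; exact Circle.norm_coe _

theorem ch_sum {ι : Type*} (s : Finset ι) (f : ι → Tor) : ch (∑ i ∈ s, f i) = ∏ i ∈ s, ch (f i) := by
  classical
  induction s using Finset.induction_on with
  | empty => simp [ch_zero]
  | insert a s ha ih => rw [Finset.sum_insert ha, Finset.prod_insert ha, ch_add, ih]

theorem continuous_ch : Continuous ch := by
  unfold ch
  exact continuous_induced_dom.comp AddCircle.continuous_toCircle

theorem conj_iter_ch (m : ℕ) (t : Tor) : (⇑(starRingEnd ℂ))^[m] (ch t) = ch ((-1 : ℤ) ^ m • t) := by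
  induction m with
  | zero => simp
  | succ m ih =>
    rw [Function.iterate_succ_apply', ih, ← ch_neg, pow_succ]
    congr 1
    simp

theorem conj_iter_mul (m : ℕ) (a b : ℂ) : (⇑(starRingEnd ℂ))^[m] (a * b)
    = (⇑(starRingEnd ℂ))^[m] a * (⇑(starRingEnd ℂ))^[m] b := by
  induction m with
  | zero => simp
  | succ m ih => rw [Function.iterate_succ_apply', ih, map_mul, Function.iterate_succ_apply',
      Function.iterate_succ_apply']

theorem norm_conj_iter (m : ℕ) (a : ℂ) : ‖(⇑(starRingEnd ℂ))^[m] a‖ = ‖a‖ := by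
  induction m with
  | zero => simp
  | succ m ih => rw [Function.iterate_succ_apply', RCLike.norm_conj, ih]

theorem measurable_conj_iter (m : ℕ) : Measurable ((⇑(starRingEnd ℂ))^[m]) := by
  have h : Measurable (⇑(starRingEnd ℂ)) := Complex.continuous_conj.measurable
  exact h.iterate m

theorem continuous_ph (w g : ℤ) : Continuous (ph w g) := by
  unfold ph
  fun_prop

theorem measurableSet_Bs : MeasurableSet Bs := by
  have h : ∀ b : Fin 4, MeasurableSet {d : V4 | |lift (d b)| < 1/20} := by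
    intro b
    have h1 : Measurable (fun d : V4 => |lift (d b)|) := by
      have h2 : Measurable (fun d : V4 => lift (d b)) := measurable_lift.comp (measurable_pi_apply b)
      exact h2.abs
    exact measurableSet_lt h1 measurable_const
  exact (h 1).inter ((h 2).inter (h 3))

open Classical in
/-- The observables. -/
def obs (i : Fin 8) (x : Xs) : ℂ := if x.1 ∈ Bs then ch (ph (wt8 i) (gt i) x.2.2) else 0

theorem measurable_obs (i : Fin 8) : Measurable (obs i) := by
  classical
  unfold obs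
  refine Measurable.ite (measurable_fst measurableSet_Bs) ?_ measurable_const
  have h1 : Measurable (fun x : Xs => ph (wt8 i) (gt i) x.2.2) :=
    (continuous_ph _ _).measurable.comp (measurable_snd.comp measurable_snd)
  exact continuous_ch.measurable.comp h1

theorem norm_obs_le (i : Fin 8) (x : Xs) : ‖obs i x‖ ≤ 1 := by
  unfold obs
  split_ifs
  · rw [norm_ch]
  · simp

/-- The set of good `d`. -/
def Gs (n : ℤ) : Set V4 := {d | ∀ i : Fin 8, mact (M (pv i n)) d ∈ Bs}

theorem measurableSet_Gs (n : ℤ) : MeasurableSet (Gs n) := by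
  unfold Gs
  rw [Set.ofPred_forall]
  exact MeasurableSet.iInter fun i => (continuous_mact _).measurable measurableSet_Bs

open Classical in
theorem prod_obs (n : ℤ) (x : Xs) :
    ∏ i : Fin 8, obs i (act (pv i n) x) = if x.1 ∈ Gs n then 1 else 0 := by
  split_ifs with h
  · have : ∀ i : Fin 8, obs i (act (pv i n) x)
      = ch (ph (wt8 i) (gt i) (fact (pv i n) x.1 x.2).2) := by
      intro i
      unfold obs
      exact if_pos (h i)
    rw [Finset.prod_congr rfl fun i _ => this i, ← ch_sum, phase_zero n x.1 x.2 h, ch_zero]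
  · obtain ⟨i, hi⟩ := not_forall.1 h
    refine Finset.prod_eq_zero (Finset.mem_univ i) ?_
    unfold obs
    exact if_neg hi

theorem prod_obs' (n : ℤ) (x : Xs) :
    obs 0 x * ∏ i : Fin 7, obs i.succ (((Tm.toEquiv : Equiv.Perm Xs) ^ ((P i).eval n)) x)
      = (Gs n).indicator 1 x.1 := by
  classical
  have h := prod_obs n x
  rw [Fin.prod_univ_succ] at h
  have h0 : act (pv 0 n) x = x := by
    have : pv 0 n = 0 := by simp [pv]
    rw [this, act_zero]
  rw [h0] at h
  rw [Set.indicator_apply]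
  simp only [Pi.one_apply]
  rw [← h]
  congr 1
  refine Finset.prod_congr rfl fun i _ => ?_
  rw [Tm_pow, P_eval]

/-! ### Lower bound for the density -/

theorem lift_coe_of_mem (x : ℝ) (hx : |x| < 1/2) : lift (x : Tor) = x := by
  obtain ⟨n, hn⟩ := lift_coe_sub x
  have h1 := lift_mem (x : Tor)
  have h2 := abs_lt.1 hx
  have h3 : n = 0 := by
    refine int_small hn.symm ?_
    rw [abs_lt]
    constructor <;> linarith [h1.1, h1.2, h2.1, h2.2]
  rw [h3] at hn
  simp at hn
  linarith

theorem lift_sub_of (s t : Tor) (h : |lift s - lift t| < 1/2) : lift (s - t) = lift s - lift t := by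
  rw [← lift_coe_of_mem _ h, AddCircle.coe_sub, coe_lift, coe_lift]

/-- The cell of a point of the circle. -/
def cell (t : Tor) : Fin 20 :=
  ⟨(⌊20 * (lift t + 1/2)⌋).toNat % 20, Nat.mod_lt _ (by norm_num)⟩

theorem cell_close (s t : Tor) (h : cell s = cell t) : |lift s - lift t| < 1/20 := by
  have key : ∀ t : Tor, ((cell t : ℕ) : ℤ) = ⌊20 * (lift t + 1/2)⌋ := by
    intro t
    have h1 := lift_mem t
    have h2 : 0 ≤ ⌊20 * (lift t + 1/2)⌋ := Int.floor_nonneg.2 (by linarith [h1.1])
    have h3 : ⌊20 * (lift t + 1/2)⌋ < 20 := by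
      rw [Int.floor_lt]
      push_cast
      linarith [h1.2]
    simp only [cell]
    rw [Nat.mod_eq_of_lt]
    · exact Int.toNat_of_nonneg h2
    · omega
  have h1 := key s
  have h2 := key t
  rw [h] at h1
  have h3 : ⌊20 * (lift s + 1/2)⌋ = ⌊20 * (lift t + 1/2)⌋ := by rw [← h1, ← h2]
  have h4 := Int.abs_sub_lt_one_of_floor_eq_floor h3
  have h5 : 20 * (lift s + 1/2) - 20 * (lift t + 1/2) = 20 * (lift s - lift t) := by ring
  rw [h5, abs_mul] at h4
  norm_num at h4
  linarith

theorem mact_sub (A : Matrix (Fin 4) (Fin 4) ℤ) {V : Type*} [AddCommGroup V] (c c' : Fin 4 → V) :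
    mact A (c - c') = mact A c - mact A c' := by
  rw [eq_sub_iff_add_eq, ← mact_add, sub_add_cancel]

/-- `Fin 3` index set for the coordinates `1,2,3`. -/
theorem Gs_lower (n : ℤ) : ((20 : ℝ) ^ 24)⁻¹ ≤ (volume : Measure V4).real (Gs n) := by
  classical
  -- the cells
  let κ : V4 → (Fin 8 → Fin 3 → Fin 20) := fun d i b => cell (mact (M (pv i n)) d b.succ)
  have hsub : ∀ k : Fin 8 → Fin 3 → Fin 20, (volume : Measure V4) (κ ⁻¹' {k}) ≤ volume (Gs n) := by
    intro k
    rcases Set.eq_empty_or_nonempty (κ ⁻¹' {k}) with h | ⟨d', hd'⟩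
    · rw [h]; simp
    · have hs : κ ⁻¹' {k} ⊆ (fun d => d + (-d')) ⁻¹' (Gs n) := by
        intro d hd i
        rw [Set.mem_preimage, Set.mem_singleton_iff] at hd hd'
        have hc : ∀ b : Fin 3, |lift (mact (M (pv i n)) (d - d') b.succ)| < 1/20 := by
          intro b
          rw [mact_sub, Pi.sub_apply]
          have h1 : cell (mact (M (pv i n)) d b.succ) = cell (mact (M (pv i n)) d' b.succ) :=
            congrFun (congrFun (hd.trans hd'.symm) i) b
          have h2 := cell_close _ _ h1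
          rw [lift_sub_of _ _ (by linarith)]
          exact h2
        change mact (M (pv i n)) (d + -d') ∈ Bs
        rw [← sub_eq_add_neg]
        exact ⟨hc 0, hc 1, hc 2⟩
      refine (measure_mono hs).trans ?_
      rw [measure_preimage_add_right]
  have huniv : (volume : Measure V4) Set.univ ≤ ∑ k : Fin 8 → Fin 3 → Fin 20, volume (κ ⁻¹' {k}) := by
    have : (Set.univ : Set V4) = ⋃ k, κ ⁻¹' {k} := by
      ext d; simp
    rw [this]
    exact measure_iUnion_fintype_le _ _
  have h1 : (1 : ENNReal) ≤ (20 : ENNReal) ^ 24 * volume (Gs n) := by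
    calc (1 : ENNReal) = (volume : Measure V4) Set.univ := measure_univ.symm
      _ ≤ _ := huniv
      _ ≤ ∑ k : Fin 8 → Fin 3 → Fin 20, volume (Gs n) := Finset.sum_le_sum fun k _ => hsub k
      _ = _ := by
        rw [Finset.sum_const, nsmul_eq_mul, Finset.card_univ, Fintype.card_fun, Fintype.card_fun,
          Fintype.card_fin, Fintype.card_fin, Fintype.card_fin, ← pow_mul]
        norm_num
  have h2 : (1 : ℝ) ≤ (20 : ℝ) ^ 24 * (volume : Measure V4).real (Gs n) := by
    have := ENNReal.toReal_mono (by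
      refine ENNReal.mul_ne_top (by norm_num) (measure_ne_top _ _)) h1
    rw [ENNReal.toReal_mul] at this
    simpa [Measure.real] using this
  rw [inv_le_iff_one_le_mul₀ (by positivity)]
  linarith

/-! ### The polynomial averages do not tend to zero -/

/-- The polynomial average. -/
def Av (N : ℕ) (x : Xs) : ℂ := (1 / (N : ℂ)) * ∑ n ∈ Finset.Icc 1 N,
    ∏ i : Fin 7, obs i.succ (((Tm.toEquiv : Equiv.Perm Xs) ^ ((P i).eval (n : ℤ))) x)

theorem measurable_Av (N : ℕ) : Measurable (Av N) := by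
  unfold Av
  refine Measurable.const_mul ?_ _
  refine Finset.measurable_sum _ fun n _ => Finset.measurable_prod _ fun i _ => ?_
  have : (fun x => (((Tm.toEquiv : Equiv.Perm Xs) ^ ((P i).eval (n : ℤ))) x))
      = act ((P i).eval (n : ℤ)) := by
    funext x; exact Tm_pow _ _
  have h2 : (fun x => obs i.succ (((Tm.toEquiv : Equiv.Perm Xs) ^ ((P i).eval (n : ℤ))) x))
      = obs i.succ ∘ act ((P i).eval (n : ℤ)) := by
    funext x
    exact congrArg _ (congrFun this x)
  rw [h2]
  exact (measurable_obs _).comp (measurable_act _)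

theorem norm_Av_le (N : ℕ) (x : Xs) : ‖Av N x‖ ≤ 1 := by
  unfold Av
  rw [norm_mul]
  have h1 : ‖∑ n ∈ Finset.Icc 1 N,
      ∏ i : Fin 7, obs i.succ (((Tm.toEquiv : Equiv.Perm Xs) ^ ((P i).eval (n : ℤ))) x)‖ ≤ N := by
    refine (norm_sum_le _ _).trans ?_
    calc _ ≤ ∑ n ∈ Finset.Icc 1 N, (1 : ℝ) := by
          refine Finset.sum_le_sum fun n _ => ?_
          rw [norm_prod]
          exact Finset.prod_le_one (fun i _ => norm_nonneg _) fun i _ => norm_obs_le _ _
      _ = N := by simp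
  rcases Nat.eq_zero_or_pos N with h | h
  · subst h; simp
  · have hN : (0 : ℝ) < N := by exact_mod_cast h
    rw [norm_div, norm_one, Complex.norm_natCast, div_mul_eq_mul_div, one_mul, div_le_one hN]
    exact h1

theorem int_obs_Av (N : ℕ) (hN : 0 < N) :
    ((20 : ℝ) ^ 24)⁻¹ ≤ ‖∫ x : Xs, obs 0 x * Av N x‖ := by
  have hN' : (0 : ℝ) < N := by exact_mod_cast hN
  have h1 : ∀ x : Xs, obs 0 x * Av N x = ((((1 / (N : ℝ)) * ∑ n ∈ Finset.Icc 1 N,
      (Gs (n : ℤ)).indicator (1 : V4 → ℝ) x.1 : ℝ)) : ℂ) := by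
    intro x
    unfold Av
    push_cast
    rw [mul_left_comm, Finset.mul_sum]
    congr 1
    refine Finset.sum_congr rfl fun n _ => ?_
    rw [prod_obs' (n : ℤ) x]
    by_cases h : x.1 ∈ Gs (n : ℤ)
    · simp [Set.indicator_of_mem h]
    · simp [Set.indicator_of_notMem h]
  have hint : ∀ n : ℤ, ∫ x : Xs, (Gs n).indicator (1 : V4 → ℝ) x.1
      = (volume : Measure V4).real (Gs n) := by
    intro n
    have h3 : ∀ x : Xs, (Gs n).indicator (1 : V4 → ℝ) x.1
        = ((Prod.fst : Xs → V4) ⁻¹' (Gs n)).indicator (1 : Xs → ℝ) x := by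
      intro x; rfl
    rw [integral_congr_ae (Filter.Eventually.of_forall h3), integral_indicator_one
      (measurable_fst (measurableSet_Gs _))]
    have h4 : (Prod.fst : Xs → V4) ⁻¹' (Gs n) = (Gs n) ×ˢ (Set.univ : Set F4) := by
      ext x; simp
    rw [h4, Measure.real, Measure.volume_eq_prod, Measure.prod_prod, measure_univ, mul_one]
    rfl
  have hin : ∀ n : ℤ, Integrable (fun x : Xs => (Gs n).indicator (1 : V4 → ℝ) x.1) := by
    intro n
    have h3 : (fun x : Xs => (Gs n).indicator (1 : V4 → ℝ) x.1)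
        = ((Prod.fst : Xs → V4) ⁻¹' (Gs n)).indicator (1 : Xs → ℝ) := by
      funext x; rfl
    rw [h3]
    exact (integrable_const (1 : ℝ)).indicator (measurable_fst (measurableSet_Gs _))
  have h2 : ∫ x : Xs, obs 0 x * Av N x = (((1 / (N : ℝ)) * ∑ n ∈ Finset.Icc 1 N,
      (volume : Measure V4).real (Gs (n : ℤ)) : ℝ) : ℂ) := by
    rw [integral_congr_ae (Filter.Eventually.of_forall h1), integral_complex_ofReal,
      integral_const_mul, integral_finsetSum (Finset.Icc 1 N) (fun (n : ℕ) _ => hin (n : ℤ))]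
    simp only [hint]
  rw [h2, Complex.norm_real, Real.norm_eq_abs]
  refine le_trans ?_ (le_abs_self _)
  have h5 : ∑ _n ∈ Finset.Icc 1 N, ((20 : ℝ) ^ 24)⁻¹ ≤ ∑ n ∈ Finset.Icc 1 N,
      (volume : Measure V4).real (Gs (n : ℤ)) :=
    Finset.sum_le_sum fun n _ => Gs_lower (n : ℤ)
  rw [Finset.sum_const, Nat.card_Icc, add_tsub_cancel_right, nsmul_eq_mul] at h5
  rw [div_mul_eq_mul_div, one_mul, le_div_iff₀ hN', mul_comm]
  exact h5

theorem cs_lower {A φ : Xs → ℂ} (hA : Measurable A) (hA1 : ∀ x, ‖A x‖ ≤ 1)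
    (hφ1 : ∀ x, ‖φ x‖ ≤ 1) (δ : ℝ) (hδ : 0 ≤ δ) (h : δ ≤ ‖∫ x : Xs, φ x * A x‖) :
    δ ^ 2 ≤ ∫ x : Xs, ‖A x‖ ^ 2 := by
  have hAi : Integrable (fun x => ‖A x‖) (volume : Measure Xs) :=
    Integrable.of_bound (C := 1) hA.norm.aestronglyMeasurable
      (Filter.Eventually.of_forall fun x => by simpa using hA1 x)
  have hA2 : Integrable (fun x => ‖A x‖ ^ 2) (volume : Measure Xs) :=
    Integrable.of_bound (C := 1) (hA.norm.pow_const 2).aestronglyMeasurable
      (Filter.Eventually.of_forall fun x => by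
        rw [Real.norm_eq_abs, abs_of_nonneg (by positivity)]
        exact pow_le_one₀ (norm_nonneg _) (hA1 x))
  have h1 : δ ≤ ∫ x : Xs, ‖A x‖ := by
    refine h.trans ((norm_integral_le_integral_norm _).trans ?_)
    refine integral_mono_of_nonneg (Filter.Eventually.of_forall fun x => norm_nonneg _) hAi
      (Filter.Eventually.of_forall fun x => ?_)
    change ‖φ x * A x‖ ≤ ‖A x‖
    rw [norm_mul]
    exact mul_le_of_le_one_left (norm_nonneg _) (hφ1 x)
  have h2 : ∫ x : Xs, (2 * δ * ‖A x‖ - δ ^ 2) ≤ ∫ x : Xs, ‖A x‖ ^ 2 := by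
    refine integral_mono ((hAi.const_mul _).sub (integrable_const _)) hA2 fun x => ?_
    change 2 * δ * ‖A x‖ - δ ^ 2 ≤ ‖A x‖ ^ 2
    nlinarith [sq_nonneg (‖A x‖ - δ)]
  rw [integral_sub (hAi.const_mul _) (integrable_const _), integral_const_mul] at h2
  simp only [integral_const, probReal_univ, smul_eq_mul, one_mul] at h2
  nlinarith

theorem pavg_lower (N : ℕ) (hN : 0 < N) :
    (((20 : ℝ) ^ 24)⁻¹) ^ 2 ≤ pavg (volume : Measure Xs) Tm (fun i => obs i.succ) N :=
  cs_lower (measurable_Av N) (norm_Av_le N) (norm_obs_le 0) _ (by positivity)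
    (int_obs_Av N hN)

theorem not_tendsto_pavg :
    ¬ Tendsto (pavg (volume : Measure Xs) Tm (fun i => obs i.succ)) atTop (𝓝 0) := by
  intro h
  have h1 := ge_of_tendsto h (Filter.eventually_atTop.2 ⟨1, fun N hN => pavg_lower N hN⟩)
  have h2 : (0 : ℝ) < (((20 : ℝ) ^ 24)⁻¹) ^ 2 := by positivity
  linarith

/-! ### The box averages tend to zero -/

/-- The product over the box. -/
def Gf (h : Fin 4 → ℕ) (x : Xs) : ℂ := ∏ ε : Fin 4 → Bool,
  (⇑(starRingEnd ℂ))^[(Finset.univ.filter (fun j => ε j = true)).card]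
    (obs 4 (act (dot ε h) x))

theorem measurable_Gf (h : Fin 4 → ℕ) : Measurable (Gf h) := by
  unfold Gf
  refine Finset.measurable_prod _ fun ε _ => ?_
  exact (measurable_conj_iter _).comp ((measurable_obs 4).comp (measurable_act _))

theorem norm_Gf_le (h : Fin 4 → ℕ) (x : Xs) : ‖Gf h x‖ ≤ 1 := by
  unfold Gf
  rw [norm_prod]
  refine Finset.prod_le_one (fun i _ => norm_nonneg _) fun i _ => ?_
  rw [norm_conj_iter]
  exact norm_obs_le _ _

theorem fact_add (k : ℤ) (d : V4) (y z : F4) : fact k d (y + z) = fact k d y + fact k d z := by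
  refine Prod.ext (mact_add _ _ _) ?_
  simp only [fact, Prod.snd_add, Prod.fst_add, mact_add, mact2_add]
  funext a b
  simp only [Pi.add_apply, Pi.sub_apply, tens, smul_add]
  abel

theorem ph_add (w g : ℤ) (e e' : E4) : ph w g (e + e') = ph w g e + ph w g e' := by
  simp only [ph, Pi.add_apply]
  module

/-- the shift by `t` in `c_0` -/
def shf (t : Tor) : F4 := (Pi.single 0 t, 0)

theorem ph_shf (k : ℤ) (d : V4) (t : Tor) :
    ph 1 0 (fact k d (shf t)).2 = -((k ^ 3 * J k d 1 - 2 * k ^ 2 * J k d 2 + k * J k d 3) • t) := by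
  have h1 : mact2 (M k) (0 : E4) = 0 := by
    funext a b
    rw [mact2_apply]; simp
  simp only [fact, shf, ph_sub, ph_tens, h1]
  have h2 : ph 1 0 (0 : E4) = 0 := by simp [ph]
  rw [h2, zero_sub, Fin.sum_univ_four]
  simp only [Pi.single_apply]
  simp [M, Nat.choose]
  congr 1
  ring

theorem Gf_shift (h : Fin 4 → ℕ) (d : V4) (y : F4) (t : Tor) :
    Gf h (d, shf t + y) = ch (-(W0 h d • t)) * Gf h (d, y) := by
  have h1 : ch (-(W0 h d • t)) = ∏ ε : Fin 4 → Bool,
      (⇑(starRingEnd ℂ))^[(Finset.univ.filter (fun j => ε j = true)).card]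
        (ch (ph 1 0 (fact (dot ε h) d (shf t)).2)) := by
    rw [Finset.prod_congr rfl fun ε _ => conj_iter_ch _ _, ← ch_sum]
    congr 1
    rw [W0, Finset.sum_smul, ← Finset.sum_neg_distrib]
    refine Finset.sum_congr rfl fun ε _ => ?_
    rw [ph_shf, smul_neg, ← mul_smul]
    rfl
  rw [h1]
  unfold Gf
  rw [← Finset.prod_mul_distrib]
  refine Finset.prod_congr rfl fun ε _ => ?_
  rw [← conj_iter_mul]
  congr 1
  unfold obs
  have h4 : ((act (dot ε h) (d, shf t + y)).1 ∈ Bs) ↔ ((act (dot ε h) (d, y)).1 ∈ Bs) := Iff.rfl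
  by_cases hB : (act (dot ε h) (d, y)).1 ∈ Bs
  · rw [if_pos (h4.2 hB), if_pos hB]
    have h5 : (act (dot ε h) (d, shf t + y)).2.2
        = (fact (dot ε h) d (shf t)).2 + (act (dot ε h) (d, y)).2.2 := by
      change (fact (dot ε h) d (shf t + y)).2 = _
      rw [fact_add]; rfl
    rw [h5, ph_add, ch_add]
    rfl
  · rw [if_neg (fun hh => hB (h4.1 hh)), if_neg hB, mul_zero]

theorem exists_ch (z : ℤ) (hz : z ≠ 0) : ∃ t : Tor, ch (-(z • t)) ≠ 1 := by
  refine ⟨((1 / (2 * z) : ℝ) : Tor), fun h => ?_⟩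
  have h1 : (z • ((1 / (2 * z) : ℝ) : Tor)) = ((1 / 2 : ℝ) : Tor) := by
    have hz' : (z : ℝ) ≠ 0 := by exact_mod_cast hz
    rw [← AddCircle.coe_zsmul]
    congr 1
    rw [zsmul_eq_mul]
    field_simp
  rw [h1, ch_neg] at h
  have h2 : ch ((1 / 2 : ℝ) : Tor) = 1 := by
    have := congrArg (starRingEnd ℂ) h
    simpa using this
  unfold ch at h2
  rw [AddCircle.toCircle_apply_mk, Circle.coe_exp] at h2
  have h3 : ((2 * Real.pi / 1 * (1 / 2) : ℝ) : ℂ) * Complex.I = Real.pi * Complex.I := by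
    push_cast; ring
  rw [h3, Complex.exp_pi_mul_I] at h2
  norm_num at h2

theorem int_Gf_zero (h : Fin 4 → ℕ) (d : V4) (hd : W0 h d ≠ 0) : ∫ y : F4, Gf h (d, y) = 0 := by
  obtain ⟨t, ht⟩ := exists_ch _ hd
  have h1 : ∫ y : F4, Gf h (d, shf t + y) = ∫ y : F4, Gf h (d, y) :=
    integral_add_left_eq_self (fun y : F4 => Gf h (d, y)) (shf t)
  have h2 : ∫ y : F4, Gf h (d, shf t + y) = ch (-(W0 h d • t)) * ∫ y : F4, Gf h (d, y) := by
    rw [← integral_const_mul]
    exact integral_congr_ae (Filter.Eventually.of_forall fun y => Gf_shift h d y t)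
  rw [h2] at h1
  have h3 : (ch (-(W0 h d • t)) - 1) * ∫ y : F4, Gf h (d, y) = 0 := by
    rw [sub_mul, h1, one_mul, sub_self]
  rcases mul_eq_zero.1 h3 with h4 | h4
  · exact absurd (sub_eq_zero.1 h4) ht
  · exact h4

theorem measurable_W08 (h : Fin 4 → ℕ) : Measurable (W0 h) := by
  unfold W0
  refine Finset.measurable_sum _ fun ε _ => ?_
  refine Measurable.const_mul ?_ _
  exact (((measurable_J8 _ 1).const_mul _).sub ((measurable_J8 _ 2).const_mul _)).add
    ((measurable_J8 _ 3).const_mul _)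

theorem norm_int_Gf (h : Fin 4 → ℕ) :
    ‖∫ x : Xs, Gf h x‖ ≤ (volume {d : V4 | W0 h d = 0}).toReal := by
  have hm : MeasurableSet {d : V4 | W0 h d = 0} := measurable_W08 h (measurableSet_singleton 0)
  have hi : Integrable (Gf h) ((volume : Measure V4).prod (volume : Measure F4)) :=
    Integrable.of_bound (C := 1) (measurable_Gf h).aestronglyMeasurable
      (Filter.Eventually.of_forall (norm_Gf_le h))
  have h1 : ∫ x : Xs, Gf h x = ∫ d : V4, ∫ y : F4, Gf h (d, y) := by
    rw [Measure.volume_eq_prod]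
    exact integral_prod _ hi
  rw [h1]
  refine (norm_integral_le_integral_norm _).trans ?_
  have h2 : ∀ d : V4, ‖∫ y : F4, Gf h (d, y)‖ ≤ ({d : V4 | W0 h d = 0}).indicator (1 : V4 → ℝ) d := by
    intro d
    by_cases hd : W0 h d = 0
    · rw [Set.indicator_of_mem (show d ∈ {d : V4 | W0 h d = 0} from hd)]
      refine (norm_integral_le_integral_norm _).trans ?_
      have : ∫ y : F4, ‖Gf h (d, y)‖ ≤ ∫ y : F4, (1 : ℝ) := by
        refine integral_mono_of_nonneg (Filter.Eventually.of_forall fun x => norm_nonneg _)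
          (integrable_const _) (Filter.Eventually.of_forall fun y => norm_Gf_le h _)
      simpa using this
    · rw [int_Gf_zero h d hd, norm_zero]
      exact Set.indicator_nonneg (fun _ _ => by simp) _
  calc ∫ d : V4, ‖∫ y : F4, Gf h (d, y)‖
      ≤ ∫ d : V4, ({d : V4 | W0 h d = 0}).indicator (1 : V4 → ℝ) d :=
        integral_mono_of_nonneg (Filter.Eventually.of_forall fun x => norm_nonneg _)
          ((integrable_const (1 : ℝ)).indicator hm) (Filter.Eventually.of_forall h2)
    _ = _ := by rw [integral_indicator_one hm]; rfl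

theorem norm_box_le (H : ℕ) : ‖box (volume : Measure Xs) Tm (obs 4) H‖ ≤ (1 / (H : ℝ) ^ 4) *
    ∑ h ∈ Fintype.piFinset (fun _ : Fin 4 => Finset.range H),
      (volume {d : Fin 4 → Tor | W0 h d = 0}).toReal := by
  unfold box
  rw [norm_mul]
  refine mul_le_mul ?_ ?_ (norm_nonneg _) (by positivity)
  · rw [norm_div, norm_one, norm_pow, Complex.norm_natCast]
  · refine (norm_sum_le _ _).trans (Finset.sum_le_sum fun h _ => ?_)
    have h1 : (∫ x, ∏ ε : Fin (3 + 1) → Bool,
        (⇑(starRingEnd ℂ))^[(Finset.univ.filter (fun j => ε j = true)).card]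
          (obs 4 (((Tm.toEquiv : Equiv.Perm Xs) ^
            (∑ j, if ε j = true then (h j : ℤ) else 0)) x)) ∂(volume : Measure Xs))
        = ∫ x : Xs, Gf h x := by
      refine integral_congr_ae (Filter.Eventually.of_forall fun x => ?_)
      refine Finset.prod_congr rfl fun ε _ => ?_
      rw [Tm_pow]
      rfl
    rw [h1]
    exact norm_int_Gf h

/-- The second half of the counterexample. -/
theorem npart_of_box (hbox : Tendsto (fun H : ℕ => (1 / (H : ℝ) ^ 4) *
    ∑ h ∈ Fintype.piFinset (fun _ : Fin 4 => Finset.range H),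
      (volume {d : Fin 4 → Tor | W0 h d = 0}).toReal) atTop (𝓝 0)) : NPart := by
  refine ⟨Xs, inferInstance, instSBXs, volume, instPXs, Tm, mp_act 1, fun i => obs i.succ,
    fun i => measurable_obs _, fun i => ⟨1, norm_obs_le _⟩, ⟨3, ?_⟩, not_tendsto_pavg⟩
  exact squeeze_zero_norm norm_box_le hbox

end

end Pool.Agent.BLL
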