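import Pool.Agent.BLL.CharsDef

/-!
# Unipotent affine maps of the torus: invariance of Haar measure and the group of characters
-/

set_option autoImplicit false
open MeasureTheory Filter Topology

namespace Pool.Agent.BLL

theorem torus_mp (m : ℕ) (A : Matrix (Fin m) (Fin m) ℤ) (b : Fin m → UnitAddCircle)
    (T : (Fin m → UnitAddCircle) ≃ᵐ (Fin m → UnitAddCircle))
    (hT : ∀ x, T x = fun i => (∑ j, A i j • x j) + b i) :
    MeasurePreserving T (volume : Measure (Fin m → UnitAddCircle)) volume := by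
  classical
  let L : (Fin m → UnitAddCircle) →+ (Fin m → UnitAddCircle) :=
    { toFun := fun x i => ∑ j, A i j • x j
      map_zero' := by ext i; simp
      map_add' := by intro x y; ext i; simp [Finset.sum_add_distrib] }
  have hLc : Continuous L := by
    refine continuous_pi fun i => ?_
    have : Continuous fun x : Fin m → UnitAddCircle => ∑ j, A i j • x j :=
      continuous_finsetSum _ fun j _ => (continuous_apply j).zsmul _
    exact this
  have hTL : ∀ x, T x = L x + b := fun x => by rw [hT]; rfl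
  have hLs : Function.Surjective L := by
    intro y
    obtain ⟨x, hx⟩ := T.surjective (y + b)
    refine ⟨x, ?_⟩
    have := hTL x
    rw [hx] at this
    exact (add_right_cancel this).symm
  have h1 : MeasurePreserving L (volume : Measure (Fin m → UnitAddCircle)) volume :=
    L.measurePreserving hLc hLs rfl
  have h2 : MeasurePreserving (fun y : Fin m → UnitAddCircle => y + b) volume volume :=
    measurePreserving_add_right volume b
  have h3 := h2.comp h1
  have h4 : (T : (Fin m → UnitAddCircle) → (Fin m → UnitAddCircle))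
      = (fun y : Fin m → UnitAddCircle => y + b) ∘ L := by
    funext x; exact hTL x
  rw [h4]; exact h3

/-! ### characters -/

/-- the standard character of the circle -/
noncomputable def tc (t : UnitAddCircle) : ℂ := (AddCircle.toCircle t : ℂ)

lemma tc_norm (t : UnitAddCircle) : ‖tc t‖ = 1 := Circle.norm_coe _

lemma tc_add (s t : UnitAddCircle) : tc (s + t) = tc s * tc t := by
  simp [tc, AddCircle.toCircle_add]

lemma tc_zero : tc 0 = 1 := by simp [tc]

lemma tc_sum {α : Type*} (s : Finset α) (f : α → UnitAddCircle) :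
    tc (∑ i ∈ s, f i) = ∏ i ∈ s, tc (f i) := by
  classical
  induction s using Finset.induction_on with
  | empty => simp [tc_zero]
  | insert a s ha ih => rw [Finset.sum_insert ha, Finset.prod_insert ha, tc_add, ih]

lemma tc_neg (t : UnitAddCircle) : tc (-t) = (starRingEnd ℂ) (tc t) := by
  rw [tc, AddCircle.toCircle_neg, Circle.coe_inv_eq_conj]; rfl

lemma tc_eq_one_iff (t : UnitAddCircle) : tc t = 1 ↔ t = 0 := by
  constructor
  · intro h
    have h1 : AddCircle.toCircle t = AddCircle.toCircle (0 : UnitAddCircle) := by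
      apply Circle.ext
      rw [AddCircle.toCircle_zero]
      simpa [tc] using h
    exact AddCircle.injective_toCircle one_ne_zero h1
  · rintro rfl; exact tc_zero

lemma tc_continuous : Continuous tc := continuous_subtype_val.comp AddCircle.continuous_toCircle

lemma mFourier_eq (m : ℕ) (ξ : Fin m → ℤ) (x : Fin m → UnitAddCircle) :
    UnitAddTorus.mFourier ξ x = tc (∑ i, ξ i • x i) := by
  rw [tc_sum]
  show ∏ i, fourier (ξ i) (x i) = _
  refine Finset.prod_congr rfl fun i _ => ?_
  rw [fourier_apply]; rfl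

/-- the affine character -/
noncomputable def chE (m : ℕ) (φ : (Fin m → ℤ) × UnitAddCircle) (x : Fin m → UnitAddCircle) : ℂ :=
  tc (φ.2 + ∑ i, φ.1 i • x i)

lemma chE_continuous (m : ℕ) (φ : (Fin m → ℤ) × UnitAddCircle) : Continuous (chE m φ) := by
  refine tc_continuous.comp ?_
  refine continuous_const.add ?_
  have : Continuous fun x : Fin m → UnitAddCircle => ∑ i, φ.1 i • x i :=
    continuous_finsetSum _ fun j _ => (continuous_apply j).zsmul _
  exact this

/-- the dual action `u` as an endomorphism -/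
def uEnd (m : ℕ) (A : Matrix (Fin m) (Fin m) ℤ) (b : Fin m → UnitAddCircle) :
    AddMonoid.End ((Fin m → ℤ) × UnitAddCircle) where
  toFun φ := (fun j => ∑ i, A i j * φ.1 i, φ.2 + ∑ i, φ.1 i • b i)
  map_zero' := by ext <;> simp
  map_add' := by
    intro φ ψ
    ext
    · simp [mul_add, Finset.sum_add_distrib]
    · simp only [Prod.snd_add, Prod.fst_add, Pi.add_apply, add_smul, Finset.sum_add_distrib]
      abel

lemma uEnd_sub_one_fst (m : ℕ) (A : Matrix (Fin m) (Fin m) ℤ) (b : Fin m → UnitAddCircle)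
    (φ : (Fin m → ℤ) × UnitAddCircle) :
    ((uEnd m A b - 1) φ).1 = Matrix.vecMul φ.1 (A - 1) := by
  have h1 : ((uEnd m A b - 1) φ) = uEnd m A b φ - φ := rfl
  rw [h1, Matrix.vecMul_sub, Matrix.vecMul_one]
  funext j
  simp only [Prod.fst_sub, Pi.sub_apply]
  congr 1
  simp only [uEnd, Matrix.vecMul, dotProduct]
  show ∑ i, A i j * φ.1 i = _
  exact Finset.sum_congr rfl fun i _ => mul_comm _ _

lemma uEnd_sub_one_snd (m : ℕ) (A : Matrix (Fin m) (Fin m) ℤ) (b : Fin m → UnitAddCircle)
    (φ : (Fin m → ℤ) × UnitAddCircle) :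
    ((uEnd m A b - 1) φ).2 = ∑ i, φ.1 i • b i := by
  have h1 : ((uEnd m A b - 1) φ) = uEnd m A b φ - φ := rfl
  rw [h1]
  show (φ.2 + ∑ i, φ.1 i • b i) - φ.2 = _
  abel

lemma uEnd_nil (m : ℕ) (A : Matrix (Fin m) (Fin m) ℤ) (b : Fin m → UnitAddCircle)
    (hA : (A - 1) ^ m = 0) : (uEnd m A b - 1) ^ (m + 1) = 0 := by
  have h1 : ∀ (k : ℕ) (φ : (Fin m → ℤ) × UnitAddCircle),
      (((uEnd m A b - 1) ^ k) φ).1 = Matrix.vecMul φ.1 ((A - 1) ^ k) := by
    intro k
    induction k with
    | zero => intro φ; simp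
    | succ k ih =>
      intro φ
      rw [pow_succ', pow_succ]
      show ((uEnd m A b - 1) (((uEnd m A b - 1) ^ k) φ)).1 = _
      rw [uEnd_sub_one_fst, ih, Matrix.vecMul_vecMul]
  ext φ : 1
  rw [pow_succ']
  show (uEnd m A b - 1) (((uEnd m A b - 1) ^ m) φ) = 0
  have h2 : (((uEnd m A b - 1) ^ m) φ).1 = 0 := by rw [h1, hA]; simp
  refine Prod.ext ?_ ?_
  · rw [uEnd_sub_one_fst, h2]; simp
  · rw [uEnd_sub_one_snd, h2]; simp

lemma uEnd_isUnit (m : ℕ) (A : Matrix (Fin m) (Fin m) ℤ) (b : Fin m → UnitAddCircle)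
    (hA : (A - 1) ^ m = 0) : IsUnit (uEnd m A b) := by
  have h1 : IsNilpotent (uEnd m A b - 1) := ⟨m + 1, uEnd_nil m A b hA⟩
  have h2 := h1.isUnit_add_one
  simpa using h2

lemma chE_T (m : ℕ) (A : Matrix (Fin m) (Fin m) ℤ) (b : Fin m → UnitAddCircle)
    (φ : (Fin m → ℤ) × UnitAddCircle) (x : Fin m → UnitAddCircle) :
    chE m φ (fun i => (∑ j, A i j • x j) + b i) = chE m (uEnd m A b φ) x := by
  unfold chE
  congr 1
  show φ.2 + ∑ i, φ.1 i • ((∑ j, A i j • x j) + b i)
    = (φ.2 + ∑ i, φ.1 i • b i) + ∑ j, (∑ i, A i j * φ.1 i) • x j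
  simp only [smul_add, Finset.sum_add_distrib, Finset.sum_smul, Finset.smul_sum]
  rw [Finset.sum_comm (s := Finset.univ) (t := Finset.univ)
    (f := fun j i => (A i j * φ.1 i) • x j)]
  have : ∀ i j, φ.1 i • A i j • x j = (A i j * φ.1 i) • x j := by
    intro i j
    rw [smul_smul, mul_comm]
  simp only [this]
  abel

/-! ### the volume -/

lemma vol_eq (m : ℕ) : (volume : Measure (Fin m → UnitAddCircle))
    = Measure.pi (fun _ => AddCircle.haarAddCircle) := by
  have h : (volume : Measure UnitAddCircle) = AddCircle.haarAddCircle := by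
    rw [AddCircle.volume_eq_smul_haarAddCircle]; simp
  show Measure.pi (fun _ => (volume : Measure UnitAddCircle)) = _
  rw [h]

instance vol_prob (m : ℕ) : IsProbabilityMeasure (volume : Measure (Fin m → UnitAddCircle)) := by
  rw [vol_eq]; infer_instance

/-! ### torsion and atoms -/

lemma chE_tor (m : ℕ) (A : Matrix (Fin m) (Fin m) ℤ) (b : Fin m → UnitAddCircle)
    (φ : (Fin m → ℤ) × UnitAddCircle) (h : IsOfFinAddOrder φ) : uEnd m A b φ = φ := by
  rw [isOfFinAddOrder_iff_nsmul_eq_zero] at h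
  obtain ⟨n, hn, h⟩ := h
  have h1 : φ.1 = 0 := by
    have h2 : n • φ.1 = 0 := by
      have := congrArg Prod.fst h
      simpa using this
    exact (smul_eq_zero.mp h2).resolve_left hn.ne'
  refine Prod.ext ?_ ?_
  · show (fun j => ∑ i, A i j * φ.1 i) = φ.1
    rw [h1]; funext j; simp
  · show φ.2 + ∑ i, φ.1 i • b i = φ.2
    rw [h1]; simp

lemma tc_half : tc ((1 / 2 : ℝ) : UnitAddCircle) = -1 := by
  have h1 : tc ((1 / 2 : ℝ) : UnitAddCircle) * tc ((1 / 2 : ℝ) : UnitAddCircle) = 1 := by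
    rw [← tc_add, tc_eq_one_iff, ← AddCircle.coe_add]
    norm_num
  have h2 : tc ((1 / 2 : ℝ) : UnitAddCircle) ≠ 1 := by
    rw [Ne, tc_eq_one_iff, AddCircle.coe_eq_zero_iff]
    rintro ⟨n, hn⟩
    simp only [zsmul_eq_mul, mul_one] at hn
    have h3 : (2 * n : ℝ) = 1 := by linarith
    have h4 : (2 * n : ℤ) = 1 := by exact_mod_cast h3
    omega
  rcases mul_self_eq_one_iff.mp h1 with h | h
  · exact absurd h h2
  · exact h

lemma chE_integral (m : ℕ) (φ : (Fin m → ℤ) × UnitAddCircle) (h : φ.1 ≠ 0) :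
    ∫ x, chE m φ x = 0 := by
  classical
  obtain ⟨i, hi⟩ := Function.ne_iff.mp h
  have hi' : (φ.1 i : ℝ) ≠ 0 := by exact_mod_cast hi
  set g : Fin m → UnitAddCircle := Pi.single i ((1 / (2 * φ.1 i) : ℝ) : UnitAddCircle) with hg
  refine integral_eq_zero_of_add_right_eq_neg (μ := volume) (g := g) fun x => ?_
  unfold chE
  have h1 : φ.2 + ∑ j, φ.1 j • (x + g) j
      = (φ.2 + ∑ j, φ.1 j • x j) + ((1 / 2 : ℝ) : UnitAddCircle) := by
    simp only [Pi.add_apply, smul_add, Finset.sum_add_distrib]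
    rw [Finset.sum_eq_single (f := fun j => φ.1 j • g j) i, hg]
    · rw [Pi.single_eq_same, ← AddCircle.coe_zsmul, add_assoc]
      congr 3
      rw [zsmul_eq_mul]
      field_simp
    · intro j _ hj
      rw [hg, Pi.single_eq_of_ne hj, smul_zero]
    · intro h; exact absurd (Finset.mem_univ _) h
  rw [h1, tc_add, tc_half]; ring

lemma chE_zero_fst (m : ℕ) (φ : (Fin m → ℤ) × UnitAddCircle) (h : φ.1 = 0)
    (x : Fin m → UnitAddCircle) : chE m φ x = tc φ.2 := by
  unfold chE; rw [h]; simp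

lemma tc_nsmul (n : ℕ) (t : UnitAddCircle) : tc (n • t) = tc t ^ n := by
  induction n with
  | zero => simp [tc_zero]
  | succ n ih => rw [succ_nsmul, tc_add, ih, pow_succ]

lemma chE_atom (m : ℕ) (w : (Fin m → ℤ) × UnitAddCircle) (hw : ¬ IsOfFinAddOrder w) :
    Tendsto (fun U : ℕ => ((U : ℝ) ^ 2)⁻¹ *
    (∑ i ∈ Finset.range U, ∑ j ∈ Finset.range U, ∫ x, chE m (i • w - j • w) x).re) atTop
      (𝓝 0) := by
  classical
  by_cases hξ : w.1 = 0
  · -- constants
    have hθ : w.2 ≠ 0 := by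
      intro h0
      apply hw
      have : w = 0 := Prod.ext hξ h0
      rw [this]; exact IsOfFinAddOrder.zero
    set z : ℂ := tc w.2 with hz
    have hz1 : z ≠ 1 := by rw [hz, Ne, tc_eq_one_iff]; exact hθ
    have hzn : ‖z‖ = 1 := tc_norm _
    have h1 : ∀ i j : ℕ, ∫ x, chE m (i • w - j • w) x = z ^ i * (starRingEnd ℂ) (z ^ j) := by
      intro i j
      have h2 : ∀ x, chE m (i • w - j • w) x = z ^ i * (starRingEnd ℂ) (z ^ j) := by
        intro x
        rw [chE_zero_fst]
        · simp only [Prod.snd_sub, Prod.smul_snd]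
          rw [sub_eq_add_neg, tc_add, tc_neg, tc_nsmul, tc_nsmul]
        · simp [hξ]
      simp only [h2]
      simp
    have h3 : ∀ U : ℕ, (∑ i ∈ Finset.range U, ∑ j ∈ Finset.range U,
        ∫ x, chE m (i • w - j • w) x).re = ‖∑ i ∈ Finset.range U, z ^ i‖ ^ 2 := by
      intro U
      simp only [h1]
      rw [← Finset.sum_mul_sum, ← map_sum, Complex.mul_conj, Complex.ofReal_re,
        Complex.normSq_eq_norm_sq]
    simp only [h3]
    have h4 : ∀ U : ℕ, ‖∑ i ∈ Finset.range U, z ^ i‖ ≤ 2 / ‖z - 1‖ := by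
      intro U
      rw [geom_sum_eq hz1, norm_div]
      have : ‖z ^ U - 1‖ ≤ 2 := by
        calc ‖z ^ U - 1‖ ≤ ‖z ^ U‖ + ‖(1:ℂ)‖ := norm_sub_le _ _
          _ = 2 := by rw [norm_pow, hzn]; norm_num
      gcongr
    have h5 : Tendsto (fun U : ℕ => ((U : ℝ) ^ 2)⁻¹ * (2 / ‖z - 1‖) ^ 2) atTop
        (𝓝 (0 * (2 / ‖z - 1‖) ^ 2)) := by
      refine Tendsto.mul_const _ ?_
      exact (tendsto_pow_atTop (two_ne_zero)).comp tendsto_natCast_atTop_atTop |>.inv_tendsto_atTop
    rw [zero_mul] at h5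
    refine squeeze_zero (fun U => by positivity) (fun U => ?_) h5
    gcongr
    exact h4 U
  · -- nonconstant characters
    have h1 : ∀ i j : ℕ, ∫ x, chE m (i • w - j • w) x = if i = j then 1 else 0 := by
      intro i j
      split_ifs with hij
      · subst hij
        simp only [sub_self]
        have : ∀ x, chE m 0 x = 1 := by
          intro x
          rw [chE_zero_fst m 0 rfl]; exact tc_zero
        simp only [this]
        simp
      · refine chE_integral m _ ?_
        intro h0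
        have h2 : ((i : ℤ) - (j : ℤ)) • w.1 = 0 := by
          rw [sub_smul, natCast_zsmul, natCast_zsmul]
          simpa using h0
        rcases smul_eq_zero.mp h2 with h3 | h3
        · exact hij (by omega)
        · exact hξ h3
    have h2 : ∀ U : ℕ, (∑ i ∈ Finset.range U, ∑ j ∈ Finset.range U,
        ∫ x, chE m (i • w - j • w) x).re = U := by
      intro U
      simp only [h1]
      have : ∑ i ∈ Finset.range U, ∑ j ∈ Finset.range U, (if i = j then (1:ℂ) else 0) = U := by
        rw [Finset.sum_congr rfl (g := fun _ => (1:ℂ))]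
        · simp
        · intro i hi
          rw [Finset.sum_ite_eq]; simp only [hi, if_true]
      rw [this]; simp
    simp only [h2]
    have h3 : (fun U : ℕ => ((U : ℝ) ^ 2)⁻¹ * (U : ℝ)) = fun U : ℕ => ((U:ℝ))⁻¹ := by
      funext U
      rcases Nat.eq_zero_or_pos U with h | h
      · subst h; simp
      · have : (U:ℝ) ≠ 0 := by exact_mod_cast h.ne'
        field_simp
    rw [h3]
    exact tendsto_inv_atTop_nhds_zero_nat

lemma chE_dense (m : ℕ) (f : (Fin m → UnitAddCircle) → ℂ) (hf : BM f)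
    (R : Set ((Fin m → ℤ) × UnitAddCircle))
    (hR : ∀ φ ∈ R, ∫ x, f x * (starRingEnd ℂ) (chE m φ x) = 0) (ε : ℝ) (hε : 0 < ε) :
    ∃ g ∈ Submodule.span ℂ (chE m '' Rᶜ), ∫ x, ‖f x - g x‖ < ε := by
  classical
  set μ : Measure (Fin m → UnitAddCircle) := Measure.pi (fun _ => AddCircle.haarAddCircle) with hμ
  have hv : (volume : Measure (Fin m → UnitAddCircle)) = μ := vol_eq m
  have : IsProbabilityMeasure μ := by rw [hμ]; infer_instance
  obtain ⟨hfm, C, hC⟩ := hf
  have hL : MemLp f 2 μ := MemLp.of_bound hfm.aestronglyMeasurable C (Eventually.of_forall hC)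
  have hs := UnitAddTorus.hasSum_mFourier_series_L2 (d := Fin m) (hL.toLp f)
  have hcoef : ∀ ξ : Fin m → ℤ, UnitAddTorus.mFourierCoeff (hL.toLp f) ξ
      = ∫ x, f x * (starRingEnd ℂ) (chE m (ξ, 0) x) := by
    intro ξ
    rw [hv]
    have h1 : UnitAddTorus.mFourierCoeff (hL.toLp f) ξ
      = ∫ t, UnitAddTorus.mFourier (-ξ) t • (hL.toLp f) t ∂μ := rfl
    rw [h1]
    refine integral_congr_ae ?_
    filter_upwards [hL.coeFn_toLp] with x hx
    rw [hx, UnitAddTorus.mFourier_neg, mFourier_eq, smul_eq_mul, mul_comm]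
    simp [chE]
  obtain ⟨s, hs⟩ := (Metric.tendsto_nhds.mp hs ε hε).exists
  set co : (Fin m → ℤ) → ℂ := fun ξ => UnitAddTorus.mFourierCoeff (hL.toLp f) ξ with hco
  refine ⟨∑ ξ ∈ s, co ξ • chE m (ξ, 0), ?_, ?_⟩
  · refine Submodule.sum_mem _ fun ξ _ => ?_
    by_cases h0 : co ξ = 0
    · rw [h0, zero_smul]; exact Submodule.zero_mem _
    · refine Submodule.smul_mem _ _ (Submodule.subset_span ⟨(ξ, 0), ?_, rfl⟩)
      intro hmem
      exact h0 ((hcoef ξ).trans (hR _ hmem))
  · rw [hv]
    set F : C(UnitAddTorus (Fin m), ℂ) := ∑ ξ ∈ s, co ξ • UnitAddTorus.mFourier ξ with hF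
    have hFg : ∀ x, (∑ ξ ∈ s, co ξ • chE m (ξ, 0)) x = F x := by
      intro x
      rw [hF, Finset.sum_apply, ContinuousMap.coe_sum, Finset.sum_apply]
      refine Finset.sum_congr rfl fun ξ _ => ?_
      rw [ContinuousMap.coe_smul, Pi.smul_apply, Pi.smul_apply, mFourier_eq]
      simp [chE]
    have hFL : MemLp F 2 μ := by
      refine MemLp.of_bound F.continuous.aestronglyMeasurable ‖F‖ (Eventually.of_forall fun x => ?_)
      exact F.norm_coe_le_norm x
    have hG : (∑ ξ ∈ s, UnitAddTorus.mFourierCoeff (hL.toLp f) ξ •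
        UnitAddTorus.mFourierLp 2 ξ) = hFL.toLp F := by
      have h1 : (∑ ξ ∈ s, UnitAddTorus.mFourierCoeff (hL.toLp f) ξ •
        UnitAddTorus.mFourierLp 2 ξ) = ContinuousMap.toLp (E := ℂ) 2 μ ℂ F := by
        rw [hF, map_sum]
        refine Finset.sum_congr rfl fun ξ _ => ?_
        rw [map_smul]
        rfl
      rw [h1]
      rfl
    rw [dist_comm] at hs
    have h2 : dist (hL.toLp f) (hFL.toLp F) < ε := by
      rw [← hG]; exact hs
    rw [Lp.dist_def] at h2
    have h3 : eLpNorm (fun x => f x - F x) 2 μ = eLpNorm (⇑(hL.toLp f) - ⇑(hFL.toLp F)) 2 μ := by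
      refine eLpNorm_congr_ae ?_
      filter_upwards [hL.coeFn_toLp, hFL.coeFn_toLp] with x hx hx'
      rw [Pi.sub_apply, hx, hx']
    rw [← h3] at h2
    have h4 : MemLp (fun x => f x - F x) 2 μ := hL.sub hFL
    have h5 : ∫ x, ‖f x - F x‖ ∂μ = (eLpNorm (fun x => f x - F x) 1 μ).toReal := by
      rw [eLpNorm_one_eq_lintegral_enorm, integral_norm_eq_lintegral_enorm h4.aestronglyMeasurable]
    simp only [hFg]
    rw [h5]
    refine lt_of_le_of_lt ?_ h2
    refine ENNReal.toReal_mono h4.eLpNorm_lt_top.ne ?_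
    exact eLpNorm_le_eLpNorm_of_exponent_le (by norm_num) h4.aestronglyMeasurable

/-- Haar measure on the torus with its characters is a system with a group of characters. -/
theorem torus_chars (m : ℕ) (A : Matrix (Fin m) (Fin m) ℤ) (b : Fin m → UnitAddCircle)
    (T : (Fin m → UnitAddCircle) ≃ᵐ (Fin m → UnitAddCircle))
    (hA : (A - 1) ^ m = 0) (hT : ∀ x, T x = fun i => (∑ j, A i j • x j) + b i) :
    Nonempty (Chars (volume : Measure (Fin m → UnitAddCircle)) T
      ((Fin m → ℤ) × UnitAddCircle)) := by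
  refine ⟨{
    E := chE m
    meas := fun φ => (chE_continuous m φ).measurable
    norm := fun φ x => tc_norm _
    add := fun φ ψ x => ?_
    u := (uEnd_isUnit m A b hA).unit
    E_T := fun φ x => ?_
    nil := ⟨m + 1, uEnd_nil m A b hA⟩
    tor := fun φ h => chE_tor m A b φ h
    atom := fun w hw => chE_atom m w hw
    dense := fun f hf R hR ε hε => chE_dense m f hf R hR ε hε }⟩
  · show tc _ = tc _ * tc _
    rw [← tc_add]
    congr 1
    simp only [Prod.snd_add, Prod.fst_add, Pi.add_apply, add_smul, Finset.sum_add_distrib]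
    abel
  · rw [hT]
    exact chE_T m A b φ x

end Pool.Agent.BLL
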