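import Pool.Agent.BLL.WMain
import Pool.Agent.BLL.NSys
import Pool.Agent.BLL.NBox
import Pool.Agent.BLL.Torus

/-!
# The two halves of the counterexample
-/

set_option autoImplicit false
open MeasureTheory Filter Topology Polynomial

namespace Pool.Agent.BLL

theorem wpart : WPart := by
  intro m A b T hA hT f hf hb ⟨i, hi⟩
  obtain ⟨c⟩ := torus_chars m A b T hA hT
  exact wmain (torus_mp m A b T hT) c (fun i => ⟨hf i, hb i⟩) i hi

theorem npart : NPart := npart_of_box box_small

theorem deg_pos {p : Polynomial ℤ} (a b : ℤ) (h : p.eval a ≠ p.eval b) : 0 < p.natDegree := by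
  rw [Nat.pos_iff_ne_zero]
  intro h0
  rw [Polynomial.eq_C_of_natDegree_eq_zero h0] at h
  simp at h

theorem deg1 : ∀ i, 0 < (P i).natDegree := by
  intro i
  refine deg_pos 0 1 ?_
  rw [P_eval, P_eval]
  fin_cases i <;> decide

theorem deg2 : ∀ i j, i ≠ j → 0 < (P i - P j).natDegree := by
  intro i j hij
  have key : ∀ i j : Fin 7, i ≠ j → pv i.succ 0 - pv j.succ 0 ≠ pv i.succ 1 - pv j.succ 1 ∨
      pv i.succ 0 - pv j.succ 0 ≠ pv i.succ 2 - pv j.succ 2 := by decide
  rcases key i j hij with h | h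
  · refine deg_pos 0 1 ?_
    rw [Polynomial.eval_sub, Polynomial.eval_sub, P_eval, P_eval, P_eval, P_eval]
    exact h
  · refine deg_pos 0 2 ?_
    rw [Polynomial.eval_sub, Polynomial.eval_sub, P_eval, P_eval, P_eval, P_eval]
    exact h

end Pool.Agent.BLL
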