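import Pool.Agent.BLL.Equi

/-!
# Limits along invariant averages; examples of invariant averages
-/

set_option autoImplicit false
open Filter Topology

namespace Pool.Agent.BLL

noncomputable section

variable {σ τ G G' V : Type*} [AddCommGroup G] [AddCommGroup G'] [AddCommGroup V]

/-! ### Operations on invariant sequences -/

omit [AddCommGroup G] [AddCommGroup G'] in
theorem avg_prod (S : Finset σ) (T : Finset τ) (π : σ → G) (ρ : τ → G') (a : G × G' → ℂ) :
    avg (S ×ˢ T) (Prod.map π ρ) a = avg S π (fun g => avg T ρ (fun g' => a (g, g'))) := by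
  unfold avg
  rw [Finset.sum_product, Finset.card_product, Nat.cast_mul, mul_inv]
  simp only [Prod.map]
  rw [← Finset.mul_sum]
  ring

omit [AddCommGroup G] [AddCommGroup G'] in
theorem avg_prod' (S : Finset σ) (T : Finset τ) (π : σ → G) (ρ : τ → G') (a : G × G' → ℂ) :
    avg (S ×ˢ T) (Prod.map π ρ) a = avg T ρ (fun g' => avg S π (fun g => a (g, g'))) := by
  unfold avg
  rw [Finset.sum_product_right, Finset.card_product, Nat.cast_mul, mul_inv]
  simp only [Prod.map]
  rw [← Finset.mul_sum]
  ring

theorem InvSeq.prod {S : ℕ → Finset σ} {T : ℕ → Finset τ} {π : σ → G} {ρ : τ → G'}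
    (hS : InvSeq S π) (hT : InvSeq T ρ) :
    InvSeq (fun H => S H ×ˢ T H) (Prod.map π ρ) := by
  refine ⟨?_, ?_⟩
  · filter_upwards [hS.ne, hT.ne] with H h1 h2
    exact h1.product h2
  · rintro ⟨v, w⟩
    obtain ⟨δ, hδ, h1⟩ := hS.inv v
    obtain ⟨η, hη, h2⟩ := hT.inv w
    refine ⟨fun H => |δ H| + |η H|, by simpa using hδ.abs.add hη.abs, ?_⟩
    intro H a C ha
    have hC : 0 ≤ C := (norm_nonneg _).trans (ha 0)
    have e : avg (S H ×ˢ T H) (Prod.map π ρ) (fun h => a (h + (v, w)))
        - avg (S H ×ˢ T H) (Prod.map π ρ) a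
        = avg (T H) ρ (fun g' => avg (S H) π (fun g => a (g + v, g' + w))
            - avg (S H) π (fun g => a (g, g' + w)))
          + avg (S H) π (fun g => avg (T H) ρ (fun g' => a (g, g' + w))
            - avg (T H) ρ (fun g' => a (g, g'))) := by
      rw [avg_sub, avg_sub]
      have e1 : avg (S H ×ˢ T H) (Prod.map π ρ) (fun h => a (h + (v, w)))
          = avg (T H) ρ (fun g' => avg (S H) π (fun g => a (g + v, g' + w))) := by
        rw [avg_prod']; rfl
      have e2 : avg (T H) ρ (fun g' => avg (S H) π (fun g => a (g, g' + w)))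
          = avg (S H) π (fun g => avg (T H) ρ (fun g' => a (g, g' + w))) := by
        rw [← avg_prod' (S H) (T H) π ρ (fun p => a (p.1, p.2 + w)), avg_prod]
      rw [e1, e2, avg_prod]
      ring
    rw [e]
    refine (norm_add_le _ _).trans ?_
    rw [mul_add]
    refine add_le_add ?_ ?_
    · refine norm_avg_le _ _ _ (by positivity) fun g' => ?_
      refine (h1 H (fun g => a (g, g' + w)) C (fun h => ha _)).trans ?_
      gcongr
      exact le_abs_self _
    · refine norm_avg_le _ _ _ (by positivity) fun g => ?_
      refine (h2 H (fun g' => a (g, g')) C (fun h => ha _)).trans ?_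
      gcongr
      exact le_abs_self _

theorem InvSeq.map {S : ℕ → Finset σ} {π : σ → G} (hS : InvSeq S π) (φ : G →+ G')
    (hφ : Function.Surjective φ) : InvSeq S (fun s => φ (π s)) := by
  refine ⟨hS.ne, fun v => ?_⟩
  obtain ⟨u, rfl⟩ := hφ v
  obtain ⟨δ, hδ, h1⟩ := hS.inv u
  refine ⟨δ, hδ, fun H a C ha => ?_⟩
  have := h1 H (fun g => a (φ g)) C (fun h => ha _)
  simpa only [avg, map_add] using this

/-- It suffices to check generators. -/
theorem InvSeq.of_gens {S : ℕ → Finset σ} {π : σ → G} {gens : Set G}
    (hg : AddSubgroup.closure gens = ⊤) (ne : ∀ᶠ H in atTop, (S H).Nonempty)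
    (inv : ∀ v ∈ gens, ∃ δ : ℕ → ℝ, Tendsto δ atTop (𝓝 0) ∧ ∀ (H : ℕ) (a : G → ℂ) (C : ℝ),
    (∀ h, ‖a h‖ ≤ C) → ‖avg (S H) π (fun h => a (h + v)) - avg (S H) π a‖ ≤ C * δ H) :
    InvSeq S π := by
  refine ⟨ne, fun v => ?_⟩
  have hv : v ∈ AddSubgroup.closure gens := by rw [hg]; trivial
  induction hv using AddSubgroup.closure_induction with
  | mem g hg => exact inv g hg
  | zero => exact ⟨fun _ => 0, tendsto_const_nhds, fun H a C _ => by simp⟩
  | add x y _ _ hx hy =>
    obtain ⟨δ, hδ, h1⟩ := hx
    obtain ⟨η, hη, h2⟩ := hy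
    refine ⟨fun H => δ H + η H, by simpa using hδ.add hη, fun H a C ha => ?_⟩
    have e : avg (S H) π (fun h => a (h + (x + y))) - avg (S H) π a
        = (avg (S H) π (fun h => a (h + x + y)) - avg (S H) π (fun h => a (h + y)))
          + (avg (S H) π (fun h => a (h + y)) - avg (S H) π a) := by
      simp only [add_assoc]; ring
    rw [e, mul_add]
    refine (norm_add_le _ _).trans (add_le_add ?_ (h2 H a C ha))
    exact h1 H (fun h => a (h + y)) C (fun h => ha _)
  | neg x _ hx =>
    obtain ⟨δ, hδ, h1⟩ := hx
    refine ⟨δ, hδ, fun H a C ha => ?_⟩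
    have := h1 H (fun h => a (h + -x)) C (fun h => ha _)
    simp only [add_neg_cancel_right] at this
    rwa [norm_sub_rev] at this

/-! ### One-dimensional intervals -/

theorem invSeq_Icc : InvSeq (fun N : ℕ => Finset.Icc 1 N) (fun n : ℕ => (n : ℤ)) := by
  refine InvSeq.of_gens (gens := {1}) (by
    rw [← AddSubgroup.zmultiples_eq_closure]; exact Int.zmultiples_one) ?_ ?_
  · filter_upwards [eventually_ge_atTop 1] with N hN
    exact ⟨1, by simp [hN]⟩
  · intro v hv
    rw [Set.mem_singleton_iff] at hv
    subst hv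
    refine ⟨fun N => 2 * (N : ℝ)⁻¹, by
      simpa using (tendsto_inv_atTop_nhds_zero_nat (𝕜 := ℝ)).const_mul 2, ?_⟩
    intro N a C ha
    have hC : 0 ≤ C := (norm_nonneg _).trans (ha 0)
    unfold avg
    rw [← mul_sub, ← Finset.sum_sub_distrib, norm_mul, norm_inv, Complex.norm_natCast,
      Nat.card_Icc, Nat.add_sub_cancel]
    have tel : ∑ x ∈ Finset.Icc 1 N, (a ((x : ℤ) + 1) - a x) = a (N + 1) - a 1 := by
      induction N with
      | zero => simp
      | succ N ih =>
        rw [Finset.sum_Icc_succ_top (by omega), ih]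
        push_cast
        ring
    rw [tel]
    have : ‖a ((N : ℤ) + 1) - a 1‖ ≤ 2 * C := by
      refine (norm_sub_le _ _).trans ?_
      linarith [ha ((N : ℤ) + 1), ha 1]
    calc (N : ℝ)⁻¹ * ‖a ((N : ℤ) + 1) - a 1‖ ≤ (N : ℝ)⁻¹ * (2 * C) := by gcongr
      _ = C * (2 * (N : ℝ)⁻¹) := by ring

/-! ### Cubes -/

/-- the discrete cube `[0,H)^r` -/
def cube (r : ℕ) (H : ℕ) : Finset (Fin r → ℕ) := Fintype.piFinset (fun _ => Finset.range H)

/-- cast to integers -/
def ci {r : ℕ} (h : Fin r → ℕ) : Fin r → ℤ := fun j => (h j : ℤ)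

theorem mem_cube {r H : ℕ} {h : Fin r → ℕ} : h ∈ cube r H ↔ ∀ j, h j < H := by
  simp [cube, Fintype.mem_piFinset]

theorem card_cube (r H : ℕ) : (cube r H).card = H ^ r := by
  simp [cube, Fintype.card_piFinset]

theorem card_face {r H : ℕ} (i : Fin r) (x : ℕ) (hx : x < H) :
    H * ((cube r H).filter (fun h => h i = x)).card = H ^ r := by
  have e : (cube r H).filter (fun h => h i = x)
      = Fintype.piFinset (Function.update (fun _ => Finset.range H) i {x}) := by
    ext h
    rw [Finset.mem_filter, mem_cube, Fintype.mem_piFinset]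
    constructor
    · rintro ⟨h1, h2⟩ j
      by_cases hj : j = i
      · subst hj; simp [h2]
      · rw [Function.update_of_ne hj]; exact Finset.mem_range.2 (h1 j)
    · intro h1
      have hi := h1 i
      rw [Function.update_self, Finset.mem_singleton] at hi
      refine ⟨fun j => ?_, hi⟩
      by_cases hj : j = i
      · subst hj; omega
      · have := h1 j
        rw [Function.update_of_ne hj] at this
        exact Finset.mem_range.1 this
  rw [e, Fintype.card_piFinset]
  have : ∏ a, (Function.update (fun _ => Finset.range H) i {x} a).card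
      = ∏ a : Fin r, if a = i then 1 else H := by
    refine Finset.prod_congr rfl fun a _ => ?_
    by_cases ha : a = i
    · subst ha; simp
    · simp [ha]
  rw [this]
  have h2 : H ^ r = ∏ a : Fin r, (if a = i then 1 else H) * (if a = i then H else 1) := by
    rw [← Fin.prod_const]
    refine Finset.prod_congr rfl fun a _ => ?_
    split_ifs <;> simp
  rw [h2, Finset.prod_mul_distrib, Finset.prod_ite_eq' Finset.univ i (fun _ => H)]
  simp [mul_comm]

theorem invSeq_cube (r : ℕ) : InvSeq (cube r) (ci (r := r)) := by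
  have hcl : AddSubgroup.closure (Set.range fun i : Fin r => (Pi.single i (1 : ℤ) : Fin r → ℤ)) = ⊤ := by
    rw [eq_top_iff]
    rintro x -
    have : x = ∑ i, x i • (Pi.single i (1 : ℤ) : Fin r → ℤ) := by
      funext j
      simp [Finset.sum_apply, Pi.single_apply]
    rw [this]
    refine AddSubgroup.sum_mem _ fun i _ => AddSubgroup.zsmul_mem _ ?_ _
    exact AddSubgroup.subset_closure ⟨i, rfl⟩
  refine InvSeq.of_gens hcl ?_ ?_
  · filter_upwards [eventually_ge_atTop 1] with H hH
    exact ⟨fun _ => 0, mem_cube.2 fun _ => by omega⟩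
  · rintro _ ⟨i, rfl⟩
    refine ⟨fun H => 2 * (H : ℝ)⁻¹, by
      simpa using (tendsto_inv_atTop_nhds_zero_nat (𝕜 := ℝ)).const_mul 2, ?_⟩
    intro H a C ha
    have hC : 0 ≤ C := (norm_nonneg _).trans (ha 0)
    rcases Nat.eq_zero_or_pos H with rfl | hH
    · have : cube r 0 = ∅ := by
        rw [Finset.eq_empty_iff_forall_notMem]
        intro h hh
        exact absurd (mem_cube.1 hh i) (by omega)
      simp [avg, this]
    unfold avg
    rw [← mul_sub, card_cube]
    -- split sums
    set f : (Fin r → ℕ) → ℂ := fun h => a (ci h) with hf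
    have hshift : ∀ h : Fin r → ℕ, a (ci h + Pi.single i 1) = f (Function.update h i (h i + 1)) := by
      intro h
      rw [hf]
      congr 1
      funext j
      by_cases hj : j = i
      · subst hj; simp [ci]
      · simp [ci, hj]
    simp only [hshift]
    have hbij : ∑ h ∈ (cube r H).filter (fun h => h i ≠ H - 1), f (Function.update h i (h i + 1))
        = ∑ h ∈ (cube r H).filter (fun h => h i ≠ 0), f h := by
      refine Finset.sum_nbij' (fun h => Function.update h i (h i + 1))
        (fun h => Function.update h i (h i - 1)) ?_ ?_ ?_ ?_ ?_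
      · intro h hh
        rw [Finset.mem_filter, mem_cube] at hh ⊢
        refine ⟨fun j => ?_, by simp⟩
        by_cases hj : j = i
        · subst hj
          have := hh.1 j
          have := hh.2
          simp only [Function.update_self]
          omega
        · simp [Function.update_of_ne hj, hh.1 j]
      · intro h hh
        rw [Finset.mem_filter, mem_cube] at hh ⊢
        have h1 := hh.1 i
        have h2 := hh.2
        refine ⟨fun j => ?_, ?_⟩
        · by_cases hj : j = i
          · subst hj
            simp only [Function.update_self]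
            omega
          · simp [Function.update_of_ne hj, hh.1 j]
        · simp only [Function.update_self]; omega
      · intro h hh
        funext j
        by_cases hj : j = i
        · subst hj; simp
        · simp [Function.update_of_ne hj]
      · intro h hh
        rw [Finset.mem_filter] at hh
        have h2 := hh.2
        funext j
        by_cases hj : j = i
        · subst hj
          simp only [Function.update_self]
          omega
        · simp [Function.update_of_ne hj]
      · intro h _; rfl
    have s1 := Finset.sum_filter_add_sum_filter_not (cube r H) (fun h => h i = H - 1)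
      (fun h => f (Function.update h i (h i + 1)))
    have s2 := Finset.sum_filter_add_sum_filter_not (cube r H) (fun h => h i = 0) f
    have hdiff : (∑ h ∈ cube r H, f (Function.update h i (h i + 1))) - ∑ h ∈ cube r H, f h
        = (∑ h ∈ (cube r H).filter (fun h => h i = H - 1), f (Function.update h i (h i + 1)))
          - ∑ h ∈ (cube r H).filter (fun h => h i = 0), f h := by
      rw [← s1, ← s2]
      have := hbij
      simp only [ne_eq] at this
      rw [this]
      ring
    rw [show (∑ s ∈ cube r H, a (ci s)) = ∑ h ∈ cube r H, f h from rfl, hdiff]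
    have hc1 := card_face i (H - 1) (show H - 1 < H by omega)
    have hc2 := card_face i 0 hH
    have hH' : (0 : ℝ) < H := by exact_mod_cast hH
    have b1 : ‖∑ h ∈ (cube r H).filter (fun h => h i = H - 1), f (Function.update h i (h i + 1))‖
        ≤ ((cube r H).filter (fun h => h i = H - 1)).card * C := by
      refine (norm_sum_le _ _).trans ?_
      refine (Finset.sum_le_sum fun s _ => ha _).trans (le_of_eq ?_)
      rw [Finset.sum_const, nsmul_eq_mul]
    have b2 : ‖∑ h ∈ (cube r H).filter (fun h => h i = 0), f h‖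
        ≤ ((cube r H).filter (fun h => h i = 0)).card * C := by
      refine (norm_sum_le _ _).trans ?_
      refine (Finset.sum_le_sum fun s _ => ha _).trans (le_of_eq ?_)
      rw [Finset.sum_const, nsmul_eq_mul]
    rw [norm_mul, norm_inv, Complex.norm_natCast]
    have k1 : (((cube r H).filter (fun h => h i = H - 1)).card : ℝ) = ((H ^ r : ℕ) : ℝ) * (H : ℝ)⁻¹ := by
      rw [← hc1]; push_cast; field_simp
    have k2 : (((cube r H).filter (fun h => h i = 0)).card : ℝ) = ((H ^ r : ℕ) : ℝ) * (H : ℝ)⁻¹ := by
      rw [← hc2]; push_cast; field_simp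
    rw [k1] at b1
    rw [k2] at b2
    have hp : (0 : ℝ) < ((H ^ r : ℕ) : ℝ) := by exact_mod_cast pow_pos hH r
    calc (((H ^ r : ℕ) : ℝ))⁻¹ * ‖_‖ ≤ (((H ^ r : ℕ) : ℝ))⁻¹ *
          (((H ^ r : ℕ) : ℝ) * (H : ℝ)⁻¹ * C + ((H ^ r : ℕ) : ℝ) * (H : ℝ)⁻¹ * C) := by
          refine mul_le_mul_of_nonneg_left ?_ (inv_nonneg.2 hp.le)
          exact (norm_sub_le _ _).trans (add_le_add b1 b2)
      _ = C * (2 * (H : ℝ)⁻¹) := by field_simp; ring

end

end Pool.Agent.BLL
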