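import Pool.Agent.BLL.Lim

/-!
# All invariant averages agree on `I ∘ P`
-/

set_option autoImplicit false
open Filter Topology

namespace Pool.Agent.BLL

noncomputable section

variable {V : Type*} [AddCommGroup V]

theorem closure_single (r : ℕ) :
    ∃ gens : Finset (Fin r → ℤ), AddSubgroup.closure (gens : Set (Fin r → ℤ)) = ⊤ := by
  classical
  refine ⟨Finset.univ.image (fun i : Fin r => (Pi.single i (1 : ℤ) : Fin r → ℤ)), ?_⟩
  rw [eq_top_iff]
  rintro x -
  have : x = ∑ i, x i • (Pi.single i (1 : ℤ) : Fin r → ℤ) := by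
    funext j
    simp [Finset.sum_apply, Pi.single_apply]
  rw [this]
  refine AddSubgroup.sum_mem _ fun i _ => AddSubgroup.zsmul_mem _ ?_ _
  exact AddSubgroup.subset_closure (by simp)

/-- A function on `ℤ^r` which is `M`-periodic has a limit along all invariant averages. -/
theorem lim_of_periodic {r : ℕ} {M : ℕ} (hM : M ≠ 0) {a : (Fin r → ℤ) → ℂ} {C : ℝ}
    (hC : ∀ h, ‖a h‖ ≤ C) (hper : ∀ x v, a (x + M • v) = a x) :
    ∃ c : ℂ, ∀ {σ : Type} (S : ℕ → Finset σ) (π : σ → (Fin r → ℤ)), InvSeq S π →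
      Tendsto (fun H => avg (S H) π a) atTop (𝓝 c) := by
  have : NeZero M := ⟨hM⟩
  set rep : (Fin r → ZMod M) → (Fin r → ℤ) := fun q j => ((q j).val : ℤ) with hrep
  set red : (Fin r → ℤ) → (Fin r → ZMod M) := fun h j => (h j : ZMod M) with hred
  have hred_rep : ∀ q, red (rep q) = q := by
    intro q; funext j; simp [hred, hrep]
  have hred_add : ∀ x y, red (x + y) = red x + red y := by
    intro x y; funext j; simp [hred]
  have hcong : ∀ x y, red x = red y → a x = a y := by
    intro x y hxy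
    have : ∃ v : Fin r → ℤ, y = x + M • v := by
      have h1 : ∀ j, ∃ k : ℤ, y j = x j + M * k := by
        intro j
        have := congrFun hxy j
        simp only [hred] at this
        have h2 := (ZMod.intCast_eq_intCast_iff_dvd_sub (x j) (y j) M).1 this
        obtain ⟨k, hk⟩ := h2
        exact ⟨k, by rw [← hk]; ring⟩
      choose v hv using h1
      refine ⟨v, ?_⟩
      funext j
      simp [hv j]
    obtain ⟨v, rfl⟩ := this
    rw [hper]
  set c : ℂ := ((Fintype.card (Fin r → ZMod M) : ℕ) : ℂ)⁻¹ * ∑ q, a (rep q) with hc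
  refine ⟨c, fun {σ} S π hS => ?_⟩
  have hcard : ((Fintype.card (Fin r → ZMod M) : ℕ) : ℂ) ≠ 0 := by
    exact_mod_cast Fintype.card_ne_zero
  have h1 : ∀ h, ((Fintype.card (Fin r → ZMod M) : ℕ) : ℂ)⁻¹ * ∑ q, a (h + rep q) = c := by
    intro h
    rw [hc]
    congr 1
    refine Fintype.sum_equiv (Equiv.addLeft (red h)) _ _ fun q => ?_
    apply hcong
    rw [hred_add, hred_rep, hred_rep]
    rfl
  have h2 : Tendsto (fun H => avg (S H) π
      (fun h => ((Fintype.card (Fin r → ZMod M) : ℕ) : ℂ)⁻¹ * ∑ q, a (h + rep q)) - avg (S H) π a)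
      atTop (𝓝 0) := by
    have e : ∀ H, avg (S H) π
        (fun h => ((Fintype.card (Fin r → ZMod M) : ℕ) : ℂ)⁻¹ * ∑ q, a (h + rep q)) - avg (S H) π a
        = ((Fintype.card (Fin r → ZMod M) : ℕ) : ℂ)⁻¹ * ∑ q,
          (avg (S H) π (fun h => a (h + rep q)) - avg (S H) π a) := by
      intro H
      rw [avg_mul, avg_sum, Finset.sum_sub_distrib, Finset.sum_const, Finset.card_univ,
        nsmul_eq_mul, mul_sub, ← mul_assoc, inv_mul_cancel₀ hcard, one_mul]
    simp only [e]
    have : Tendsto (fun H => ∑ q, (avg (S H) π (fun h => a (h + rep q)) - avg (S H) π a)) atTop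
        (𝓝 (∑ _q : Fin r → ZMod M, 0)) :=
      tendsto_finsetSum _ fun q _ => hS.tendsto (rep q) hC
    simpa using this.const_mul (((Fintype.card (Fin r → ZMod M) : ℕ) : ℂ)⁻¹)
  have h3 : (fun h => ((Fintype.card (Fin r → ZMod M) : ℕ) : ℂ)⁻¹ * ∑ q, a (h + rep q))
      = fun _ => c := by
    funext h; exact h1 h
  rw [h3] at h2
  have h4 : Tendsto (fun H => avg (S H) π (fun _ : Fin r → ℤ => c)) atTop (𝓝 c) := by
    refine tendsto_const_nhds.congr' ?_
    filter_upwards [hS.ne] with H hH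
    exact (avg_const hH π c).symm
  have h5 := h4.sub h2
  simpa using h5

/-- **All invariant averages agree on `I ∘ P`.** -/
theorem exists_lim {r : ℕ} {I : V → ℂ} (hI : PD I) {d : ℕ} {P : (Fin r → ℤ) → V}
    (hP : IsPoly d P) :
    ∃ c : ℂ, ∀ {σ : Type} (S : ℕ → Finset σ) (π : σ → (Fin r → ℤ)), InvSeq S π →
      Tendsto (fun H => avg (S H) π (fun h => I (P h))) atTop (𝓝 c) := by
  obtain ⟨gens, hgens⟩ := closure_single r
  by_cases hc : CMT P
  · have hRp : IsPoly d (fun x => P x - P 0) := hP.sub (isPoly_const d (P 0))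
    obtain ⟨E, hE0, hE⟩ := hRp.exponent hgens (fun x => hc x 0)
    refine lim_of_periodic (pow_ne_zero d hE0) (C := 1) (fun h => hI.le _) (fun x v => ?_)
    have := hRp.periodic hE v x
    simp only [sub_left_inj] at this
    rw [this]
  · exact ⟨0, fun S π hS => tendsto_avg_zero hS hI hgens d P hP hc⟩

end

end Pool.Agent.BLL
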