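import Mathlib

/-!
# Characteristic factors: definitions

`cube` is the average over the cubes of order `k`; its limit is the `2^k`-th power of the
uniformity seminorm of order `k`.  `IsHostKra μ T d Z` says that the σ-algebra `Z` is the Host–Kra
factor of order `d`: `E(f | Z) = 0` iff the seminorm of order `d+1` of `f` is `0`.
-/

set_option autoImplicit false
open MeasureTheory Filter Topology Polynomial

namespace Pool.Agent.BLL.Lit

noncomputable section

/-- `f` is measurable and bounded. -/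
def Bdd {X : Type*} [MeasurableSpace X] (f : X → ℂ) : Prop :=
  Measurable f ∧ ∃ C : ℝ, ∀ x, ‖f x‖ ≤ C

/-- The average over `h ∈ [0,H)^k` of the integral of the product of the functions
`C^{|ε|} f (T^{ε·h} x)` over the vertices `ε` of the cube of dimension `k`
(`C` is the complex conjugation). -/
def cube {X : Type*} [MeasurableSpace X] (μ : Measure X) (T : X ≃ᵐ X) (k : ℕ) (f : X → ℂ)
    (H : ℕ) : ℂ :=
  (1 / (H : ℂ) ^ k) * ∑ h ∈ Fintype.piFinset (fun _ : Fin k => Finset.range H),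
    ∫ x, ∏ ε : Fin k → Bool,
      (⇑(starRingEnd ℂ))^[(Finset.univ.filter (fun j => ε j = true)).card]
        (f (((T.toEquiv : Equiv.Perm X) ^ (∑ j, if ε j = true then (h j : ℤ) else 0)) x)) ∂μ

/-- The uniformity seminorm of order `k` of `f` is `0`. -/
def SeminormZero {X : Type*} [MeasurableSpace X] (μ : Measure X) (T : X ≃ᵐ X) (k : ℕ)
    (f : X → ℂ) : Prop :=
  Tendsto (cube μ T k f) atTop (𝓝 0)

/-- The polynomial average `(1/N) ∑_{n=1}^N ∏_i f_i (T^{P_i(n)} x)`. -/
def avg {X : Type*} [MeasurableSpace X] {l : ℕ} (T : X ≃ᵐ X) (P : Fin l → ℤ[X])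
    (f : Fin l → X → ℂ) (N : ℕ) (x : X) : ℂ :=
  (1 / (N : ℂ)) * ∑ n ∈ Finset.Icc 1 N,
    ∏ i, f i (((T.toEquiv : Equiv.Perm X) ^ ((P i).eval (n : ℤ))) x)

/-- The functions `F_N` tend to `0` in `L²`. -/
def TendsL2 {X : Type*} [MeasurableSpace X] (μ : Measure X) (F : ℕ → X → ℂ) : Prop :=
  Tendsto (fun N => ∫ x, ‖F N x‖ ^ 2 ∂μ) atTop (𝓝 0)

/-- A σ-algebra on `X` (a name for `MeasurableSpace X` that is not used as an instance). -/
def SigmaAlg (X : Type*) : Type _ := MeasurableSpace X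

/-- The σ-algebra `Z` is the Host–Kra factor of order `d`. -/
def IsHostKra {X : Type*} [mX : MeasurableSpace X] (μ : Measure X) (T : X ≃ᵐ X) (d : ℕ)
    (Z : SigmaAlg X) : Prop :=
  (∀ s : Set X, MeasurableSet[Z] s → MeasurableSet[mX] s) ∧
    ∀ f : X → ℂ, Bdd f → (μ[f | Z] =ᵐ[μ] 0 ↔ SeminormZero μ T (d + 1) f)

/-- `Z` is characteristic for the averages of `P`: the difference of the averages of the `f_i` and
of the averages of the `E(f_i | Z)` tends to `0` in `L²`. -/
def Characteristic {X : Type*} [MeasurableSpace X] {l : ℕ} (μ : Measure X) (T : X ≃ᵐ X)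
    (P : Fin l → ℤ[X]) (Z : SigmaAlg X) : Prop :=
  ∀ f : Fin l → X → ℂ, (∀ i, Bdd (f i)) →
    TendsL2 μ (fun N x => avg T P f N x - avg T P (fun i => μ[f i | Z]) N x)

/-- The averages of `P` tend to `0` in `L²` as soon as the seminorm of order `d+1` of one of the
functions is `0`. -/
def SeminormCharacteristic {X : Type*} [MeasurableSpace X] {l : ℕ} (μ : Measure X) (T : X ≃ᵐ X)
    (P : Fin l → ℤ[X]) (d : ℕ) : Prop :=
  ∀ f : Fin l → X → ℂ, (∀ i, Bdd (f i)) → (∃ i, SeminormZero μ T (d + 1) (f i)) →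
    TendsL2 μ (avg T P f)

/-- `SeminormCharacteristic` in every Weyl system: `T x = A x + b` on `𝕋^m`, `A` unipotent. -/
def InWeylSystems {l : ℕ} (P : Fin l → ℤ[X]) (d : ℕ) : Prop :=
  ∀ (m : ℕ) (A : Matrix (Fin m) (Fin m) ℤ) (b : Fin m → UnitAddCircle)
    (T : (Fin m → UnitAddCircle) ≃ᵐ (Fin m → UnitAddCircle)),
    (A - 1) ^ m = 0 → (∀ x, T x = fun i => (∑ j, A i j • x j) + b i) →
    SeminormCharacteristic volume T P d

/-- `SeminormCharacteristic` in every invertible measure preserving system. -/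
def InAllSystems {l : ℕ} (P : Fin l → ℤ[X]) (d : ℕ) : Prop :=
  ∀ (X : Type) [MeasurableSpace X] [StandardBorelSpace X] (μ : Measure X)
    [IsProbabilityMeasure μ] (T : X ≃ᵐ X), MeasurePreserving T μ μ →
    SeminormCharacteristic μ T P d

end

end Pool.Agent.BLL.Lit
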