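import Pool.Agent.BLL.LitDefs

/-!
# The literal form of characteristic factors and the seminorm form are equivalent
-/

set_option autoImplicit false
open MeasureTheory Filter Topology Polynomial

namespace Pool.Agent.BLL.Lit

noncomputable section

section basic

variable {X : Type*} [mX : MeasurableSpace X]

theorem Bdd.sub {f g : X → ℂ} (hf : Bdd f) (hg : Bdd g) : Bdd (fun x => f x - g x) := by
  obtain ⟨h1, C, hC⟩ := hf
  obtain ⟨h2, D, hD⟩ := hg
  exact ⟨h1.sub h2, C + D, fun x => (norm_sub_le _ _).trans (add_le_add (hC x) (hD x))⟩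

theorem Bdd.add {f g : X → ℂ} (hf : Bdd f) (hg : Bdd g) : Bdd (fun x => f x + g x) := by
  obtain ⟨h1, C, hC⟩ := hf
  obtain ⟨h2, D, hD⟩ := hg
  exact ⟨h1.add h2, C + D, fun x => (norm_add_le _ _).trans (add_le_add (hC x) (hD x))⟩

theorem Bdd.mul {f g : X → ℂ} (hf : Bdd f) (hg : Bdd g) : Bdd (fun x => f x * g x) := by
  obtain ⟨h1, C, hC⟩ := hf
  obtain ⟨h2, D, hD⟩ := hg
  refine ⟨h1.mul h2, C * D, fun x => ?_⟩
  rw [norm_mul]
  exact mul_le_mul (hC x) (hD x) (norm_nonneg _) ((norm_nonneg _).trans (hC x))

theorem Bdd.const (c : ℂ) : Bdd (fun _ : X => c) := ⟨measurable_const, ‖c‖, fun _ => le_rfl⟩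

theorem Bdd.sum {ι : Type*} (s : Finset ι) (f : ι → X → ℂ) (hf : ∀ i ∈ s, Bdd (f i)) :
    Bdd (fun x => ∑ i ∈ s, f i x) := by
  classical
  induction s using Finset.induction_on with
  | empty => simpa using Bdd.const (X := X) 0
  | insert a s ha ih =>
    simp only [Finset.sum_insert ha]
    exact (hf a (Finset.mem_insert_self a s)).add
      (ih fun i hi => hf i (Finset.mem_insert_of_mem hi))

theorem Bdd.prod {ι : Type*} (s : Finset ι) (f : ι → X → ℂ) (hf : ∀ i ∈ s, Bdd (f i)) :
    Bdd (fun x => ∏ i ∈ s, f i x) := by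
  classical
  induction s using Finset.induction_on with
  | empty => simpa using Bdd.const (X := X) 1
  | insert a s ha ih =>
    simp only [Finset.prod_insert ha]
    exact (hf a (Finset.mem_insert_self a s)).mul
      (ih fun i hi => hf i (Finset.mem_insert_of_mem hi))

theorem measurable_zpow (T : X ≃ᵐ X) (k : ℤ) :
    Measurable (fun x => ((T.toEquiv : Equiv.Perm X) ^ k) x) := by
  have hn : ∀ n : ℕ, Measurable (fun x => ((T.toEquiv : Equiv.Perm X) ^ n) x) := by
    intro n
    induction n with
    | zero => exact measurable_id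
    | succ n ih =>
      have : (fun x => ((T.toEquiv : Equiv.Perm X) ^ (n + 1)) x) =
          (fun x => ((T.toEquiv : Equiv.Perm X) ^ n) x) ∘ T := by
        funext x
        rw [pow_succ]
        rfl
      rw [this]
      exact ih.comp T.measurable
  have hn' : ∀ n : ℕ, Measurable (fun x => (((T.toEquiv : Equiv.Perm X)⁻¹) ^ n) x) := by
    intro n
    induction n with
    | zero => exact measurable_id
    | succ n ih =>
      have : (fun x => (((T.toEquiv : Equiv.Perm X)⁻¹) ^ (n + 1)) x) =
          (fun x => (((T.toEquiv : Equiv.Perm X)⁻¹) ^ n) x) ∘ T.symm := by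
        funext x
        rw [pow_succ]
        rfl
      rw [this]
      exact ih.comp T.symm.measurable
  obtain ⟨n, hk | hk⟩ := k.eq_nat_or_neg
  · subst hk
    simpa using hn n
  · subst hk
    have : (fun x => ((T.toEquiv : Equiv.Perm X) ^ (-(n : ℤ))) x) =
        (fun x => (((T.toEquiv : Equiv.Perm X)⁻¹) ^ n) x) := by
      funext x
      rw [zpow_neg, zpow_natCast, inv_pow]
    rw [this]
    exact hn' n

theorem mp_zpow {μ : Measure X} {T : X ≃ᵐ X} (hT : MeasurePreserving T μ μ) (k : ℤ) :
    MeasurePreserving (fun x => ((T.toEquiv : Equiv.Perm X) ^ k) x) μ μ := by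
  have hS : MeasurePreserving T.symm μ μ := hT.symm T
  have hn : ∀ n : ℕ, MeasurePreserving (fun x => ((T.toEquiv : Equiv.Perm X) ^ n) x) μ μ := by
    intro n
    induction n with
    | zero => exact MeasurePreserving.id μ
    | succ n ih =>
      have : (fun x => ((T.toEquiv : Equiv.Perm X) ^ (n + 1)) x) =
          (fun x => ((T.toEquiv : Equiv.Perm X) ^ n) x) ∘ T := by
        funext x
        rw [pow_succ]
        rfl
      rw [this]
      exact ih.comp hT
  have hn' : ∀ n : ℕ, MeasurePreserving (fun x => (((T.toEquiv : Equiv.Perm X)⁻¹) ^ n) x) μ μ := by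
    intro n
    induction n with
    | zero => exact MeasurePreserving.id μ
    | succ n ih =>
      have : (fun x => (((T.toEquiv : Equiv.Perm X)⁻¹) ^ (n + 1)) x) =
          (fun x => (((T.toEquiv : Equiv.Perm X)⁻¹) ^ n) x) ∘ T.symm := by
        funext x
        rw [pow_succ]
        rfl
      rw [this]
      exact ih.comp hS
  obtain ⟨n, hk | hk⟩ := k.eq_nat_or_neg
  · subst hk
    simpa using hn n
  · subst hk
    have : (fun x => ((T.toEquiv : Equiv.Perm X) ^ (-(n : ℤ))) x) =
        (fun x => (((T.toEquiv : Equiv.Perm X)⁻¹) ^ n) x) := by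
      funext x
      rw [zpow_neg, zpow_natCast, inv_pow]
    rw [this]
    exact hn' n

theorem Bdd.comp_zpow {f : X → ℂ} (hf : Bdd f) (T : X ≃ᵐ X) (k : ℤ) :
    Bdd (fun x => f (((T.toEquiv : Equiv.Perm X) ^ k) x)) := by
  obtain ⟨h1, C, hC⟩ := hf
  exact ⟨h1.comp (measurable_zpow T k), C, fun x => hC _⟩

theorem Bdd.avg {l : ℕ} (T : X ≃ᵐ X) (P : Fin l → ℤ[X]) {f : Fin l → X → ℂ}
    (hf : ∀ i, Bdd (f i)) (N : ℕ) : Bdd (avg T P f N) := by
  unfold Lit.avg
  exact (Bdd.const _).mul (Bdd.sum _ _ fun n _ => Bdd.prod _ _ fun i _ => (hf i).comp_zpow T _)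

theorem Bdd.integrable_sq {μ : Measure X} [IsFiniteMeasure μ] {f : X → ℂ} (hf : Bdd f) :
    Integrable (fun x => ‖f x‖ ^ 2) μ := by
  obtain ⟨h1, C, hC⟩ := hf
  refine Integrable.of_bound (C := C ^ 2) (h1.norm.pow_const 2).aestronglyMeasurable
    (Eventually.of_forall fun x => ?_)
  rw [Real.norm_eq_abs, abs_of_nonneg (by positivity)]
  exact pow_le_pow_left₀ (norm_nonneg _) (hC x) 2

theorem Bdd.integrable {μ : Measure X} [IsFiniteMeasure μ] {f : X → ℂ} (hf : Bdd f) :
    Integrable f μ := by
  obtain ⟨h1, C, hC⟩ := hf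
  exact Integrable.of_bound (C := C) h1.aestronglyMeasurable (Eventually.of_forall hC)

theorem TendsL2.add {μ : Measure X} [IsFiniteMeasure μ] {F G : ℕ → X → ℂ}
    (bF : ∀ N, Bdd (F N)) (bG : ∀ N, Bdd (G N)) (hF : TendsL2 μ F) (hG : TendsL2 μ G) :
    TendsL2 μ (fun N x => F N x + G N x) := by
  unfold TendsL2 at *
  have h : Tendsto (fun N => 2 * ∫ x, ‖F N x‖ ^ 2 ∂μ + 2 * ∫ x, ‖G N x‖ ^ 2 ∂μ) atTop (𝓝 0) := by
    simpa using (hF.const_mul 2).add (hG.const_mul 2)
  refine squeeze_zero (fun N => integral_nonneg fun x => by positivity) (fun N => ?_) h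
  rw [← integral_const_mul, ← integral_const_mul, ← integral_add
    ((bF N).integrable_sq.const_mul 2) ((bG N).integrable_sq.const_mul 2)]
  refine integral_mono ((bF N).add (bG N)).integrable_sq
    (((bF N).integrable_sq.const_mul 2).add ((bG N).integrable_sq.const_mul 2)) fun x => ?_
  have h1 := norm_add_le (F N x) (G N x)
  have h2 : ‖F N x + G N x‖ ^ 2 ≤ (‖F N x‖ + ‖G N x‖) ^ 2 :=
    pow_le_pow_left₀ (norm_nonneg _) h1 2
  nlinarith [sq_nonneg (‖F N x‖ - ‖G N x‖)]

theorem TendsL2.congr {μ : Measure X} {F G : ℕ → X → ℂ} (h : ∀ N, F N =ᵐ[μ] G N)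
    (hF : TendsL2 μ F) : TendsL2 μ G := by
  unfold TendsL2 at *
  refine hF.congr fun N => integral_congr_ae ?_
  filter_upwards [h N] with x hx
  rw [hx]

/-- a.e. equal functions have a.e. equal averages -/
theorem avg_congr {l : ℕ} {μ : Measure X} {T : X ≃ᵐ X} (hT : MeasurePreserving T μ μ)
    (P : Fin l → ℤ[X]) {f g : Fin l → X → ℂ} (h : ∀ i, f i =ᵐ[μ] g i) (N : ℕ) :
    avg T P f N =ᵐ[μ] avg T P g N := by
  have h1 : ∀ (i : Fin l) (k : ℤ), ∀ᵐ x ∂μ, f i (((T.toEquiv : Equiv.Perm X) ^ k) x) =
      g i (((T.toEquiv : Equiv.Perm X) ^ k) x) := fun i k =>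
    (mp_zpow hT k).quasiMeasurePreserving.ae (h i)
  have h2 : ∀ᵐ x ∂μ, ∀ (i : Fin l) (n : ℕ),
      f i (((T.toEquiv : Equiv.Perm X) ^ ((P i).eval (n : ℤ))) x) =
      g i (((T.toEquiv : Equiv.Perm X) ^ ((P i).eval (n : ℤ))) x) := by
    rw [ae_all_iff]
    intro i
    rw [ae_all_iff]
    intro n
    exact h1 i _
  filter_upwards [h2] with x hx
  unfold avg
  congr 1
  refine Finset.sum_congr rfl fun n _ => Finset.prod_congr rfl fun i _ => hx i n

end basic

/-- A bounded version of the conditional expectation. -/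
theorem exists_version {X : Type*} (Z : MeasurableSpace X) [mX : MeasurableSpace X]
    (hZ : Z ≤ mX) (μ : Measure X) [IsProbabilityMeasure μ] {f : X → ℂ} (hf : Bdd f) :
    ∃ g : X → ℂ, Bdd g ∧ g =ᵐ[μ] μ[f | Z] ∧ μ[fun x => f x - g x | Z] =ᵐ[μ] 0 := by
  classical
  obtain ⟨C, hC⟩ := hf.2
  have hint := hf.integrable (μ := μ)
  have h1 : ∀ᵐ x ∂μ, ‖(μ[f | Z]) x‖ ≤ C := by
    have a1 := norm_condExp_le (μ := μ) (m := Z) f
    have a2 : μ[(fun x => ‖f x‖) | Z] ≤ᵐ[μ] μ[(fun _ => C) | Z] :=
      condExp_mono hint.norm (integrable_const C) (Eventually.of_forall hC)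
    have a3 : μ[(fun _ : X => C) | Z] = fun _ => C := condExp_const hZ C
    rw [a3] at a2
    filter_upwards [a1, a2] with x b1 b2
    exact b1.trans b2
  have hm : Measurable (μ[f | Z]) := stronglyMeasurable_condExp.measurable.mono hZ le_rfl
  set g : X → ℂ := fun x => if ‖(μ[f | Z]) x‖ ≤ C then (μ[f | Z]) x else 0 with hg
  have hgm : Measurable g := Measurable.ite (measurableSet_le hm.norm measurable_const) hm
    measurable_const
  have hge : g =ᵐ[μ] μ[f | Z] := by
    filter_upwards [h1] with x hx
    simp only [hg, if_pos hx]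
  have hgb : Bdd g := by
    refine ⟨hgm, |C|, fun x => ?_⟩
    simp only [hg]
    split_ifs with h
    · exact h.trans (le_abs_self C)
    · simp
  refine ⟨g, hgb, hge, ?_⟩
  have e1 : μ[fun x => f x - g x | Z] =ᵐ[μ] μ[f | Z] - μ[g | Z] :=
    condExp_sub hint hgb.integrable Z
  have e2 : μ[g | Z] =ᵐ[μ] μ[μ[f | Z] | Z] := condExp_congr_ae hge
  have e3 : μ[μ[f | Z] | Z] = μ[f | Z] :=
    condExp_of_stronglyMeasurable hZ stronglyMeasurable_condExp integrable_condExp
  rw [e3] at e2
  filter_upwards [e1, e2] with x b1 b2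
  rw [b1, Pi.sub_apply, b2, sub_self]
  rfl

/-- difference of products when one factor is changed -/
theorem prod_update_sub {l : ℕ} (a : Fin l → ℂ) (i : Fin l) (b : ℂ) :
    ∏ j, a j - ∏ j, Function.update a i b j = ∏ j, Function.update a i (a i - b) j := by
  classical
  have e : ∀ c : ℂ, ∏ j, Function.update a i c j = c * ∏ j ∈ Finset.univ.erase i, a j := by
    intro c
    rw [← Finset.mul_prod_erase _ _ (Finset.mem_univ i), Function.update_self]
    congr 1
    refine Finset.prod_congr rfl fun j hj => ?_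
    rw [Function.update_of_ne (Finset.ne_of_mem_erase hj)]
  rw [e, e, ← Finset.mul_prod_erase _ _ (Finset.mem_univ i), sub_mul]

theorem avg_update_sub {X : Type*} [MeasurableSpace X] {l : ℕ} (T : X ≃ᵐ X) (P : Fin l → ℤ[X])
    (f : Fin l → X → ℂ) (i : Fin l) (g : X → ℂ) (N : ℕ) (x : X) :
    avg T P f N x - avg T P (Function.update f i g) N x =
      avg T P (Function.update f i (fun x => f i x - g x)) N x := by
  classical
  unfold avg
  rw [← mul_sub, ← Finset.sum_sub_distrib]
  congr 1
  refine Finset.sum_congr rfl fun n _ => ?_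
  have e : ∀ h : X → ℂ, (∏ j, (Function.update f i h) j
      (((T.toEquiv : Equiv.Perm X) ^ ((P j).eval (n : ℤ))) x)) =
      ∏ j, Function.update (fun j => f j (((T.toEquiv : Equiv.Perm X) ^ ((P j).eval (n : ℤ))) x))
        i (h (((T.toEquiv : Equiv.Perm X) ^ ((P i).eval (n : ℤ))) x)) j := by
    intro h
    refine Finset.prod_congr rfl fun j _ => ?_
    by_cases hj : j = i
    · subst hj
      rw [Function.update_self, Function.update_self]
    · rw [Function.update_of_ne hj, Function.update_of_ne hj]
  rw [e, e, prod_update_sub]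

/-- The seminorm form implies the literal form. -/
theorem characteristic_of_seminorm {X : Type*} (Z : MeasurableSpace X) [mX : MeasurableSpace X]
    {l : ℕ} (μ : Measure X) [IsProbabilityMeasure μ] (T : X ≃ᵐ X) (hT : MeasurePreserving T μ μ)
    (P : Fin l → ℤ[X]) (d : ℕ) (hZ : IsHostKra μ T d Z)
    (h : SeminormCharacteristic μ T P d) : Characteristic μ T P Z := by
  classical
  intro f hf
  choose g hg1 hg2 hg3 using fun i => exists_version Z hZ.1 μ (hf i)
  have hz : ∀ i, SeminormZero μ T (d + 1) (fun x => f i x - g i x) := fun i =>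
    (hZ.2 _ ((hf i).sub (hg1 i))).1 (hg3 i)
  -- replace the functions one after another
  have key : ∀ s : Finset (Fin l), TendsL2 μ (fun N x => avg T P f N x -
      avg T P (fun i => if i ∈ s then g i else f i) N x) := by
    intro s
    induction s using Finset.induction_on with
    | empty =>
      simp only [Finset.notMem_empty, if_false, sub_self]
      unfold TendsL2
      simp
    | insert a s ha ih =>
      have hb : ∀ s : Finset (Fin l), ∀ i, Bdd ((fun i => if i ∈ s then g i else f i) i) := by
        intro s i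
        by_cases hi : i ∈ s
        · simp only [hi, if_true]; exact hg1 i
        · simp only [hi, if_false]; exact hf i
      have e1 : (fun i => if i ∈ insert a s then g i else f i) =
          Function.update (fun i => if i ∈ s then g i else f i) a (g a) := by
        funext i
        by_cases hi : i = a
        · subst hi
          rw [Function.update_self]
          simp
        · rw [Function.update_of_ne hi]
          simp only [Finset.mem_insert, hi, false_or]
      have e2 : ∀ N x, avg T P f N x - avg T P (fun i => if i ∈ insert a s then g i else f i) N x =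
          (avg T P f N x - avg T P (fun i => if i ∈ s then g i else f i) N x) +
          avg T P (Function.update (fun i => if i ∈ s then g i else f i) a
            (fun x => f a x - g a x)) N x := by
        intro N x
        rw [e1]
        have := avg_update_sub T P (fun i => if i ∈ s then g i else f i) a (g a) N x
        simp only [ha, if_false] at this
        rw [← this]
        ring
      have hbu : ∀ i, Bdd (Function.update (fun i => if i ∈ s then g i else f i) a
          (fun x => f a x - g a x) i) := by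
        intro i
        by_cases hi : i = a
        · subst hi
          rw [Function.update_self]
          exact (hf i).sub (hg1 i)
        · rw [Function.update_of_ne hi]
          exact hb s i
      have h3 : TendsL2 μ (avg T P (Function.update (fun i => if i ∈ s then g i else f i) a
          (fun x => f a x - g a x))) := by
        refine h _ hbu ⟨a, ?_⟩
        rw [Function.update_self]
        exact hz a
      have h4 := TendsL2.add (μ := μ)
        (fun N => ((Bdd.avg T P hf N).sub (Bdd.avg T P (hb s) N))) (fun N => Bdd.avg T P hbu N)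
        ih h3
      refine TendsL2.congr (fun N => Eventually.of_forall fun x => ?_) h4
      exact (e2 N x).symm
  have h5 := key Finset.univ
  simp only [Finset.mem_univ, if_true] at h5
  refine TendsL2.congr (fun N => ?_) h5
  filter_upwards [avg_congr hT P hg2 N] with x hx
  rw [hx]

/-- The literal form implies the seminorm form. -/
theorem seminorm_of_characteristic {X : Type*} (Z : MeasurableSpace X) [mX : MeasurableSpace X]
    {l : ℕ} (μ : Measure X) [IsProbabilityMeasure μ] (T : X ≃ᵐ X) (hT : MeasurePreserving T μ μ)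
    (P : Fin l → ℤ[X]) (d : ℕ) (hZ : IsHostKra μ T d Z)
    (h : Characteristic μ T P Z) : SeminormCharacteristic μ T P d := by
  classical
  rintro f hf ⟨i, hi⟩
  have h1 : μ[f i | Z] =ᵐ[μ] 0 := (hZ.2 _ (hf i)).2 hi
  refine TendsL2.congr (fun N => ?_) (h f hf)
  have h2 : avg T P (fun j => μ[f j | Z]) N =ᵐ[μ]
      avg T P (Function.update (fun j => μ[f j | Z]) i 0) N := by
    refine avg_congr hT P (fun j => ?_) N
    by_cases hj : j = i
    · subst hj
      rw [Function.update_self]
      exact h1
    · rw [Function.update_of_ne hj]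
  have h3 : ∀ x, avg T P (Function.update (fun j => μ[f j | Z]) i 0) N x = 0 := by
    intro x
    unfold avg
    rw [Finset.sum_eq_zero, mul_zero]
    intro n _
    refine Finset.prod_eq_zero (Finset.mem_univ i) ?_
    rw [Function.update_self]
    rfl
  filter_upwards [h2] with x hx
  rw [hx, h3 x, sub_zero]

theorem characteristic_iff {X : Type*} (Z : MeasurableSpace X) [mX : MeasurableSpace X]
    {l : ℕ} (μ : Measure X) [IsProbabilityMeasure μ] (T : X ≃ᵐ X) (hT : MeasurePreserving T μ μ)
    (P : Fin l → ℤ[X]) (d : ℕ) (hZ : IsHostKra μ T d Z) :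
    Characteristic μ T P Z ↔ SeminormCharacteristic μ T P d :=
  ⟨seminorm_of_characteristic Z μ T hT P d hZ, characteristic_of_seminorm Z μ T hT P d hZ⟩

end

end Pool.Agent.BLL.Lit
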