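import Pool.Agent.BLL.LitEquiv
import Pool.Agent.BLL.NSys
import Pool.Agent.BLL.NBox

/-!
# The factors of order `0, 1, 2` are not characteristic in a Weyl system on `𝕋^4`
-/

set_option autoImplicit false
open MeasureTheory Filter Topology Polynomial

namespace Pool.Agent.BLL.Lit

noncomputable section

/-- The unipotent automorphism `x ↦ M 1 x` of `𝕋^4`. -/
def Tw : V4 ≃ᵐ V4 where
  toFun x := mact (M 1) x
  invFun x := mact (M (-1)) x
  left_inv x := by
    change mact (M (-1)) (mact (M 1) x) = x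
    rw [← mact_mul, ← M_add]
    norm_num [M_zero, mact_one8]
  right_inv x := by
    change mact (M 1) (mact (M (-1)) x) = x
    rw [← mact_mul, ← M_add]
    norm_num [M_zero, mact_one8]
  measurable_toFun := (continuous_mact _).measurable
  measurable_invFun := (continuous_mact _).measurable

theorem Tw_pow (k : ℤ) (x : V4) : ((Tw.toEquiv : Equiv.Perm V4) ^ k) x = mact (M k) x := by
  have hn : ∀ (n : ℕ) (x : V4), ((Tw.toEquiv : Equiv.Perm V4) ^ n) x = mact (M n) x := by
    intro n
    induction n with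
    | zero =>
      intro x
      simp [M_zero, mact_one8]
    | succ n ih =>
      intro x
      rw [pow_succ, Equiv.Perm.mul_apply, ih]
      change mact (M n) (mact (M 1) x) = _
      rw [← mact_mul, ← M_add]
      congr 2
      push_cast
      ring
  have hn' : ∀ (n : ℕ) (x : V4), (((Tw.toEquiv : Equiv.Perm V4)⁻¹) ^ n) x = mact (M (-n)) x := by
    intro n
    induction n with
    | zero =>
      intro x
      simp [M_zero, mact_one8]
    | succ n ih =>
      intro x
      rw [pow_succ, Equiv.Perm.mul_apply, ih]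
      change mact (M (-n)) (mact (M (-1)) x) = _
      rw [← mact_mul, ← M_add]
      congr 2
      push_cast
      ring
  obtain ⟨n, hk | hk⟩ := k.eq_nat_or_neg
  · subst hk
    simpa using hn n x
  · subst hk
    rw [zpow_neg, zpow_natCast, ← inv_pow]
    exact hn' n x

/-- coefficients -/
def cw (i : Fin 7) : ℤ := ![-4, 6, -4, 1, 0, 0, 0] i

/-- the functions -/
def fw (i : Fin 7) (x : V4) : ℂ := ch (cw i • x 3)

theorem bdd_fw (i : Fin 7) : Bdd (fw i) := by
  refine ⟨?_, 1, fun x => by unfold fw; rw [norm_ch]⟩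
  unfold fw
  exact continuous_ch.measurable.comp (by fun_prop)

theorem prod_fw (n : ℤ) (x : V4) :
    ∏ i : Fin 7, fw i (((Tw.toEquiv : Equiv.Perm V4) ^ ((P i).eval n)) x) = ch (-(x 3)) := by
  unfold fw
  rw [← ch_sum]
  congr 1
  simp only [Tw_pow, P_eval, Box.mact_three]
  simp [Fin.sum_univ_succ, cw, pv]
  module

theorem avg_fw (N : ℕ) (hN : 0 < N) (x : V4) : avg Tw P fw N x = ch (-(x 3)) := by
  unfold avg
  simp only [prod_fw]
  rw [Finset.sum_const, Nat.card_Icc, add_tsub_cancel_right, nsmul_eq_mul, ← mul_assoc,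
    one_div_mul_cancel (by exact_mod_cast hN.ne'), one_mul]

theorem not_tendsL2_fw : ¬ TendsL2 volume (avg Tw P fw) := by
  intro h
  have h1 : Tendsto (fun _ : ℕ => (1 : ℝ)) atTop (𝓝 0) := by
    refine h.congr' ?_
    filter_upwards [eventually_gt_atTop 0] with N hN
    simp only [avg_fw N hN, norm_ch]
    simp
  exact one_ne_zero (tendsto_nhds_unique tendsto_const_nhds h1)

theorem integral_zero_of_shift (F : V4 → ℂ) (t : V4) (c : ℂ) (hc : c ≠ 1)
    (h : ∀ x, F (t + x) = c * F x) : ∫ x : V4, F x = 0 := by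
  have h1 : ∫ x : V4, F (t + x) = ∫ x : V4, F x := integral_add_left_eq_self F t
  rw [integral_congr_ae (Eventually.of_forall h), integral_const_mul] at h1
  have h3 : (c - 1) * ∫ x : V4, F x = 0 := by
    rw [sub_mul, h1, one_mul, sub_self]
  rcases mul_eq_zero.1 h3 with h4 | h4
  · exact absurd (sub_eq_zero.1 h4) hc
  · exact h4

/-- average over a cube of a function that vanishes where all coordinates are nonzero -/
theorem tendsto_cube (k : ℕ) (a : (Fin k → ℕ) → ℂ) (h1 : ∀ h, ‖a h‖ ≤ 1)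
    (h0 : ∀ h, (∀ i, h i ≠ 0) → a h = 0) :
    Tendsto (fun H : ℕ => (1 / (H : ℂ) ^ k) *
      ∑ h ∈ Fintype.piFinset (fun _ : Fin k => Finset.range H), a h) atTop (𝓝 0) := by
  classical
  have hlim : Tendsto (fun H : ℕ => 1 - (1 - 1 / (H : ℝ)) ^ k) atTop (𝓝 0) := by
    have e1 : Tendsto (fun H : ℕ => 1 / (H : ℝ)) atTop (𝓝 0) := tendsto_one_div_atTop_nhds_zero_nat
    have e2 : Tendsto (fun H : ℕ => 1 - (1 - 1 / (H : ℝ)) ^ k) atTop (𝓝 (1 - (1 - 0) ^ k)) :=
      tendsto_const_nhds.sub ((tendsto_const_nhds.sub e1).pow k)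
    simpa using e2
  refine squeeze_zero_norm' ?_ hlim
  filter_upwards [eventually_gt_atTop 0] with H hH
  have hH' : (0 : ℝ) < H := by exact_mod_cast hH
  rw [norm_mul, norm_div, norm_one, norm_pow, Complex.norm_natCast]
  have e1 : ‖∑ h ∈ Fintype.piFinset (fun _ : Fin k => Finset.range H), a h‖ ≤
      ∑ h ∈ Fintype.piFinset (fun _ : Fin k => Finset.range H),
        (1 - ∏ i, (if h i = 0 then (0 : ℝ) else 1)) := by
    refine (norm_sum_le _ _).trans (Finset.sum_le_sum fun h _ => ?_)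
    by_cases hh : ∀ i, h i ≠ 0
    · rw [h0 h hh, norm_zero]
      simp [hh]
    · push Not at hh
      obtain ⟨i, hi⟩ := hh
      rw [Finset.prod_eq_zero (Finset.mem_univ i) (by simp [hi]), sub_zero]
      exact h1 h
  have e2 : ∑ h ∈ Fintype.piFinset (fun _ : Fin k => Finset.range H),
        (1 - ∏ i, (if h i = 0 then (0 : ℝ) else 1)) = (H : ℝ) ^ k - ((H : ℝ) - 1) ^ k := by
    rw [Finset.sum_sub_distrib]
    have := Finset.prod_univ_sum (fun _ : Fin k => Finset.range H)
      (fun (_ : Fin k) (j : ℕ) => (if j = 0 then (0 : ℝ) else 1))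
    rw [← this]
    have e3 : ∑ j ∈ Finset.range H, (if j = 0 then (0 : ℝ) else 1) = (H : ℝ) - 1 := by
      obtain ⟨m, rfl⟩ : ∃ m, H = m + 1 := ⟨H - 1, by omega⟩
      rw [Finset.sum_range_succ']
      simp
    simp [e3]
  rw [e2] at e1
  calc 1 / (H : ℝ) ^ k * ‖∑ h ∈ Fintype.piFinset (fun _ : Fin k => Finset.range H), a h‖
      ≤ 1 / (H : ℝ) ^ k * ((H : ℝ) ^ k - ((H : ℝ) - 1) ^ k) :=
        mul_le_mul_of_nonneg_left e1 (by positivity)
    _ = 1 - (1 - 1 / (H : ℝ)) ^ k := by
        have : (1 : ℝ) - 1 / H = ((H : ℝ) - 1) / H := by field_simp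
        rw [this, div_pow]
        field_simp

/-- the shift factor -/
theorem cube_shift {k : ℕ} (h : Fin k → ℕ) (t x : V4) :
    (∏ ε : Fin k → Bool, (⇑(starRingEnd ℂ))^[(Finset.univ.filter (fun j => ε j = true)).card]
      (fw 0 (((Tw.toEquiv : Equiv.Perm V4) ^ (∑ j, if ε j = true then (h j : ℤ) else 0)) (t + x)))) =
    ch (∑ ε : Fin k → Bool, ((-1 : ℤ) ^ (Finset.univ.filter (fun j => ε j = true)).card * (-4)) •
      mact (M (∑ j, if ε j = true then (h j : ℤ) else 0)) t 3) *
    (∏ ε : Fin k → Bool, (⇑(starRingEnd ℂ))^[(Finset.univ.filter (fun j => ε j = true)).card]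
      (fw 0 (((Tw.toEquiv : Equiv.Perm V4) ^ (∑ j, if ε j = true then (h j : ℤ) else 0)) x))) := by
  rw [ch_sum, ← Finset.prod_mul_distrib]
  refine Finset.prod_congr rfl fun ε _ => ?_
  simp only [Tw_pow, fw, mact_add, Pi.add_apply, smul_add, ch_add]
  rw [conj_iter_mul, conj_iter_ch, mul_smul]
  rfl

theorem norm_cube_le_one {k : ℕ} (h : Fin k → ℕ) :
    ‖∫ x : V4, ∏ ε : Fin k → Bool,
      (⇑(starRingEnd ℂ))^[(Finset.univ.filter (fun j => ε j = true)).card]
      (fw 0 (((Tw.toEquiv : Equiv.Perm V4) ^ (∑ j, if ε j = true then (h j : ℤ) else 0)) x))‖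
      ≤ 1 := by
  refine (norm_integral_le_integral_norm _).trans ?_
  have : ∫ x : V4, ‖∏ ε : Fin k → Bool,
      (⇑(starRingEnd ℂ))^[(Finset.univ.filter (fun j => ε j = true)).card]
      (fw 0 (((Tw.toEquiv : Equiv.Perm V4) ^ (∑ j, if ε j = true then (h j : ℤ) else 0)) x))‖ =
      ∫ x : V4, (1 : ℝ) := by
    congr 1
    funext x
    rw [norm_prod]
    refine Finset.prod_eq_one fun ε _ => ?_
    rw [norm_conj_iter]
    unfold fw
    rw [norm_ch]
  rw [this]
  simp

/-- The reduction to an alternating sum. -/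
theorem seminormZero_of (k : ℕ) (b : Fin 4)
    (hs : ∀ h : Fin k → ℕ, (∀ i, h i ≠ 0) → ∃ z : ℤ, z ≠ 0 ∧ ∀ t : Tor,
      ∑ ε : Fin k → Bool, ((-1 : ℤ) ^ (Finset.univ.filter (fun j => ε j = true)).card * (-4)) •
      mact (M (∑ j, if ε j = true then (h j : ℤ) else 0)) (Pi.single b t : V4) 3 = -(z • t)) :
    SeminormZero volume Tw k (fw 0) := by
  refine tendsto_cube k _ norm_cube_le_one fun h hh => ?_
  obtain ⟨z, hz, he⟩ := hs h hh
  obtain ⟨t, ht⟩ := exists_ch z hz
  refine integral_zero_of_shift _ (Pi.single b t) _ ht fun x => ?_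
  rw [cube_shift, he]

theorem sum_bool1 {A : Type*} [AddCommMonoid A] (G : (Fin 1 → Bool) → A) :
    ∑ ε, G ε = G ![true] + G ![false] := by
  rw [← (Equiv.funUnique (Fin 1) Bool).symm.sum_comp]
  simp only [Fintype.sum_bool]
  congr 1 <;> congr 1 <;> funext i <;> fin_cases i <;> rfl

theorem sum_bool2 {A : Type*} [AddCommMonoid A] (G : (Fin 2 → Bool) → A) :
    ∑ ε, G ε = (G ![true, true] + G ![true, false]) + (G ![false, true] + G ![false, false]) := by
  rw [← (finTwoArrowEquiv Bool).symm.sum_comp, Fintype.sum_prod_type]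
  simp only [Fintype.sum_bool]
  rfl

/-- The equivalence `Bool^3 ≃ (Fin 3 → Bool)`. -/
def e3 : Bool × Bool × Bool ≃ (Fin 3 → Bool) where
  toFun p := ![p.1, p.2.1, p.2.2]
  invFun ω := (ω 0, ω 1, ω 2)
  left_inv p := rfl
  right_inv ω := by
    funext j
    fin_cases j <;> rfl

theorem sum_bool3 {A : Type*} [AddCommMonoid A] (G : (Fin 3 → Bool) → A) :
    ∑ ε, G ε = ∑ a : Bool, ∑ b : Bool, ∑ c : Bool, G ![a, b, c] := by
  rw [← e3.sum_comp, Fintype.sum_prod_type]
  refine Finset.sum_congr rfl fun a _ => ?_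
  rw [Fintype.sum_prod_type]
  rfl

theorem card_eq {k : ℕ} (ε : Fin k → Bool) :
    (-1 : ℤ) ^ (Finset.univ.filter (fun j => ε j = true)).card =
      ∏ j, if ε j = true then (-1 : ℤ) else 1 := by
  simp [Finset.prod_ite]

theorem seminormZero_one : SeminormZero volume Tw 1 (fw 0) := by
  refine seminormZero_of 1 2 fun h hh => ⟨-(12 * (h 0 : ℤ)), ?_, fun t => ?_⟩
  · have := hh 0
    simpa using this
  · rw [sum_bool1]
    simp only [card_eq, Box.mact_three]
    simp
    module

theorem seminormZero_two : SeminormZero volume Tw 2 (fw 0) := by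
  refine seminormZero_of 2 1 fun h hh => ⟨24 * ((h 0 : ℤ) * h 1), ?_, fun t => ?_⟩
  · have := hh 0
    have := hh 1
    simp [*]
  · rw [sum_bool2]
    simp only [card_eq, Box.mact_three]
    simp
    module

theorem seminormZero_three : SeminormZero volume Tw 3 (fw 0) := by
  refine seminormZero_of 3 0 fun h hh => ⟨-(24 * ((h 0 : ℤ) * h 1 * h 2)), ?_, fun t => ?_⟩
  · have := hh 0
    have := hh 1
    have := hh 2
    simp [*]
  · rw [sum_bool3]
    simp only [card_eq, Box.mact_three]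
    simp [Fin.prod_univ_succ, Fin.sum_univ_succ]
    module

theorem nilp : (M 1 - 1) ^ 4 = 0 := by
  ext i j
  fin_cases i <;> fin_cases j <;>
    simp [M, pow_succ, Matrix.mul_apply, Fin.sum_univ_four, Nat.choose, Matrix.one_apply]

theorem not_low (d : ℕ) (hd : d < 3) : ¬ InWeylSystems P d := by
  intro h
  have h1 : SeminormCharacteristic volume Tw P d := by
    refine h 4 (M 1) 0 Tw nilp fun x => ?_
    funext i
    change mact (M 1) x i = _
    simp [mact]
  have h2 : SeminormZero volume Tw (d + 1) (fw 0) := by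
    interval_cases d
    · exact seminormZero_one
    · exact seminormZero_two
    · exact seminormZero_three
  exact not_tendsL2_fw (h1 fw bdd_fw ⟨0, h2⟩)

end

end Pool.Agent.BLL.Lit
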