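import Pool.Agent.BLL.PolyDefs

/-!
# Polynomial maps between abelian groups: basic closure properties
-/

set_option autoImplicit false

namespace Pool.Agent.BLL

variable {G V W : Type*} [AddCommGroup G] [AddCommGroup V] [AddCommGroup W]

theorem dif_apply (v : G) (P : G → V) (h : G) : dif v P h = P (h + v) - P h := rfl

theorem isPoly_zero_iff {P : G → V} : IsPoly 0 P ↔ ∀ h, P h = P 0 := Iff.rfl

theorem isPoly_succ_iff {d : ℕ} {P : G → V} : IsPoly (d + 1) P ↔ ∀ v, IsPoly d (dif v P) := Iff.rfl

theorem isPoly_const (d : ℕ) (c : V) : IsPoly d (fun _ : G => c) := by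
  induction d generalizing c with
  | zero => intro h; rfl
  | succ d ih =>
    intro v
    have : dif v (fun _ : G => c) = fun _ => (0 : V) := by
      funext h; simp [dif]
    rw [this]
    exact ih 0

theorem IsPoly.succ {d : ℕ} {P : G → V} (h : IsPoly d P) : IsPoly (d + 1) P := by
  induction d generalizing P with
  | zero =>
    intro v
    have : dif v P = fun _ => (0 : V) := by
      funext x; simp only [dif]; rw [h (x + v), h x, sub_self]
    rw [this]
    exact isPoly_const 0 0
  | succ d ih => intro v; exact ih (h v)

theorem IsPoly.mono {d e : ℕ} (hde : d ≤ e) {P : G → V} (h : IsPoly d P) : IsPoly e P := by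
  induction e, hde using Nat.le_induction with
  | base => exact h
  | succ n _ ih => exact ih.succ

theorem IsPoly.add {d : ℕ} {P Q : G → V} (hP : IsPoly d P) (hQ : IsPoly d Q) :
    IsPoly d (fun h => P h + Q h) := by
  induction d generalizing P Q with
  | zero => intro h; simp only; rw [hP h, hQ h]
  | succ d ih =>
    intro v
    have : dif v (fun h => P h + Q h) = fun h => dif v P h + dif v Q h := by
      funext h; simp only [dif]; abel
    rw [this]
    exact ih (hP v) (hQ v)

theorem IsPoly.map {d : ℕ} {P : G → V} (f : V →+ W) (hP : IsPoly d P) :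
    IsPoly d (fun h => f (P h)) := by
  induction d generalizing P with
  | zero => intro h; simp only; rw [hP h]
  | succ d ih =>
    intro v
    have : dif v (fun h => f (P h)) = fun h => f (dif v P h) := by
      funext h; simp only [dif]; rw [map_sub]
    rw [this]
    exact ih (hP v)

theorem IsPoly.neg {d : ℕ} {P : G → V} (hP : IsPoly d P) : IsPoly d (fun h => - P h) :=
  hP.map (-AddMonoidHom.id V)

theorem IsPoly.sub {d : ℕ} {P Q : G → V} (hP : IsPoly d P) (hQ : IsPoly d Q) :
    IsPoly d (fun h => P h - Q h) := by
  simpa only [sub_eq_add_neg] using hP.add hQ.neg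

theorem IsPoly.sum {ι : Type*} (s : Finset ι) {d : ℕ} {P : ι → G → V}
    (hP : ∀ i ∈ s, IsPoly d (P i)) : IsPoly d (fun h => ∑ i ∈ s, P i h) := by
  classical
  induction s using Finset.induction_on with
  | empty => simpa using isPoly_const d (0 : V)
  | insert a s ha ih =>
    simp only [Finset.sum_insert ha]
    exact (hP a (Finset.mem_insert_self a s)).add
      (ih fun i hi => hP i (Finset.mem_insert_of_mem hi))

theorem IsPoly.comp_hom {d : ℕ} {P : G → V} (g : W →+ G) (hP : IsPoly d P) :
    IsPoly d (fun h => P (g h)) := by
  induction d generalizing P with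
  | zero => intro h; simp only; rw [hP (g h), hP (g 0)]
  | succ d ih =>
    intro v
    have : dif v (fun h => P (g h)) = fun h => dif (g v) P (g h) := by
      funext h; simp only [dif]; rw [map_add]
    rw [this]
    exact ih (hP (g v))

theorem IsPoly.shift {d : ℕ} {P : G → V} (u : G) (hP : IsPoly d P) :
    IsPoly d (fun h => P (h + u)) := by
  induction d generalizing P with
  | zero => intro h; simp only; rw [hP (h + u), hP (0 + u)]
  | succ d ih =>
    intro v
    have : dif v (fun h => P (h + u)) = fun h => dif v P (h + u) := by
      funext h; simp only [dif]; rw [add_right_comm]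
    rw [this]
    exact ih (hP v)

theorem isPoly_hom (f : G →+ V) : IsPoly 1 (fun h => f h) := by
  intro v
  have : dif v (fun h => f h) = fun _ => f v := by
    funext h; simp [dif]
  rw [this]
  exact isPoly_const 0 _

/-- Product of an integer-valued polynomial map and a polynomial map. -/
theorem IsPoly.zsmul {n : ℕ} : ∀ {d e : ℕ}, d + e ≤ n → ∀ {a : G → ℤ} {b : G → V},
    IsPoly d a → IsPoly e b → IsPoly n (fun h => a h • b h) := by
  induction n with
  | zero =>
    intro d e hde a b ha hb
    obtain rfl : d = 0 := by omega
    obtain rfl : e = 0 := by omega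
    intro h; simp only; rw [ha h, hb h]
  | succ n ih =>
    intro d e hde a b ha hb v
    have key : dif v (fun h => a h • b h)
        = fun h => dif v a h • b (h + v) + a h • dif v b h := by
      funext h; simp only [dif]; rw [sub_smul, smul_sub]; abel
    rw [key]
    refine IsPoly.add ?_ ?_
    · rcases d with _ | d
      · have : (fun h => dif v a h • b (h + v)) = fun _ => (0 : V) := by
          funext h; simp only [dif]; rw [ha (h + v), ha h, sub_self, zero_smul]
        rw [this]; exact isPoly_const n 0
      · exact ih (by omega) (ha v) (hb.shift v)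
    · rcases e with _ | e
      · have : (fun h => a h • dif v b h) = fun _ => (0 : V) := by
          funext h; simp only [dif]; rw [hb (h + v), hb h, sub_self, smul_zero]
        rw [this]; exact isPoly_const n 0
      · exact ih (by omega) ha (hb v)

/-- torsion-free descent -/
theorem IsPoly.of_nsmul {k : ℕ} (hV : ∀ v : V, k • v = 0 → v = 0) {d : ℕ} {P : G → V}
    (hP : IsPoly d (fun h => k • P h)) : IsPoly d P := by
  induction d generalizing P with
  | zero =>
    intro h
    have h1 : k • P h = k • P 0 := hP h
    have : k • (P h - P 0) = 0 := by rw [smul_sub, h1, sub_self]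
    exact sub_eq_zero.1 (hV _ this)
  | succ d ih =>
    intro v
    refine ih ?_
    have : (fun h => k • dif v P h) = dif v (fun h => k • P h) := by
      funext h; simp only [dif]; rw [smul_sub]
    rw [this]
    exact hP v

theorem isPoly_descPoch {d : ℕ} {a : G → ℤ} (ha : IsPoly d a) (r : ℕ) :
    IsPoly (d * r) (fun h => ∏ i ∈ Finset.range r, (a h - i)) := by
  induction r with
  | zero => simpa using isPoly_const (d * 0) (1 : ℤ)
  | succ r ih =>
    simp only [Finset.prod_range_succ]
    have h2 : IsPoly d (fun h => a h - (r : ℤ)) := ha.sub (isPoly_const d (r : ℤ))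
    have := IsPoly.zsmul (n := d * (r + 1)) (d := d * r) (e := d) (by rw [mul_add, mul_one]) ih h2
    simpa using this

theorem IsPoly.choose {d : ℕ} {a : G → ℤ} (ha : IsPoly d a) (r : ℕ) :
    IsPoly (d * r) (fun h => Ring.choose (a h) r) := by
  refine IsPoly.of_nsmul (k := r.factorial) ?_ ?_
  · intro v hv
    rw [nsmul_eq_mul, mul_eq_zero] at hv
    rcases hv with hv | hv
    · exact absurd hv (by exact_mod_cast Nat.factorial_ne_zero r)
    · exact hv
  · have h := isPoly_descPoch ha r
    have e : (fun h => r.factorial • Ring.choose (a h) r)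
        = fun h => ∏ i ∈ Finset.range r, (a h - i) := by
      clear h
      funext y
      rw [← Ring.descPochhammer_eq_factorial_smul_choose, ← Polynomial.eval_eq_smeval]
      clear ha
      generalize a y = x
      induction r with
      | zero => simp
      | succ r ih =>
        rw [Finset.prod_range_succ, ← ih, descPochhammer_succ_right]
        simp
    rw [e]
    exact h

/-- Newton expansion. -/
theorem IsPoly.newton {d : ℕ} {Q : ℤ → V} (hQ : IsPoly d Q) :
    ∃ v : ℕ → V, ∀ k, Q k = ∑ r ∈ Finset.range (d + 1), Ring.choose k r • v r := by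
  induction d generalizing Q with
  | zero => exact ⟨fun _ => Q 0, fun k => by rw [hQ k]; simp⟩
  | succ d ih =>
    obtain ⟨v, hv⟩ := ih (hQ 1)
    refine ⟨fun r => Nat.casesOn r (Q 0) v, ?_⟩
    set R : ℤ → V := fun k => Q 0 + ∑ r ∈ Finset.range (d + 1), Ring.choose k (r + 1) • v r
      with hR
    have h1 : ∀ k, R (k + 1) - R k = Q (k + 1) - Q k := by
      intro k
      have := hv k
      simp only [dif] at this
      rw [this]
      show (Q 0 + ∑ r ∈ Finset.range (d + 1), Ring.choose (k + 1) (r + 1) • v r)
        - (Q 0 + ∑ r ∈ Finset.range (d + 1), Ring.choose k (r + 1) • v r) = _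
      rw [add_sub_add_left_eq_sub, ← Finset.sum_sub_distrib]
      refine Finset.sum_congr rfl fun r _ => ?_
      rw [← sub_smul, Ring.choose_succ_succ]
      congr 1
      ring
    have h0 : R 0 = Q 0 := by
      have : ∑ r ∈ Finset.range (d + 1), Ring.choose (0 : ℤ) (r + 1) • v r = 0 := by
        refine Finset.sum_eq_zero fun r _ => ?_
        rw [Ring.choose_zero_succ, zero_smul]
      show Q 0 + ∑ r ∈ Finset.range (d + 1), Ring.choose (0 : ℤ) (r + 1) • v r = Q 0
      rw [this, add_zero]
    have h2 : ∀ k, R k = Q k := by
      intro k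
      induction k using Int.induction_on with
      | zero => exact h0
      | succ k ih2 =>
        have := h1 k
        rw [ih2] at this
        exact (sub_left_inj.1 this)
      | pred k ih2 =>
        have := h1 (-(k : ℤ) - 1)
        rw [sub_add_cancel, ih2] at this
        exact (sub_right_inj.1 this)
    intro k
    rw [← h2 k, hR, Finset.sum_range_succ']
    simp only [Ring.choose_zero_right, one_smul]
    rw [add_comm]
    rfl

theorem IsPoly.comp {d e : ℕ} {Q : ℤ → V} (hQ : IsPoly d Q) {a : G → ℤ} (ha : IsPoly e a) :
    IsPoly (e * d) (fun h => Q (a h)) := by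
  obtain ⟨v, hv⟩ := hQ.newton
  simp only [hv]
  refine IsPoly.sum _ fun r hr => ?_
  have h1 := ha.choose r
  have hr' : r ≤ d := by rw [Finset.mem_range] at hr; omega
  refine IsPoly.zsmul (d := e * r) (e := 0) ?_ h1 (isPoly_const 0 (v r))
  rw [add_zero]
  exact Nat.mul_le_mul_left e hr'

/-! ### torsion-freeness and purity -/

/-- If the target is torsion-free and the sums of `R` along `k ≥ 1` steps in direction `v` vanish
then `R` vanishes. -/
theorem IsPoly.eq_zero_of_sum {k : ℕ} (hV : ∀ v : V, k • v = 0 → v = 0) (v : G)
    {d : ℕ} {R : G → V} (hR : IsPoly d R)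
    (h : ∀ x, ∑ i ∈ Finset.range k, R (x + i • v) = 0) : ∀ x, R x = 0 := by
  have base : ∀ R : G → V, (∀ x, R x = R 0) → (∀ x, ∑ i ∈ Finset.range k, R (x + i • v) = 0) →
      ∀ x, R x = 0 := by
    intro R hc hs x
    have h1 := hs x
    rw [Finset.sum_congr rfl (fun i _ => hc (x + i • v)), Finset.sum_const,
      Finset.card_range] at h1
    rw [hc x]
    exact hV _ h1
  induction d generalizing R with
  | zero => exact base R hR h
  | succ d ih =>
    refine base R (fun x => ?_) h
    have h1 := ih (hR x) (fun y => by
      have e1 := h (y + x)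
      have e2 := h y
      simp only [dif, Finset.sum_sub_distrib]
      rw [← e2] at e1
      rw [sub_eq_zero, ← e1]
      refine Finset.sum_congr rfl fun i _ => ?_
      rw [add_right_comm]) 0
    simp only [dif, zero_add] at h1
    exact sub_eq_zero.1 h1

end Pool.Agent.BLL
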