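import Mathlib

/-!
# Polynomial maps between abelian groups and the counterexample family: definitions
-/

set_option autoImplicit false

namespace Pool.Agent.BLL

/-- The difference of `P` in direction `v`. -/
def dif {G V : Type*} [AddCommGroup G] [AddCommGroup V] (v : G) (P : G → V) : G → V :=
  fun h => P (h + v) - P h

/-- `P` is a polynomial map of degree at most `d`. -/
def IsPoly {G V : Type*} [AddCommGroup G] [AddCommGroup V] : ℕ → (G → V) → Prop
  | 0, P => ∀ h, P h = P 0
  | (d + 1), P => ∀ v, IsPoly d (dif v P)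

/-- The eight integer polynomials `0, n, 2n, 3n, 4n, n+2n²-2n³, n-2n²-2n³, -2n³`. -/
def pv (i : Fin 8) (n : ℤ) : ℤ :=
  ![0, n, 2 * n, 3 * n, 4 * n, n + 2 * n ^ 2 - 2 * n ^ 3, n - 2 * n ^ 2 - 2 * n ^ 3,
    -2 * n ^ 3] i

end Pool.Agent.BLL
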