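import Pool.Agent.BLL.PolyDefs

/-!
# One-variable relations of the counterexample family

Every family of polynomial maps `G i` with `∑ i, G i (m + pv i n)` constant consists of polynomial
maps of degree at most `3`.  The key step (degree `4`) is an integer linear algebra certificate.
-/

set_option autoImplicit false

namespace Pool.Agent.BLL

section Basic

variable {V : Type*} [AddCommGroup V]

theorem eq_of_dif_one_eq (f g : ℤ → V) (h0 : f 0 = g 0)
    (h : ∀ k, f (k + 1) - f k = g (k + 1) - g k) : ∀ k, f k = g k := by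
  intro k
  induction k using Int.induction_on with
  | zero => exact h0
  | succ n ih =>
      have := h n
      rw [ih] at this
      exact sub_left_injective this
  | pred n ih =>
      have := h (-(n : ℤ) - 1)
      rw [sub_add_cancel, ih] at this
      exact sub_right_injective this

theorem dif_comm (u v : ℤ) (P : ℤ → V) : dif u (dif v P) = dif v (dif u P) := by
  funext h
  simp only [dif]
  rw [show h + u + v = h + v + u by ring]
  abel

theorem dif_iterate_comm (v : ℤ) (d : ℕ) (P : ℤ → V) :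
    (dif (1 : ℤ))^[d] (dif v P) = dif v ((dif (1 : ℤ))^[d] P) := by
  induction d generalizing P with
  | zero => rfl
  | succ d ih =>
      rw [Function.iterate_succ_apply, Function.iterate_succ_apply, dif_comm, ih]

theorem iterate_of_isPoly (d : ℕ) (P : ℤ → V) (h : IsPoly d P) :
    ∀ k, (dif (1 : ℤ))^[d + 1] P k = 0 := by
  induction d generalizing P with
  | zero =>
      intro k
      simp only [zero_add, Function.iterate_one, dif]
      rw [h (k + 1), h k, sub_self]
  | succ d ih =>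
      intro k
      rw [Function.iterate_succ_apply]
      exact ih _ (h 1) k

theorem const_of_dif_one (P : ℤ → V) (h : ∀ k, dif (1 : ℤ) P k = 0) : ∀ k, P k = P 0 := by
  apply eq_of_dif_one_eq P (fun _ => P 0) rfl
  intro k
  simpa [dif] using h k

theorem isPoly_of_iterate (d : ℕ) (P : ℤ → V) (h : ∀ k, (dif (1 : ℤ))^[d + 1] P k = 0) :
    IsPoly d P := by
  induction d generalizing P with
  | zero => exact const_of_dif_one P (by simpa using h)
  | succ d ih =>
      intro v
      apply ih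
      intro k
      rw [dif_iterate_comm]
      have hc := const_of_dif_one ((dif (1 : ℤ))^[d + 1] P) (by
        intro k
        have := h k
        rw [Function.iterate_succ_apply'] at this
        exact this)
      simp only [dif]
      rw [hc (k + v), hc k, sub_self]

/-- The expansion in powers of a map with vanishing fifth difference. -/
theorem expansion (P : ℤ → V) (h : ∀ k, (dif (1 : ℤ))^[5] P k = 0) :
    ∃ u : Fin 5 → V, u 4 = (dif (1 : ℤ))^[4] P 0 ∧
      ∀ k : ℤ, (24 : ℤ) • P k = ∑ r : Fin 5, (k ^ (r : ℕ)) • u r := by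
  set D : ℕ → ℤ → V := fun r => (dif (1 : ℤ))^[r] P with hD
  have hstep : ∀ r k, D r (k + 1) - D r k = D (r + 1) k := by
    intro r k
    simp only [hD, Function.iterate_succ_apply']
    rfl
  have h4 : ∀ k, D 4 k = D 4 0 := by
    apply eq_of_dif_one_eq (D 4) (fun _ => D 4 0) rfl
    intro k
    rw [hstep 4 k, sub_self]
    exact h k
  have h3 : ∀ k, D 3 k = D 3 0 + k • D 4 0 := by
    apply eq_of_dif_one_eq (D 3) (fun k => D 3 0 + k • D 4 0) (by simp)
    intro k
    rw [hstep 3 k, h4 k]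
    module
  have h2 : ∀ k, (2 : ℤ) • D 2 k = (2 : ℤ) • D 2 0 + (2 * k) • D 3 0 + (k ^ 2 - k) • D 4 0 := by
    apply eq_of_dif_one_eq (fun k => (2 : ℤ) • D 2 k)
      (fun k => (2 : ℤ) • D 2 0 + (2 * k) • D 3 0 + (k ^ 2 - k) • D 4 0) (by simp)
    intro k
    rw [← smul_sub, hstep 2 k, h3 k]
    module
  have h1 : ∀ k, (6 : ℤ) • D 1 k = (6 : ℤ) • D 1 0 + (6 * k) • D 2 0 +
      (3 * (k ^ 2 - k)) • D 3 0 + (k ^ 3 - 3 * k ^ 2 + 2 * k) • D 4 0 := by
    apply eq_of_dif_one_eq (fun k => (6 : ℤ) • D 1 k)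
      (fun k => (6 : ℤ) • D 1 0 + (6 * k) • D 2 0 +
      (3 * (k ^ 2 - k)) • D 3 0 + (k ^ 3 - 3 * k ^ 2 + 2 * k) • D 4 0) (by simp)
    intro k
    have e : (6 : ℤ) • D 2 k = (3 : ℤ) • ((2 : ℤ) • D 2 k) := by module
    rw [← smul_sub, hstep 1 k, e, h2 k]
    module
  have h0 : ∀ k, (24 : ℤ) • D 0 k = (24 : ℤ) • D 0 0 + (24 * k) • D 1 0 +
      (12 * (k ^ 2 - k)) • D 2 0 + (4 * (k ^ 3 - 3 * k ^ 2 + 2 * k)) • D 3 0 +
      (k ^ 4 - 6 * k ^ 3 + 11 * k ^ 2 - 6 * k) • D 4 0 := by
    apply eq_of_dif_one_eq (fun k => (24 : ℤ) • D 0 k)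
      (fun k => (24 : ℤ) • D 0 0 + (24 * k) • D 1 0 +
      (12 * (k ^ 2 - k)) • D 2 0 + (4 * (k ^ 3 - 3 * k ^ 2 + 2 * k)) • D 3 0 +
      (k ^ 4 - 6 * k ^ 3 + 11 * k ^ 2 - 6 * k) • D 4 0) (by simp)
    intro k
    have e : (24 : ℤ) • D 1 k = (4 : ℤ) • ((6 : ℤ) • D 1 k) := by module
    rw [← smul_sub, hstep 0 k, e, h1 k]
    module
  refine ⟨![(24 : ℤ) • D 0 0,
    (24 : ℤ) • D 1 0 - (12 : ℤ) • D 2 0 + (8 : ℤ) • D 3 0 - (6 : ℤ) • D 4 0,
    (12 : ℤ) • D 2 0 - (12 : ℤ) • D 3 0 + (11 : ℤ) • D 4 0,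
    (4 : ℤ) • D 3 0 - (6 : ℤ) • D 4 0, D 4 0], rfl, ?_⟩
  intro k
  have := h0 k
  simp only [Fin.sum_univ_five]
  simp only [Matrix.cons_val_zero, Matrix.cons_val_one, Matrix.cons_val]
  have e0 : D 0 k = P k := rfl
  rw [← e0, this]
  simp only [Fin.val_zero, Fin.val_one, Fin.val_two]
  norm_num
  module

end Basic

/-- Certificates: lists of `(m, n, weight)`. -/
def cert : Fin 8 → List (ℤ × ℤ × ℤ) := ![
  [(0, 0, -167484363), (-1, 0, 170266431), (1, 0, 54881138), (-2, 0, -57671942), (2, 0, 16128), (0, -1, 13643044), (-1, -1, -16367152), (1, -1, -3635920), (-2, -1, 6354820), (0, 1, 107206582), (-1, 1, -108133770), (1, 1, -35429660), (-2, 1, 36351640), (0, -2, 46725272), (-1, -2, -45825132), (1, -2, -15880070), (-2, -2, 14981610), (0, 2, 1680), (0, -3, 3834), (-1, -3, -4002), (0, 3, -168), (0, -4, 887), (-1, -4, -887)],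
  [(0, 0, 115773873), (-1, 0, -117662413), (1, 0, -37962710), (-2, 0, 39846050), (0, -1, -10259832), (-1, -1, 12134352), (1, -1, 2792080), (-2, -1, -4662940), (0, 1, -73774110), (-1, 1, 74409710), (1, 1, 24381620), (-2, 1, -25013560), (0, -2, -31735488), (-1, -2, 31114852), (1, -2, 10789010), (-2, -2, -10169550), (0, 2, -1176), (0, -3, -2786), (-1, -3, 2902), (0, 3, 116), (0, -4, -597), (-1, -4, 597)],
  [(0, 0, -782713525), (-1, 0, 795410625), (1, 0, 256675950), (-2, 0, -269337210), (0, -1, 73898100), (-1, -1, -86520720), (1, -1, -20401680), (-2, -1, 32999100), (0, 1, 497216370), (-1, 1, -501483270), (1, 1, -164330180), (-2, 1, 168571880), (0, -2, 211568184), (-1, -2, -207382260), (1, -2, -71944090), (-2, -2, 67766230), (0, 2, 8064), (0, -3, 19646), (-1, -3, -20430), (0, 3, -784), (0, -4, 3945), (-1, -4, -3945)],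
  [(0, 0, 107835825), (-1, 0, -109575885), (1, 0, -35365430), (-2, 0, 37100450), (0, -1, -10671280), (-1, -1, 12403120), (1, -1, 2976160), (-2, -1, -4704460), (0, 1, -68337262), (-1, 1, 68921382), (1, 1, 22586180), (-2, 1, -23166760), (0, -2, -28822928), (-1, -2, 28247940), (1, -2, 9803090), (-2, -2, -9229230), (0, 2, -1128), (0, -3, -2802), (-1, -3, 2910), (0, 3, 108), (0, -4, -533), (-1, -4, 533)],
  [(0, 0, -103832037), (-1, 0, 105499057), (1, 0, 34054830), (-2, 0, -35716890), (0, -1, 10629548), (-1, -1, -12289808), (1, -1, -2985840), (-2, -1, 4642620), (0, 1, 65681018), (-1, 1, -66240278), (1, 1, -21708900), (-2, 1, 22264680), (0, -2, 27517192), (-1, -2, -26965588), (1, -2, -9360090), (-2, -2, 8809590), (0, 2, 1104), (0, -3, 2774), (-1, -3, -2878), (0, 3, -104), (0, -4, 505), (-1, -4, -505)],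
  [(0, 0, -2301), (-1, 0, 2601), (1, 0, 670), (-2, 0, -970), (0, -1, -70036), (-1, -1, 69736), (1, -1, 23440), (-2, -1, -23140), (0, 1, 24878), (-1, 1, -24978), (1, 1, -8260), (-2, 1, 8360), (0, -2, 47464), (-1, -2, -47364), (1, -2, -15850), (-2, -2, 15750), (0, -3, -6), (-1, -3, 6), (0, -4, 1), (-1, -4, -1)],
  [(0, 0, -32541), (-1, 0, 32841), (1, 0, 10750), (-2, 0, -11050), (0, -1, -54916), (-1, -1, 54616), (1, -1, 18400), (-2, -1, -18100), (0, 1, 39998), (-1, 1, -40098), (1, 1, -13300), (-2, 1, 13400), (0, -2, 47464), (-1, -2, -47364), (1, -2, -15850), (-2, -2, 15750), (0, -3, -6), (-1, -3, 6), (0, -4, 1), (-1, -4, -1)],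
  [(0, 0, 9861), (-1, 0, -10161), (1, 0, -3190), (-2, 0, 3490), (0, -1, 70036), (-1, -1, -69736), (1, -1, -23440), (-2, -1, 23140), (0, 1, -29918), (-1, 1, 30018), (1, 1, 9940), (-2, 1, -10040), (0, -2, -49984), (-1, -2, 49884), (1, -2, 16690), (-2, -2, -16590), (0, -3, 6), (-1, -3, -6), (0, -4, -1), (-1, -4, 1)]]

/-- The multiples obtained from the certificates. -/
def certK : Fin 8 → ℤ := ![387072, 69120, 322560, 69120, 276480, 483840, 483840, 241920]

theorem cert_sum : ∀ i : Fin 8, ((cert i).map fun t => t.2.2).sum = 0 := by decide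

theorem cert_moment : ∀ (i j : Fin 8) (r : Fin 5),
    ((cert i).map fun t => t.2.2 * (t.1 + pv j t.2.1) ^ (r : ℕ)).sum =
      if j = i ∧ r = 4 then certK i else 0 := by decide

theorem certK_ne : ∀ i, certK i ≠ 0 := by decide

section Main

variable {V : Type*} [AddCommGroup V]

theorem zsmul_cancel (hV : ∀ (k : ℕ) (v : V), k ≠ 0 → k • v = 0 → v = 0) (k : ℤ) (v : V)
    (hk : k ≠ 0) (h : k • v = 0) : v = 0 := by
  apply hV k.natAbs v (Int.natAbs_ne_zero.mpr hk)
  rcases Int.natAbs_eq k with e | e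
  · rw [e] at h
    simpa using h
  · rw [e] at h
    simpa using h

theorem list_swap (L : List (ℤ × ℤ × ℤ)) (u : Fin 8 → Fin 5 → V) :
    (L.map fun t => t.2.2 • ∑ j, ∑ r : Fin 5, ((t.1 + pv j t.2.1) ^ (r : ℕ)) • u j r).sum =
      ∑ j, ∑ r : Fin 5, ((L.map fun t => t.2.2 * (t.1 + pv j t.2.1) ^ (r : ℕ)).sum) • u j r := by
  induction L with
  | nil => simp
  | cons t L ih =>
      rw [List.map_cons, List.sum_cons, ih]
      simp only [List.map_cons, List.sum_cons, add_smul, Finset.sum_add_distrib, mul_smul,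
        Finset.smul_sum]

theorem list_const (L : List (ℤ × ℤ × ℤ)) (v : V) :
    (L.map fun t => t.2.2 • v).sum = ((L.map fun t => t.2.2).sum) • v := by
  induction L with
  | nil => simp
  | cons t L ih => simp only [List.map_cons, List.sum_cons, ih, add_smul]

theorem deg_four (hV : ∀ (k : ℕ) (v : V), k ≠ 0 → k • v = 0 → v = 0)
    (G : Fin 8 → ℤ → V) (hG : ∀ i k, (dif (1 : ℤ))^[5] (G i) k = 0) (c : V)
    (h : ∀ m n : ℤ, ∑ i, G i (m + pv i n) = c) (i : Fin 8) :
    ∀ k, (dif (1 : ℤ))^[4] (G i) k = 0 := by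
  choose u hu hexp using fun j => expansion (G j) (hG j)
  have hE : ∀ m n : ℤ, ∑ j, ∑ r : Fin 5, ((m + pv j n) ^ (r : ℕ)) • u j r = (24 : ℤ) • c := by
    intro m n
    rw [← h m n, Finset.smul_sum]
    exact Finset.sum_congr rfl fun j _ => (hexp j _).symm
  have h1 : certK i • u i 4 = 0 := by
    have e1 := list_swap (cert i) u
    have e2 : ((cert i).map fun t =>
        t.2.2 • ∑ j, ∑ r : Fin 5, ((t.1 + pv j t.2.1) ^ (r : ℕ)) • u j r) =
        (cert i).map fun t => t.2.2 • ((24 : ℤ) • c) := by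
      apply List.map_congr_left
      intro t _
      rw [hE]
    rw [e2, list_const, cert_sum, zero_smul] at e1
    simp only [cert_moment] at e1
    rw [Finset.sum_eq_single i, Finset.sum_eq_single 4] at e1
    · simpa using e1.symm
    · intro r _ hr
      simp [hr]
    · intro h; exact absurd (Finset.mem_univ _) h
    · intro j _ hj
      simp [hj]
    · intro h; exact absurd (Finset.mem_univ _) h
  have h2 : u i 4 = 0 := zsmul_cancel hV _ _ (certK_ne i) h1
  intro k
  have h3 : ∀ k, (dif (1 : ℤ))^[4] (G i) k = (dif (1 : ℤ))^[4] (G i) 0 := by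
    apply const_of_dif_one
    intro k
    have := hG i k
    rw [Function.iterate_succ_apply'] at this
    exact this
  rw [h3 k, ← hu i, h2]

theorem iterate_add_zero (P : ℤ → V) (a b : ℕ) :
    (dif (1 : ℤ))^[a + b] P = (dif (1 : ℤ))^[a] ((dif (1 : ℤ))^[b] P) :=
  Function.iterate_add_apply _ _ _ _

theorem relation_iterate (b : ℕ) (G : Fin 8 → ℤ → V) (c : V)
    (h : ∀ m n : ℤ, ∑ i, G i (m + pv i n) = c) :
    ∃ c' : V, ∀ m n : ℤ, ∑ i, (dif (1 : ℤ))^[b] (G i) (m + pv i n) = c' := by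
  induction b with
  | zero => exact ⟨c, h⟩
  | succ b ih =>
      obtain ⟨c', hc'⟩ := ih
      refine ⟨0, fun m n => ?_⟩
      have e : ∀ i, (dif (1 : ℤ))^[b + 1] (G i) (m + pv i n) =
          (dif (1 : ℤ))^[b] (G i) ((m + 1) + pv i n) - (dif (1 : ℤ))^[b] (G i) (m + pv i n) := by
        intro i
        rw [Function.iterate_succ_apply']
        simp only [dif]
        rw [show m + pv i n + 1 = m + 1 + pv i n by ring]
      simp only [e, Finset.sum_sub_distrib, hc', sub_self]

theorem descend (hV : ∀ (k : ℕ) (v : V), k ≠ 0 → k • v = 0 → v = 0)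
    (G : Fin 8 → ℤ → V) (c : V) (h : ∀ m n : ℤ, ∑ i, G i (m + pv i n) = c) (b : ℕ)
    (hb : ∀ i k, (dif (1 : ℤ))^[4 + b] (G i) k = 0) : ∀ i k, (dif (1 : ℤ))^[4] (G i) k = 0 := by
  induction b with
  | zero => exact hb
  | succ b ih =>
      apply ih
      obtain ⟨c', hc'⟩ := relation_iterate b G c h
      have := deg_four hV (fun i => (dif (1 : ℤ))^[b] (G i)) (by
        intro i k
        have := hb i k
        rw [show 4 + (b + 1) = 5 + b by ring, iterate_add_zero] at this
        exact this) c' hc'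
      intro i k
      rw [iterate_add_zero]
      exact this i k

/-- **One-variable relations.** -/
theorem relation (hV : ∀ (k : ℕ) (v : V), k ≠ 0 → k • v = 0 → v = 0)
    (G : Fin 8 → ℤ → V) (D : ℕ) (hG : ∀ i, IsPoly D (G i)) (c : V)
    (h : ∀ m n : ℤ, ∑ i, G i (m + pv i n) = c) : ∀ i, IsPoly 3 (G i) := by
  intro i
  apply isPoly_of_iterate
  apply descend hV G c h D
  intro j k
  rw [show 4 + D = 3 + (D + 1) by ring, iterate_add_zero]
  have e : (dif (1 : ℤ))^[D + 1] (G j) = fun _ => 0 := by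
    funext k
    exact iterate_of_isPoly D (G j) (hG j) k
  rw [e]
  have e' : ∀ a : ℕ, (dif (1 : ℤ))^[a] (fun _ : ℤ => (0 : V)) = fun _ => 0 := by
    intro a
    induction a with
    | zero => rfl
    | succ a ih =>
        rw [Function.iterate_succ_apply', ih]
        funext k
        simp [dif]
  rw [e']

end Main

end Pool.Agent.BLL
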