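import Pool.Agent.BLL.Lim2

/-!
# Systems with characters; box norms and Cauchy–Schwarz
-/

set_option autoImplicit false
open Filter Topology MeasureTheory

namespace Pool.Agent.BLL

noncomputable section

variable {X : Type*} [MeasurableSpace X]

/-- integer powers of `T` -/
def Tp (T : X ≃ᵐ X) (k : ℤ) (x : X) : X := ((T.toEquiv : Equiv.Perm X) ^ k) x

theorem Tp_zero (T : X ≃ᵐ X) (x : X) : Tp T 0 x = x := rfl

theorem Tp_one (T : X ≃ᵐ X) (x : X) : Tp T 1 x = T x := by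
  simp [Tp]

theorem Tp_add (T : X ≃ᵐ X) (k l : ℤ) (x : X) : Tp T (k + l) x = Tp T k (Tp T l x) := by
  simp only [Tp, zpow_add, Equiv.Perm.mul_apply]

theorem Tp_neg_one (T : X ≃ᵐ X) (x : X) : Tp T (-1) x = T.symm x := by
  unfold Tp
  rw [zpow_neg_one]
  rfl

theorem mp_Tp {μ : Measure X} {T : X ≃ᵐ X} (hT : MeasurePreserving T μ μ) (k : ℤ) :
    MeasurePreserving (Tp T k) μ μ := by
  have h1 : MeasurePreserving (Tp T 1) μ μ := by
    have : Tp T 1 = T := funext (Tp_one T)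
    rw [this]; exact hT
  have h2 : MeasurePreserving (Tp T (-1)) μ μ := by
    have : Tp T (-1) = T.symm := funext (Tp_neg_one T)
    rw [this]; exact hT.symm
  induction k using Int.induction_on with
  | zero =>
    have : Tp T 0 = id := funext (Tp_zero T)
    rw [this]; exact MeasurePreserving.id μ
  | succ k ih =>
    have : Tp T ((k : ℤ) + 1) = Tp T k ∘ Tp T 1 := funext fun x => Tp_add T k 1 x
    rw [this]; exact ih.comp h1
  | pred k ih =>
    have : Tp T (-(k : ℤ) - 1) = Tp T (-(k : ℤ)) ∘ Tp T (-1) := funext fun x => by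
      rw [sub_eq_add_neg, Tp_add]; rfl
    rw [this]; exact ih.comp h2

/-- bounded measurable functions -/
def BM (f : X → ℂ) : Prop := Measurable f ∧ ∃ C : ℝ, ∀ x, ‖f x‖ ≤ C

theorem BM.const (c : ℂ) : BM (fun _ : X => c) := ⟨measurable_const, ‖c‖, fun _ => le_rfl⟩

theorem BM.add {f g : X → ℂ} (hf : BM f) (hg : BM g) : BM (fun x => f x + g x) := by
  obtain ⟨h1, C, h2⟩ := hf
  obtain ⟨h3, D, h4⟩ := hg
  exact ⟨h1.add h3, C + D, fun x => (norm_add_le _ _).trans (add_le_add (h2 x) (h4 x))⟩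

theorem BM.sub {f g : X → ℂ} (hf : BM f) (hg : BM g) : BM (fun x => f x - g x) := by
  obtain ⟨h1, C, h2⟩ := hf
  obtain ⟨h3, D, h4⟩ := hg
  exact ⟨h1.sub h3, C + D, fun x => (norm_sub_le _ _).trans (add_le_add (h2 x) (h4 x))⟩

theorem BM.mul {f g : X → ℂ} (hf : BM f) (hg : BM g) : BM (fun x => f x * g x) := by
  obtain ⟨h1, C, h2⟩ := hf
  obtain ⟨h3, D, h4⟩ := hg
  refine ⟨h1.mul h3, |C| * |D|, fun x => ?_⟩
  rw [norm_mul]
  exact mul_le_mul ((h2 x).trans (le_abs_self _)) ((h4 x).trans (le_abs_self _)) (norm_nonneg _)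
    (abs_nonneg _)

theorem BM.conj {f : X → ℂ} (hf : BM f) : BM (fun x => (starRingEnd ℂ) (f x)) := by
  obtain ⟨h1, C, h2⟩ := hf
  exact ⟨Complex.continuous_conj.measurable.comp h1, C, fun x => by rw [RCLike.norm_conj]; exact h2 x⟩

theorem BM.comp {f : X → ℂ} (hf : BM f) {σ : X → X} (hσ : Measurable σ) :
    BM (fun x => f (σ x)) := by
  obtain ⟨h1, C, h2⟩ := hf
  exact ⟨h1.comp hσ, C, fun x => h2 _⟩

theorem BM.sum {ι : Type*} (s : Finset ι) {f : ι → X → ℂ} (hf : ∀ i ∈ s, BM (f i)) :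
    BM (fun x => ∑ i ∈ s, f i x) := by
  classical
  induction s using Finset.induction_on with
  | empty => simpa using BM.const (X := X) 0
  | insert a s ha ih =>
    simp only [Finset.sum_insert ha]
    exact (hf a (Finset.mem_insert_self a s)).add
      (ih fun i hi => hf i (Finset.mem_insert_of_mem hi))

theorem BM.prod {ι : Type*} (s : Finset ι) {f : ι → X → ℂ} (hf : ∀ i ∈ s, BM (f i)) :
    BM (fun x => ∏ i ∈ s, f i x) := by
  classical
  induction s using Finset.induction_on with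
  | empty => simpa using BM.const (X := X) 1
  | insert a s ha ih =>
    simp only [Finset.prod_insert ha]
    exact (hf a (Finset.mem_insert_self a s)).mul
      (ih fun i hi => hf i (Finset.mem_insert_of_mem hi))

theorem BM.integrable {μ : Measure X} [IsFiniteMeasure μ] {f : X → ℂ} (hf : BM f) :
    Integrable f μ := by
  obtain ⟨h1, C, h2⟩ := hf
  exact Integrable.of_bound h1.aestronglyMeasurable C (Eventually.of_forall h2)

/-- multiplicative derivative -/
def mD (T : X ≃ᵐ X) (h : ℤ) (F : X → ℂ) (x : X) : ℂ := F x * (starRingEnd ℂ) (F (Tp T h x))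

theorem BM.mD {μ : Measure X} {T : X ≃ᵐ X} (hT : MeasurePreserving T μ μ) {F : X → ℂ} (hF : BM F)
    (h : ℤ) : BM (mD T h F) := hF.mul (hF.comp (mp_Tp hT h).measurable).conj

/-- conjugate depending on parity -/
def cj (n : ℕ) (z : ℂ) : ℂ := (⇑(starRingEnd ℂ))^[n] z

theorem cj_succ (n : ℕ) (z : ℂ) : cj (n + 1) z = cj n ((starRingEnd ℂ) z) := by
  simp [cj, Function.iterate_succ]

theorem cj_mul (n : ℕ) (z w : ℂ) : cj n (z * w) = cj n z * cj n w := by
  induction n generalizing z w with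
  | zero => rfl
  | succ n ih => rw [cj_succ, cj_succ, cj_succ, map_mul, ih]

/-- number of `true` coordinates -/
def wt {d : ℕ} (ω : Fin d → Bool) : ℕ := (Finset.univ.filter (fun j => ω j = true)).card

/-- `ω · h` -/
def dt {d : ℕ} (ω : Fin d → Bool) (h : Fin d → ℤ) : ℤ := ∑ j, if ω j = true then h j else 0

theorem wt_cons {d : ℕ} (b : Bool) (ω : Fin d → Bool) :
    wt (Fin.cons b ω : Fin (d + 1) → Bool) = (if b = true then 1 else 0) + wt ω := by
  unfold wt
  rw [Finset.card_filter, Finset.card_filter, Fin.sum_univ_succ]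
  simp

theorem dt_cons {d : ℕ} (b : Bool) (ω : Fin d → Bool) (x : ℤ) (h : Fin d → ℤ) :
    dt (Fin.cons b ω : Fin (d + 1) → Bool) (Fin.cons x h : Fin (d + 1) → ℤ)
      = (if b = true then x else 0) + dt ω h := by
  unfold dt
  rw [Fin.sum_univ_succ]
  simp

/-- the product over the cube -/
def cp (T : X ≃ᵐ X) (d : ℕ) (F : X → ℂ) (h : Fin d → ℤ) (x : X) : ℂ :=
  ∏ ω : Fin d → Bool, cj (wt ω) (F (Tp T (dt ω h) x))

theorem cp_zero (T : X ≃ᵐ X) (F : X → ℂ) (h : Fin 0 → ℤ) (x : X) : cp T 0 F h x = F x := by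
  unfold cp
  rw [Fintype.prod_unique]
  simp [wt, dt, cj, Tp_zero]

theorem cp_succ (T : X ≃ᵐ X) (d : ℕ) (F : X → ℂ) (a : ℤ) (h : Fin d → ℤ) (x : X) :
    cp T (d + 1) F (Fin.cons a h) x = cp T d (mD T a F) h x := by
  unfold cp
  rw [← (Fin.consEquiv (fun _ : Fin (d + 1) => Bool)).prod_comp, Fintype.prod_prod_type]
  rw [Fintype.prod_bool, ← Finset.prod_mul_distrib]
  refine Finset.prod_congr rfl fun ω _ => ?_
  have e1 : (Fin.consEquiv (fun _ : Fin (d + 1) => Bool)) (true, ω) = Fin.cons true ω := rfl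
  have e2 : (Fin.consEquiv (fun _ : Fin (d + 1) => Bool)) (false, ω) = Fin.cons false ω := rfl
  rw [e1, e2, wt_cons, wt_cons, dt_cons, dt_cons]
  simp only [if_true, Bool.false_eq_true, if_false, zero_add]
  rw [add_comm 1 (wt ω), cj_succ, Tp_add, mD, cj_mul, mul_comm]

theorem BM.cp {μ : Measure X} {T : X ≃ᵐ X} (hT : MeasurePreserving T μ μ) {F : X → ℂ} (hF : BM F)
    (d : ℕ) (h : Fin d → ℤ) : BM (cp T d F h) := by
  refine BM.prod _ fun ω _ => ?_
  have h1 : BM (fun x => F (Tp T (dt ω h) x)) := hF.comp (mp_Tp hT _).measurable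
  generalize wt ω = n
  induction n with
  | zero => exact h1
  | succ n ih =>
    have : (fun x => cj (n + 1) (F (Tp T (dt ω h) x)))
        = fun x => (starRingEnd ℂ) (cj n (F (Tp T (dt ω h) x))) := by
      funext x; simp [cj, Function.iterate_succ_apply']
    rw [this]
    exact ih.conj

/-- the correlation over the cube -/
def cor (μ : Measure X) (T : X ≃ᵐ X) (d : ℕ) (F : X → ℂ) (h : Fin d → ℤ) : ℂ :=
  ∫ x, cp T d F h x ∂μ

theorem cor_zero (μ : Measure X) (T : X ≃ᵐ X) (F : X → ℂ) (h : Fin 0 → ℤ) :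
    cor μ T 0 F h = ∫ x, F x ∂μ := by
  unfold cor; simp only [cp_zero]

theorem cor_succ (μ : Measure X) (T : X ≃ᵐ X) (d : ℕ) (F : X → ℂ) (a : ℤ) (h : Fin d → ℤ) :
    cor μ T (d + 1) F (Fin.cons a h) = cor μ T d (mD T a F) h := by
  unfold cor; simp only [cp_succ]

theorem sum_cube_succ {d H : ℕ} (g : (Fin (d + 1) → ℕ) → ℂ) :
    ∑ s ∈ cube (d + 1) H, g s = ∑ a ∈ Finset.range H, ∑ s ∈ cube d H, g (Fin.cons a s) := by
  rw [← Finset.sum_product']
  refine Finset.sum_nbij' (fun s => (s 0, Fin.tail s)) (fun p => Fin.cons p.1 p.2) ?_ ?_ ?_ ?_ ?_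
  · intro s hs
    rw [mem_cube] at hs
    rw [Finset.mem_product, Finset.mem_range, mem_cube]
    exact ⟨hs 0, fun j => hs j.succ⟩
  · rintro ⟨a, s⟩ hs
    rw [Finset.mem_product, Finset.mem_range, mem_cube] at hs
    rw [mem_cube]
    intro j
    refine Fin.cases ?_ (fun i => ?_) j
    · simpa using hs.1
    · simpa using hs.2 i
  · intro s _; simp
  · rintro ⟨a, s⟩ _; simp
  · intro s _; simp

theorem ci_cons {d : ℕ} (a : ℕ) (s : Fin d → ℕ) :
    ci (Fin.cons a s : Fin (d + 1) → ℕ) = (Fin.cons (a : ℤ) (ci s) : Fin (d + 1) → ℤ) := by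
  funext j
  refine Fin.cases ?_ (fun i => ?_) j
  · simp [ci]
  · simp [ci]

theorem cons_sub {d : ℕ} (a b : ℤ) (s t : Fin d → ℤ) :
    (Fin.cons a s : Fin (d + 1) → ℤ) - (Fin.cons b t : Fin (d + 1) → ℤ)
      = (Fin.cons (a - b) (s - t) : Fin (d + 1) → ℤ) := by
  funext j
  refine Fin.cases ?_ (fun i => ?_) j
  · simp
  · simp

/-- Fejér box average. -/
def ww (μ : Measure X) (T : X ≃ᵐ X) (H d : ℕ) (F : X → ℂ) : ℂ :=
  avg (cube d H ×ˢ cube d H) (fun p => ci p.1 - ci p.2) (cor μ T d F)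

theorem ww_succ (μ : Measure X) (T : X ≃ᵐ X) (H d : ℕ) (F : X → ℂ) :
    ww μ T H (d + 1) F = ((H : ℂ) ^ 2)⁻¹ * ∑ s ∈ Finset.range H, ∑ t ∈ Finset.range H,
      ww μ T H d (mD T ((s : ℤ) - t) F) := by
  unfold ww avg
  rw [Finset.card_product, Finset.card_product, card_cube, card_cube, Finset.sum_product,
    sum_cube_succ]
  simp only [sum_cube_succ, ci_cons, cons_sub, cor_succ]
  simp only [Finset.sum_product]
  have e : ∀ s ∈ Finset.range H, ∑ x ∈ cube d H, ∑ t ∈ Finset.range H, ∑ y ∈ cube d H,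
      cor μ T d (mD T ((s : ℤ) - t) F) (ci x - ci y)
      = ∑ t ∈ Finset.range H, ∑ x ∈ cube d H, ∑ y ∈ cube d H,
      cor μ T d (mD T ((s : ℤ) - t) F) (ci x - ci y) := fun s _ => Finset.sum_comm
  rw [Finset.sum_congr rfl e]
  simp only [← Finset.mul_sum]
  rw [← mul_assoc]
  congr 1
  push_cast
  rw [← mul_inv]
  congr 1
  ring

end

end Pool.Agent.BLL
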