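import Pool.Agent.BLL.CS

/-!
# Low degree characters and the Fejér box averages
-/

set_option autoImplicit false
open Filter Topology MeasureTheory

namespace Pool.Agent.BLL

noncomputable section

variable {X : Type*} [MeasurableSpace X] {μ : Measure X} {T : X ≃ᵐ X} {Ξ : Type*} [AddCommGroup Ξ]

namespace Chars

variable (c : Chars μ T Ξ)

theorem ww_succ_re (H d : ℕ) (F : X → ℂ) :
    (ww μ T H (d + 1) F).re = ((H : ℝ) ^ 2)⁻¹ * ∑ s ∈ Finset.range H, ∑ t ∈ Finset.range H,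
      (ww μ T H d (mD T ((s : ℤ) - t) F)).re := by
  rw [ww_succ, show (((H : ℂ) ^ 2)⁻¹) = ((((H : ℝ) ^ 2)⁻¹ : ℝ) : ℂ) by push_cast; rfl,
      Complex.re_ofReal_mul, Complex.re_sum]
  simp only [Complex.re_sum]

/-- One Cauchy–Schwarz step against a character. -/
theorem char_step [IsProbabilityMeasure μ] (hT : MeasurePreserving T μ μ) {F : X → ℂ}
    (hF : BM F) (φ : Ξ) (q : ℤ) {H : ℕ} (hH : H ≠ 0) (n : ℕ) :
    ‖∫ x, F x * c.E φ x ∂μ‖ ^ (2 * (n + 1)) ≤ ((H : ℝ) ^ 2)⁻¹ * ∑ s ∈ Finset.range H,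
      ∑ t ∈ Finset.range H, ‖∫ x, mD T (q * ((s : ℤ) - t)) F x *
        c.E (φ - c.tau (q * ((s : ℤ) - t)) φ) x ∂μ‖ ^ (n + 1) := by
  have h1 := vdc_step hT (hF.mul (c.bm φ)) q hH
  have h2 : ‖∫ x, F x * c.E φ x ∂μ‖ ^ 2 ≤ ((H : ℝ) ^ 2)⁻¹ * ∑ s ∈ Finset.range H,
      ∑ t ∈ Finset.range H, ‖∫ x, mD T (q * ((s : ℤ) - t)) F x *
        c.E (φ - c.tau (q * ((s : ℤ) - t)) φ) x ∂μ‖ := by
    refine h1.trans ?_
    refine mul_le_mul_of_nonneg_left ?_ (by positivity)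
    refine Finset.sum_le_sum fun s _ => Finset.sum_le_sum fun t _ => ?_
    refine (Complex.re_le_norm _).trans (le_of_eq ?_)
    simp only [c.mD_E]
  rw [pow_mul]
  rw [← Finset.sum_product'] at h2 ⊢
  have hcard : (((Finset.range H) ×ˢ (Finset.range H)).card : ℝ) = (H : ℝ) ^ 2 := by
    rw [Finset.card_product, Finset.card_range]; push_cast; ring
  have hH0 : (0 : ℝ) < (H : ℝ) ^ 2 := by
    have : (0 : ℝ) < H := by exact_mod_cast Nat.pos_of_ne_zero hH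
    positivity
  refine (pow_le_pow_left₀ (by positivity) h2 (n + 1)).trans ?_
  exact pow_mean _ _ (fun i _ => norm_nonneg _) hcard hH0 n

/-- Characters of degree `≤ d` are controlled by the Fejér box average of order `d+1`. -/
theorem claimC [IsProbabilityMeasure μ] (hT : MeasurePreserving T μ μ) (d : ℕ) {F : X → ℂ}
    (hF : BM F) {φ : Ξ} (hφ : (c.N ^ (d + 1)) φ = 0) {H : ℕ} (hH : H ≠ 0) :
    ‖∫ x, F x * c.E φ x ∂μ‖ ^ (2 ^ (d + 1)) ≤ (ww μ T H (d + 1) F).re := by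
  induction d generalizing F φ with
  | zero =>
    have h' : c.N φ = 0 := by simpa using hφ
    have h1 := vdc_step hT (hF.mul (c.bm φ)) 1 hH
    rw [show 2 ^ (0 + 1) = 2 by norm_num, ww_succ_re]
    refine h1.trans (le_of_eq ?_)
    congr 1
    refine Finset.sum_congr rfl fun s _ => Finset.sum_congr rfl fun t _ => ?_
    rw [ww_zero]
    simp only [c.mD_E, c.tau_fix h', sub_self, c.E_zero, mul_one, one_mul]
  | succ d ih =>
    have h1 := c.char_step hT hF φ 1 hH (2 ^ (d + 1) - 1)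
    have hp : 2 ^ (d + 1) - 1 + 1 = 2 ^ (d + 1) := Nat.sub_add_cancel Nat.one_le_two_pow
    rw [hp] at h1
    rw [show 2 ^ (d + 1 + 1) = 2 * 2 ^ (d + 1) by ring]
    refine h1.trans ?_
    rw [ww_succ_re]
    refine mul_le_mul_of_nonneg_left ?_ (by positivity)
    refine Finset.sum_le_sum fun s _ => Finset.sum_le_sum fun t _ => ?_
    rw [one_mul]
    refine ih (hF.mD hT _) ?_
    rw [map_sub, ← c.tau_Npow_comm]
    rw [c.Npow_succ] at hφ
    rw [c.tau_fix hφ, sub_self]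

/-- Characters of degree `d+1` with torsion leading coefficient are controlled as well. -/
theorem claimC' [IsProbabilityMeasure μ] (hT : MeasurePreserving T μ μ) (d : ℕ) {F : X → ℂ}
    (hF : BM F) {φ : Ξ} {M : ℕ} (hM : M ≠ 0) (hφ : M • (c.N ^ (d + 2)) φ = 0) {H' : ℕ}
    (hH : H' ≠ 0) :
    ‖∫ x, F x * c.E φ x ∂μ‖ ^ (2 ^ (d + 2)) ≤ (M : ℝ) ^ 2 * (ww μ T (M * H') (d + 2) F).re := by
  set ψ := (c.N ^ (d + 1)) φ with hψ
  have hψ1 : M • c.N ψ = 0 := by rw [hψ, ← c.Npow_succ]; exact hφ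
  have hfin : IsOfFinAddOrder (c.N ψ) :=
    isOfFinAddOrder_iff_nsmul_eq_zero.2 ⟨M, Nat.pos_of_ne_zero hM, hψ1⟩
  have hNN : c.N (c.N ψ) = 0 := by
    rw [c.N_apply, c.tau_one, c.tor _ hfin, sub_self]
  have htau : ∀ k : ℤ, c.tau k ψ = ψ + k • c.N ψ := by
    intro k
    have hstep : ∀ ψ' : Ξ, c.tau 1 ψ' = ψ' + c.N ψ' := fun ψ' => by rw [c.N_apply]; abel
    have hfix := c.tau_fix hNN
    have hm1 : c.tau (-1) ψ = ψ - c.N ψ := by
      have e1 : c.tau (-1) (c.tau 1 ψ) = ψ := by rw [← c.tau_add]; exact c.tau_zero ψ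
      rw [hstep, map_add, hfix] at e1
      rw [eq_sub_iff_add_eq]; exact e1
    induction k using Int.induction_on with
    | zero => rw [c.tau_zero, zero_smul, add_zero]
    | succ k ih => rw [c.tau_add, hstep, map_add, ih, hfix, add_smul, one_smul, add_assoc]
    | pred k ih =>
      rw [sub_eq_add_neg, c.tau_add, hm1, map_sub, ih, hfix, add_smul, neg_smul, neg_smul, one_smul]
      abel
  have h1 := c.char_step hT hF φ M hH (2 ^ (d + 1) - 1)
  have hp : 2 ^ (d + 1) - 1 + 1 = 2 ^ (d + 1) := Nat.sub_add_cancel Nat.one_le_two_pow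
  rw [hp] at h1
  rw [show 2 ^ (d + 2) = 2 * 2 ^ (d + 1) by ring]
  refine h1.trans ?_
  have hMH : M * H' ≠ 0 := mul_ne_zero hM hH
  have h2 : ∀ s t : ℕ, ‖∫ x, mD T ((M : ℤ) * ((s : ℤ) - t)) F x *
        c.E (φ - c.tau ((M : ℤ) * ((s : ℤ) - t)) φ) x ∂μ‖ ^ (2 ^ (d + 1))
        ≤ (ww μ T (M * H') (d + 1) (mD T ((((M * s : ℕ)) : ℤ) - ((M * t : ℕ) : ℤ)) F)).re := by
    intro s t
    rw [show (((M * s : ℕ)) : ℤ) - ((M * t : ℕ) : ℤ) = (M : ℤ) * ((s : ℤ) - t) by push_cast; ring]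
    refine c.claimC hT d (hF.mD hT _) ?_ hMH
    rw [map_sub, ← c.tau_Npow_comm, ← hψ, htau, mul_comm, mul_smul, natCast_zsmul, hψ1, smul_zero]
    abel
  rw [ww_succ_re]
  have hMr : (M : ℝ) ≠ 0 := by exact_mod_cast hM
  have hHr : (H' : ℝ) ≠ 0 := by exact_mod_cast hH
  have h3 : (M : ℝ) ^ 2 * ((((M * H' : ℕ) : ℝ) ^ 2)⁻¹ * ∑ s ∈ Finset.range (M * H'),
      ∑ t ∈ Finset.range (M * H'), (ww μ T (M * H') (d + 1) (mD T ((s : ℤ) - t) F)).re)
      = ((H' : ℝ) ^ 2)⁻¹ * ∑ s ∈ Finset.range (M * H'),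
      ∑ t ∈ Finset.range (M * H'), (ww μ T (M * H') (d + 1) (mD T ((s : ℤ) - t) F)).re := by
    push_cast; field_simp
  rw [h3]
  refine mul_le_mul_of_nonneg_left ?_ (by positivity)
  rw [← Finset.sum_product', ← Finset.sum_product']
  have hpos : ∀ p : ℕ × ℕ, 0 ≤ (ww μ T (M * H') (d + 1) (mD T ((p.1 : ℤ) - p.2) F)).re :=
    fun p => ww_nonneg hT d (hF.mD hT _) _
  refine (Finset.sum_le_sum fun p _ => h2 p.1 p.2).trans ?_
  have hinj : Function.Injective (fun p : ℕ × ℕ => (M * p.1, M * p.2)) := by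
    rintro ⟨a, b⟩ ⟨a', b'⟩ h
    simp only [Prod.mk.injEq] at h
    rw [Nat.mul_right_inj hM, Nat.mul_right_inj hM] at h
    exact Prod.ext h.1 h.2
  have himg := Finset.sum_image (s := Finset.range H' ×ˢ Finset.range H')
    (g := fun p : ℕ × ℕ => ((M * p.1, M * p.2) : ℕ × ℕ))
    (f := fun p : ℕ × ℕ => (ww μ T (M * H') (d + 1) (mD T ((p.1 : ℤ) - p.2) F)).re) hinj.injOn
  refine (le_of_eq himg.symm).trans ?_
  refine Finset.sum_le_sum_of_subset_of_nonneg ?_ (fun p _ _ => hpos p)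
  intro p hp
  rw [Finset.mem_image] at hp
  obtain ⟨⟨a, b⟩, hab, rfl⟩ := hp
  rw [Finset.mem_product, Finset.mem_range, Finset.mem_range] at hab ⊢
  exact ⟨Nat.mul_lt_mul_of_pos_left hab.1 (Nat.pos_of_ne_zero hM),
    Nat.mul_lt_mul_of_pos_left hab.2 (Nat.pos_of_ne_zero hM)⟩

/-- If the Fejér box averages of order 4 tend to zero then `F` is orthogonal to all characters
whose fourth difference is torsion. -/
theorem orthogonal [IsProbabilityMeasure μ] (hT : MeasurePreserving T μ μ) {F : X → ℂ}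
    (hF : BM F) (hlim : Tendsto (fun H => ww μ T H 4 F) atTop (𝓝 0)) {φ : Ξ}
    (hφ : IsOfFinAddOrder ((c.N ^ 4) φ)) : ∫ x, F x * c.E φ x ∂μ = 0 := by
  obtain ⟨M, hM, hφ'⟩ := isOfFinAddOrder_iff_nsmul_eq_zero.1 hφ
  have hM0 : M ≠ 0 := hM.ne'
  have h1 : Tendsto (fun H' : ℕ => (M : ℝ) ^ 2 * (ww μ T (M * (H' + 1)) 4 F).re) atTop (𝓝 0) := by
    have h2 : Tendsto (fun H' : ℕ => M * (H' + 1)) atTop atTop :=
      (tendsto_add_atTop_nat 1).const_mul_atTop' hM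
    have h3 := ((Complex.continuous_re.tendsto _).comp (hlim.comp h2)).const_mul ((M : ℝ) ^ 2)
    simpa using h3
  have h4 : ‖∫ x, F x * c.E φ x ∂μ‖ ^ (2 ^ 4) ≤ 0 := by
    refine ge_of_tendsto' h1 fun H' => ?_
    exact c.claimC' hT 2 hF hM0 hφ' (Nat.succ_ne_zero H')
  have h5 : ‖∫ x, F x * c.E φ x ∂μ‖ = 0 := by
    have h6 : 0 ≤ ‖∫ x, F x * c.E φ x ∂μ‖ := norm_nonneg _
    exact pow_eq_zero_iff (by norm_num) |>.1 (le_antisymm h4 (by positivity))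
  exact norm_eq_zero.1 h5

end Chars

end

end Pool.Agent.BLL
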