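import Pool.Agent.BLL.Relation
import Pool.Agent.BLL.W1
import Pool.Agent.BLL.Density
import Pool.Agent.BLL.Stmts

/-!
# The Weyl half, for an arbitrary system with a unipotent group of characters
-/

set_option autoImplicit false
open Filter Topology MeasureTheory

namespace Pool.Agent.BLL

noncomputable section

/-! ### Invariant sequences used -/

theorem invSeq_fejer (r : ℕ) : InvSeq (fun H => cube r H ×ˢ cube r H)
    (fun p : (Fin r → ℕ) × (Fin r → ℕ) => ci p.1 - ci p.2) := by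
  have h := ((invSeq_cube r).prod (invSeq_cube r)).map
    ((AddMonoidHom.fst (Fin r → ℤ) (Fin r → ℤ)) - (AddMonoidHom.snd (Fin r → ℤ) (Fin r → ℤ)))
    (fun v => ⟨(v, 0), by simp⟩)
  exact h

theorem closure_ZZ : ∃ gens : Finset (ℤ × ℤ), AddSubgroup.closure (gens : Set (ℤ × ℤ)) = ⊤ := by
  refine ⟨{(1, 0), (0, 1)}, ?_⟩
  rw [eq_top_iff]
  rintro ⟨a, b⟩ -
  have : ((a, b) : ℤ × ℤ) = a • (1, 0) + b • (0, 1) := by simp
  rw [this]
  refine AddSubgroup.add_mem _ (AddSubgroup.zsmul_mem _ ?_ _) (AddSubgroup.zsmul_mem _ ?_ _)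
  · exact AddSubgroup.subset_closure (by simp)
  · exact AddSubgroup.subset_closure (by simp)

theorem isPoly_eval (p : Polynomial ℤ) : ∃ d, IsPoly d (fun n : ℤ => p.eval n) := by
  induction p using Polynomial.induction_on' with
  | add p q hp hq =>
    obtain ⟨d, hd⟩ := hp
    obtain ⟨e, he⟩ := hq
    refine ⟨max d e, ?_⟩
    simp only [Polynomial.eval_add]
    exact (hd.mono (le_max_left _ _)).add (he.mono (le_max_right _ _))
  | monomial n a =>
    have hid : IsPoly 1 (fun n : ℤ => n) := isPoly_hom (AddMonoidHom.id ℤ)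
    have hpow : ∀ n : ℕ, IsPoly n (fun x : ℤ => x ^ n) := by
      intro n
      induction n with
      | zero => simpa using isPoly_const 0 (1 : ℤ)
      | succ n ih =>
        have := IsPoly.zsmul (n := n + 1) (d := n) (e := 1) le_rfl ih hid
        simpa [pow_succ] using this
    refine ⟨n, ?_⟩
    have := IsPoly.zsmul (n := n) (d := 0) (e := n) (by omega) (isPoly_const 0 a) (hpow n)
    simpa using this

variable {X : Type*} [MeasurableSpace X] {μ : Measure X} {T : X ≃ᵐ X} {Ξ : Type*} [AddCommGroup Ξ]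

theorem box_eq (f : X → ℂ) (H : ℕ) : box μ T f H = avg (cube 4 H) ci (cor μ T 4 f) := by
  unfold box avg
  rw [card_cube]
  push_cast
  rw [one_div]
  rfl

/-- `ω · h` as a homomorphism -/
def dtHom (ω : Fin 4 → Bool) : (Fin 4 → ℤ) →+ ℤ where
  toFun := dt ω
  map_zero' := by simp [dt]
  map_add' := by
    intro x y
    simp only [dt]
    rw [← Finset.sum_add_distrib]
    refine Finset.sum_congr rfl fun j _ => ?_
    split_ifs <;> simp

/-- approximation data -/
theorem Chars.dense' (c : Chars μ T Ξ) {f : X → ℂ} (hf : BM f) :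
    ∀ ε > 0, ∃ g ∈ Submodule.span ℂ (c.E '' (∅ : Set Ξ)ᶜ), ∫ x, ‖f x - g x‖ ∂μ < ε :=
  c.dense f hf ∅ (fun φ h => absurd h (Set.notMem_empty φ))

theorem sub_avg_tendsto [IsProbabilityMeasure μ] (hT : MeasurePreserving T μ μ) (c : Chars μ T Ξ)
    {F : X → ℂ} (hF : BM F) :
    Tendsto (fun H => avg (cube 4 H) ci (cor μ T 4 F) - ww μ T H 4 F) atTop (𝓝 0) := by
  have key := density μ (G := Fin 4 → ℤ) (K := Fin 4 → Bool)
    (fun h ω => Tp T (dt ω h)) (fun h ω => mp_Tp hT _)
    (fun a => Tendsto (fun H => avg (cube 4 H) ci a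
      - avg (cube 4 H ×ˢ cube 4 H) (fun p => ci p.1 - ci p.2) a) atTop (𝓝 0))
    (by simp [avg]) ?_ ?_ ?_ (fun _ => c.E '' (∅ : Set Ξ)ᶜ) ?_ ?_ (fun ω x => cj (wt ω) (F x)) ?_ ?_
  · exact key
  · intro a b ha hb
    have := ha.add hb
    simp only [avg_add] at this ⊢
    rw [add_zero] at this
    refine this.congr fun H => ?_
    ring
  · intro k a ha
    have := ha.const_mul k
    simp only [avg_mul]
    rw [mul_zero] at this
    refine this.congr fun H => ?_
    ring
  · intro a ha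
    rw [Metric.tendsto_nhds]
    intro ε hε
    obtain ⟨b, hb, hab⟩ := ha (ε / 4) (by positivity)
    filter_upwards [(Metric.tendsto_nhds.1 hb) (ε / 4) (by positivity)] with H hH
    rw [dist_zero_right] at hH ⊢
    have e : avg (cube 4 H) ci a - avg (cube 4 H ×ˢ cube 4 H) (fun p => ci p.1 - ci p.2) a
        = (avg (cube 4 H) ci b - avg (cube 4 H ×ˢ cube 4 H) (fun p => ci p.1 - ci p.2) b)
        + avg (cube 4 H) ci (fun s => a s - b s)
        - avg (cube 4 H ×ˢ cube 4 H) (fun p => ci p.1 - ci p.2) (fun s => a s - b s) := by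
      rw [avg_sub, avg_sub]; ring
    rw [e]
    have h1 := norm_avg_le (cube 4 H) ci (fun s => a s - b s) (by positivity) hab
    have h2 := norm_avg_le (cube 4 H ×ˢ cube 4 H) (fun p => ci p.1 - ci p.2)
      (fun s => a s - b s) (by positivity) hab
    have h3 := norm_sub_le ((avg (cube 4 H) ci b
      - avg (cube 4 H ×ˢ cube 4 H) (fun p => ci p.1 - ci p.2) b)
        + avg (cube 4 H) ci (fun s => a s - b s))
        (avg (cube 4 H ×ˢ cube 4 H) (fun p => ci p.1 - ci p.2) (fun s => a s - b s))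
    have h4 := norm_add_le (avg (cube 4 H) ci b
      - avg (cube 4 H ×ˢ cube 4 H) (fun p => ci p.1 - ci p.2) b)
        (avg (cube 4 H) ci (fun s => a s - b s))
    linarith
  · rintro _ _ ⟨φ, _, rfl⟩
    exact c.bm φ
  · intro φ hφ
    choose ψ hψ using hφ
    obtain ⟨D, hD⟩ := c.exists_isPoly_tau
    have hP : IsPoly D (fun h : Fin 4 → ℤ => ∑ ω : Fin 4 → Bool, c.tau (dt ω h) (ψ ω)) := by
      refine IsPoly.sum _ fun ω _ => ?_
      exact IsPoly.comp_hom (dtHom ω) (hD (ψ ω))
    obtain ⟨l, hl⟩ := exists_lim (c.pdI) hP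
    have e : (fun h : Fin 4 → ℤ => ∫ x, ∏ ω, φ ω (Tp T (dt ω h) x) ∂μ)
        = fun h => c.I (∑ ω : Fin 4 → Bool, c.tau (dt ω h) (ψ ω)) := by
      funext h
      unfold Chars.I
      refine integral_congr_ae (Eventually.of_forall fun x => ?_)
      simp only
      rw [c.E_sum]
      refine Finset.prod_congr rfl fun ω _ => ?_
      rw [← c.E_Tp, (hψ ω).2]
    rw [e]
    have h1 := hl (cube 4) ci (invSeq_cube 4)
    have h2 := hl (fun H => cube 4 H ×ˢ cube 4 H) (fun p => ci p.1 - ci p.2) (invSeq_fejer 4)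
    simpa using h1.sub h2
  · intro ω
    generalize wt ω = n
    induction n with
    | zero => exact hF
    | succ n ih =>
      have : (fun x => cj (n + 1) (F x)) = fun x => (starRingEnd ℂ) (cj n (F x)) := by
        funext x; simp [cj, Function.iterate_succ_apply']
      rw [this]
      exact ih.conj
  · intro ω
    refine c.dense' ?_
    generalize wt ω = n
    induction n with
    | zero => exact hF
    | succ n ih =>
      have : (fun x => cj (n + 1) (F x)) = fun x => (starRingEnd ℂ) (cj n (F x)) := by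
        funext x; simp [cj, Function.iterate_succ_apply']
      rw [this]
      exact ih.conj

theorem orthogonal_of_box [IsProbabilityMeasure μ] (hT : MeasurePreserving T μ μ) (c : Chars μ T Ξ)
    {F : X → ℂ} (hF : BM F) (hbox : Tendsto (box μ T F) atTop (𝓝 0)) {φ : Ξ}
    (hφ : IsOfFinAddOrder ((c.N ^ 4) φ)) : ∫ x, F x * c.E φ x ∂μ = 0 := by
  refine c.orthogonal hT hF ?_ hφ
  have h1 := sub_avg_tendsto hT c hF
  have h2 : Tendsto (fun H => avg (cube 4 H) ci (cor μ T 4 F)) atTop (𝓝 0) := by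
    refine hbox.congr fun H => box_eq F H
  have h3 := h2.sub h1
  simpa using h3

/-! ### the relation argument -/

theorem torsionfree_quot : ∀ (k : ℕ) (v : Ξ ⧸ AddCommGroup.torsion Ξ), k ≠ 0 → k • v = 0 → v = 0 := by
  intro k w hk hw
  obtain ⟨x, rfl⟩ := QuotientAddGroup.mk'_surjective _ w
  rw [← map_nsmul] at hw
  rw [QuotientAddGroup.mk'_apply, QuotientAddGroup.eq_zero_iff] at hw ⊢
  exact isOfFin_of_nsmul hk hw

theorem low_degree (c : Chars μ T Ξ) (Ψ : Fin 8 → Ξ)
    (h : ∀ n : ℤ, IsOfFinAddOrder (∑ i, c.tau (pv i n) (Ψ i))) (i : Fin 8) :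
    IsOfFinAddOrder ((c.N ^ 4) (Ψ i)) := by
  set q : Ξ →+ Ξ ⧸ AddCommGroup.torsion Ξ := QuotientAddGroup.mk' _ with hq
  have hq0 : ∀ x, q x = 0 ↔ IsOfFinAddOrder x := by
    intro x
    rw [hq, QuotientAddGroup.mk'_apply, QuotientAddGroup.eq_zero_iff]
    exact Iff.rfl
  obtain ⟨D, hD⟩ := c.exists_isPoly_tau
  have hrel := relation torsionfree_quot (fun i k => q (c.tau k (Ψ i))) D
    (fun i => (hD (Ψ i)).map q) 0 (fun m n => by
      have e : ∑ i, q (c.tau (m + pv i n) (Ψ i)) = q (c.tau m (∑ i, c.tau (pv i n) (Ψ i))) := by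
        rw [map_sum, map_sum]
        refine Finset.sum_congr rfl fun i _ => ?_
        rw [c.tau_add]
      rw [e, hq0]
      obtain ⟨k, hk, hk2⟩ := isOfFinAddOrder_iff_nsmul_eq_zero.1 (h n)
      refine isOfFinAddOrder_iff_nsmul_eq_zero.2 ⟨k, hk, ?_⟩
      rw [← map_nsmul, hk2, map_zero]) i
  have hdif : ∀ ψ : Ξ, dif (1 : ℤ) (fun k => q (c.tau k ψ)) = fun k => q (c.tau k (c.N ψ)) := by
    intro ψ
    funext k
    simp only [dif]
    rw [c.tau_add, c.N_apply, map_sub, map_sub]
  have h3 := hrel 1 1 1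
  rw [hdif, hdif, hdif] at h3
  have h4 := h3 1
  simp only at h4
  rw [c.tau_zero] at h4
  rw [← hq0, pow_succ', pow_succ', pow_succ', pow_one]
  have h5 : q (c.N (c.N (c.N (c.N (Ψ i))))) = 0 := by
    rw [c.N_apply (c.N (c.N (c.N (Ψ i)))), map_sub, h4, sub_self]
  exact h5

/-- the index maps -/
def kap (k : Bool × Fin 7) (p : ℤ × ℤ) : ℤ :=
  if k.1 = true then (P k.2).eval p.1 else (P k.2).eval p.2

theorem isPoly_kap : ∃ d, ∀ k, IsPoly d (kap k) := by
  have h : ∀ i, ∃ d, IsPoly d (fun n : ℤ => (P i).eval n) := fun i => isPoly_eval (P i)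
  choose d hd using h
  refine ⟨∑ i, d i, fun k => ?_⟩
  have h1 : IsPoly (∑ i, d i) (fun n : ℤ => (P k.2).eval n) :=
    (hd k.2).mono (Finset.single_le_sum (fun i _ => Nat.zero_le (d i)) (Finset.mem_univ k.2))
  unfold kap
  by_cases hk : k.1 = true
  · simp only [hk, if_true]
    exact h1.comp_hom (AddMonoidHom.fst ℤ ℤ)
  · simp only [hk, if_false, Bool.false_eq_true]
    exact h1.comp_hom (AddMonoidHom.snd ℤ ℤ)

theorem pavg_eq [IsProbabilityMeasure μ] (hT : MeasurePreserving T μ μ) {f : Fin 7 → X → ℂ}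
    (hf : ∀ i, BM (f i)) (N : ℕ) :
    ((pavg μ T f N : ℝ) : ℂ) = avg (Finset.Icc 1 N ×ˢ Finset.Icc 1 N)
      (Prod.map (fun n : ℕ => (n : ℤ)) (fun n : ℕ => (n : ℤ)))
      (fun p => ∫ x, ∏ k : Bool × Fin 7, (if k.1 = true then f k.2 (Tp T (kap k p) x)
        else (starRingEnd ℂ) (f k.2 (Tp T (kap k p) x))) ∂μ) := by
  unfold pavg avg
  rw [← integral_complex_ofReal, Finset.card_product, Nat.card_Icc, Nat.add_sub_cancel,
    Finset.sum_product]
  have hpt : ∀ x, ((‖(1 / (N : ℂ)) * ∑ n ∈ Finset.Icc 1 N,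
      ∏ i, f i (((T.toEquiv : Equiv.Perm X) ^ ((P i).eval (n : ℤ))) x)‖ ^ 2 : ℝ) : ℂ)
      = (((N * N : ℕ) : ℂ))⁻¹ * ∑ n ∈ Finset.Icc 1 N, ∑ n' ∈ Finset.Icc 1 N,
        ∏ k : Bool × Fin 7, (if k.1 = true then f k.2 (Tp T (kap k ((n : ℤ), (n' : ℤ))) x)
        else (starRingEnd ℂ) (f k.2 (Tp T (kap k ((n : ℤ), (n' : ℤ))) x))) := by
    intro x
    rw [← Complex.normSq_eq_norm_sq, ← Complex.mul_conj, map_mul, map_sum, map_div₀, map_one,
      Complex.conj_natCast]
    rw [show ∀ a b : ℂ, (1 / (N : ℂ)) * a * (1 / (N : ℂ) * b) = (((N * N : ℕ) : ℂ))⁻¹ * (a * b) by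
      intro a b; push_cast; rw [mul_inv]; ring]
    rw [Finset.sum_mul_sum]
    congr 1
    refine Finset.sum_congr rfl fun n _ => Finset.sum_congr rfl fun n' _ => ?_
    rw [Fintype.prod_prod_type, Fintype.prod_bool, map_prod]
    simp [kap, Tp]
  simp only [hpt]
  have hbm : ∀ (p : ℤ × ℤ), BM (fun x => ∏ k : Bool × Fin 7,
      (if k.1 = true then f k.2 (Tp T (kap k p) x)
        else (starRingEnd ℂ) (f k.2 (Tp T (kap k p) x)))) := by
    intro p
    refine BM.prod _ fun k _ => ?_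
    split_ifs
    · exact (hf k.2).comp (mp_Tp hT _).measurable
    · exact ((hf k.2).comp (mp_Tp hT _).measurable).conj
  rw [integral_const_mul, integral_finsetSum _ fun n _ => (BM.sum _ fun n' _ => hbm _).integrable]
  congr 1
  refine Finset.sum_congr rfl fun n _ => ?_
  rw [integral_finsetSum _ fun n' _ => (hbm _).integrable]
  rfl

/-- **The Weyl half**, abstract form. -/
theorem wmain [IsProbabilityMeasure μ] (hT : MeasurePreserving T μ μ) (c : Chars μ T Ξ)
    {f : Fin 7 → X → ℂ} (hf : ∀ i, BM (f i)) (i₀ : Fin 7)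
    (hbox : Tendsto (box μ T (f i₀)) atTop (𝓝 0)) :
    Tendsto (pavg μ T f) atTop (𝓝 0) := by
  set R : Set Ξ := {φ | IsOfFinAddOrder ((c.N ^ 4) φ)} with hR
  have horth : ∀ φ ∈ R, ∫ x, f i₀ x * (starRingEnd ℂ) (c.E φ x) ∂μ = 0 := by
    intro φ hφ
    simp only [← c.E_neg]
    refine orthogonal_of_box hT c (hf i₀) hbox ?_
    rw [map_neg]
    exact hφ.neg
  suffices h : Tendsto (fun N => ((pavg μ T f N : ℝ) : ℂ)) atTop (𝓝 0) by
    have := (Complex.continuous_re.tendsto _).comp h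
    simpa [Function.comp_def] using this
  simp only [pavg_eq hT hf]
  have key := density μ (G := ℤ × ℤ) (K := Bool × Fin 7)
    (fun p k => Tp T (kap k p)) (fun p k => mp_Tp hT _)
    (fun a => Tendsto (fun N => avg (Finset.Icc 1 N ×ˢ Finset.Icc 1 N)
      (Prod.map (fun n : ℕ => (n : ℤ)) (fun n : ℕ => (n : ℤ))) a) atTop (𝓝 0))
    (by simp [avg]) ?_ ?_ ?_ (fun k => if k = (true, i₀) then c.E '' Rᶜ else c.E '' (∅ : Set Ξ)ᶜ) ?_ ?_
    (fun k x => if k.1 = true then f k.2 x else (starRingEnd ℂ) (f k.2 x)) ?_ ?_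
  · refine key.congr fun N => ?_
    rfl
  · intro a b ha hb
    have := ha.add hb
    simp only [avg_add]
    simpa using this
  · intro k a ha
    have := ha.const_mul k
    simp only [avg_mul]
    simpa using this
  · intro a ha
    rw [Metric.tendsto_nhds]
    intro ε hε
    obtain ⟨b, hb, hab⟩ := ha (ε / 4) (by positivity)
    filter_upwards [(Metric.tendsto_nhds.1 hb) (ε / 4) (by positivity)] with N hN
    rw [dist_zero_right] at hN ⊢
    set π := (Prod.map (fun n : ℕ => (n : ℤ)) (fun n : ℕ => (n : ℤ))) with hπ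
    have e : avg (Finset.Icc 1 N ×ˢ Finset.Icc 1 N) π a
        = avg (Finset.Icc 1 N ×ˢ Finset.Icc 1 N) π b
        + avg (Finset.Icc 1 N ×ˢ Finset.Icc 1 N) π (fun s => a s - b s) := by
      rw [avg_sub]; ring
    rw [e]
    have h1 := norm_avg_le (Finset.Icc 1 N ×ˢ Finset.Icc 1 N) π (fun s => a s - b s)
      (by positivity) hab
    have h4 := norm_add_le (avg (Finset.Icc 1 N ×ˢ Finset.Icc 1 N) π b)
        (avg (Finset.Icc 1 N ×ˢ Finset.Icc 1 N) π (fun s => a s - b s))
    linarith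
  · intro k g hg
    split_ifs at hg
    · obtain ⟨φ, _, rfl⟩ := hg; exact c.bm φ
    · obtain ⟨φ, _, rfl⟩ := hg; exact c.bm φ
  · intro φ hφ
    have hφ' : ∀ k, ∃ ψ : Ξ, (k = (true, i₀) → ψ ∉ R) ∧ c.E ψ = φ k := by
      intro k
      have := hφ k
      split_ifs at this with hk
      · obtain ⟨ψ, h1, h2⟩ := this; exact ⟨ψ, fun _ => h1, h2⟩
      · obtain ⟨ψ, h1, h2⟩ := this; exact ⟨ψ, fun h => absurd h hk, h2⟩
    choose ψ hψR hψ using hφ'
    obtain ⟨D, hD⟩ := c.exists_isPoly_tau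
    obtain ⟨e, he⟩ := isPoly_kap
    have hP : IsPoly (e * D) (fun p : ℤ × ℤ => ∑ k : Bool × Fin 7, c.tau (kap k p) (ψ k)) := by
      refine IsPoly.sum _ fun k _ => ?_
      exact (hD (ψ k)).comp (he k)
    have e1 : (fun p : ℤ × ℤ => ∫ x, ∏ k, φ k (Tp T (kap k p) x) ∂μ)
        = fun p => c.I (∑ k : Bool × Fin 7, c.tau (kap k p) (ψ k)) := by
      funext p
      unfold Chars.I
      refine integral_congr_ae (Eventually.of_forall fun x => ?_)
      simp only
      rw [c.E_sum]
      refine Finset.prod_congr rfl fun k _ => ?_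
      rw [← c.E_Tp, hψ k]
    rw [e1]
    obtain ⟨gens, hgens⟩ := closure_ZZ
    refine tendsto_avg_zero (invSeq_Icc.prod invSeq_Icc) c.pdI hgens _ _ hP ?_
    intro hcmt
    -- the relation
    have hz : ∀ i : Fin 7, (P i).eval 0 = 0 := by
      intro i
      rw [P_eval]
      fin_cases i <;> simp [pv]
    set Ψ : Fin 8 → Ξ := Fin.cons (-∑ i, ψ (true, i)) (fun i => ψ (true, i)) with hΨ
    have hrel : ∀ n : ℤ, IsOfFinAddOrder (∑ i, c.tau (pv i n) (Ψ i)) := by
      intro n
      have h1 := hcmt (n, 0) (0, 0)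
      have h2 : ∀ p : ℤ, ∑ k : Bool × Fin 7, c.tau (kap k (p, 0)) (ψ k)
          = ∑ i, c.tau (pv i.succ p) (ψ (true, i)) + ∑ i, ψ (false, i) := by
        intro p
        rw [Fintype.sum_prod_type, Fintype.sum_bool]
        congr 1
        · refine Finset.sum_congr rfl fun i _ => ?_
          simp only [kap, if_true]
          rw [P_eval]
        · refine Finset.sum_congr rfl fun i _ => ?_
          simp only [kap, Bool.false_eq_true, if_false, hz, c.tau_zero]
      simp only [h2] at h1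
      have h3 : ∀ i : Fin 7, pv i.succ 0 = 0 := fun i => by rw [← P_eval]; exact hz i
      simp only [h3, c.tau_zero] at h1
      rw [Fin.sum_univ_succ]
      simp only [hΨ, Fin.cons_zero, Fin.cons_succ]
      have h4 : pv 0 n = 0 := by simp [pv]
      rw [h4, c.tau_zero]
      convert h1 using 1
      abel
    have := low_degree c Ψ hrel i₀.succ
    simp only [hΨ, Fin.cons_succ] at this
    exact hψR (true, i₀) rfl this
  · intro k
    by_cases hk : k.1 = true
    · simp only [hk, if_true]; exact hf k.2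
    · simp only [hk, Bool.false_eq_true, if_false]; exact (hf k.2).conj
  · intro k
    by_cases hk : k = (true, i₀)
    · subst hk
      simp only [if_true]
      exact c.dense _ (hf i₀) R horth
    · simp only [hk, if_false]
      refine c.dense' ?_
      by_cases hk : k.1 = true
      · simp only [hk, if_true]; exact hf k.2
      · simp only [hk, Bool.false_eq_true, if_false]; exact (hf k.2).conj

end

end Pool.Agent.BLL
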